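import Pool.Agent.TF.BernB
import Pool.Agent.TF.E.Dk2
import Pool.Agent.TF.E.JL2

/-!
# Project TF, block S: the propagator, Duhamel's formula (helper55)
-/

set_option autoImplicit false

namespace Pool.Agent.TF.Cl

open MeasureTheory Set Filter Topology Pool.Agent.TO Pool.Agent.TB Pool.Agent.TC Pool.Agent.TP
open scoped ENNReal NNReal Real InnerProductSpace SchwartzMap LineDeriv

/-- Bernstein's method, one step (used for `d ≤ 2 τ`) -/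
def StB : Prop := ∀ c > 0, ∃ κ : ℝ, 0 < κ ∧ κ ≤ 1 ∧ ∀ κ' : ℝ, 0 < κ' → κ' ≤ κ →
  ∀ (r d Λ : ℝ) (b : E3 → E3) (lam : E3 → ℝ), 0 < r → 0 < d → Coef c r Λ b lam →
  d * Λ ≤ 1 / 4 → ∀ τ : ℝ, d ≤ 2 * τ → τ ≤ r ^ 2 → ∀ f, Nc f → ∀ x,
  Qf κ' (τ + d) (heat d (Jst d b lam f)) x ≤ heat d (fun x => Qf κ' τ f (x - d • b x)) x

/-- Bernstein's method, the start -/
def StB0 : Prop := ∀ (f : E3 → E3) (M d : ℝ), Continuous f → (∀ x, ‖f x‖ ≤ M) → 0 < d → ∀ x,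
  Qf 1 d (heat d f) x ≤ M ^ 2

/-- closure of the nice functions -/
def StNc : Prop := ∀ (f : E3 → E3) (d : ℝ), 0 < d → Continuous f → (∃ C, ∀ x, ‖f x‖ ≤ C) →
  MemLp f 2 (volume : Measure E3) → Nc (heat d f)

section basic

variable {f g : E3 → E3} {M d : ℝ}

theorem norm_heat_le {F : Type*} [NormedAddCommGroup F] [NormedSpace ℝ F] {f : E3 → F}
    (hd : 0 < d) (h : ∀ x, ‖f x‖ ≤ M) (x : E3) : ‖heat d f x‖ ≤ M := by
  have := isProb_gam hd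
  rw [heat_eq hd]
  have h1 := norm_integral_le_of_norm_le_const (μ := gam d) (f := fun y => f (x - y)) (C := M)
    (Eventually.of_forall fun y => h _)
  simpa using h1

theorem int_heat {F : Type*} [NormedAddCommGroup F] [NormedSpace ℝ F] {f : E3 → F}
    (hd : 0 < d) (hf : Continuous f) (h : ∃ C, ∀ x, ‖f x‖ ≤ C) (x : E3) :
    Integrable (fun y => f (x - y)) (gam d) := by
  have := isProb_gam hd
  obtain ⟨C, hC⟩ := h
  exact Integrable.of_bound (hf.comp (continuous_const.sub continuous_id)).aestronglyMeasurable C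
    (Eventually.of_forall fun y => hC _)

theorem heat_add_fun {F : Type*} [NormedAddCommGroup F] [NormedSpace ℝ F] {f g : E3 → F}
    (hd : 0 < d) (hf : Continuous f) (h : ∃ C, ∀ x, ‖f x‖ ≤ C) (hg : Continuous g)
    (h' : ∃ C, ∀ x, ‖g x‖ ≤ C) (x : E3) :
    heat d (fun y => f y + g y) x = heat d f x + heat d g x := by
  rw [heat_eq hd, heat_eq hd, heat_eq hd]
  exact integral_add (int_heat hd hf h x) (int_heat hd hg h' x)

theorem heat_smul_fun {F : Type*} [NormedAddCommGroup F] [NormedSpace ℝ F] {f : E3 → F}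
    (hd : 0 < d) (c : ℝ) (x : E3) : heat d (fun y => c • f y) x = c • heat d f x := by
  rw [heat_eq hd, heat_eq hd]
  exact integral_smul c _

theorem heat_mono_fun {f g : E3 → ℝ} (hd : 0 < d) (hf : Continuous f) (h : ∃ C, ∀ x, ‖f x‖ ≤ C)
    (hg : Continuous g) (h' : ∃ C, ∀ x, ‖g x‖ ≤ C) (hfg : ∀ x, f x ≤ g x) (x : E3) :
    heat d f x ≤ heat d g x := by
  rw [heat_eq hd, heat_eq hd]
  exact integral_mono (int_heat hd hf h x) (int_heat hd hg h' x) fun y => hfg _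

theorem heat_le_const {f : E3 → ℝ} (hd : 0 < d) (hf0 : ∀ x, 0 ≤ f x) (hf : ∀ x, f x ≤ M) (x : E3) :
    heat d f x ≤ M := by
  have h1 := norm_heat_le (f := f) (M := M) hd (fun y => by
    rw [Real.norm_eq_abs, abs_of_nonneg (hf0 y)]
    exact hf y) x
  exact (le_abs_self _).trans h1

theorem nc_cont (h : Nc f) : Continuous f := h.c2.continuous

theorem nc_diff (h : Nc f) : Differentiable ℝ f := diff_of h.c2

end basic

section prop

variable {f : E3 → E3} {M d c r Λ κ τ : ℝ} {b : E3 → E3} {lam : E3 → ℝ}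

theorem abs_one_sub_le (h : Coef c r Λ b lam) (hd : 0 ≤ d) (hdΛ : d * Λ ≤ 1 / 4) (x : E3) :
    |1 - d * lam x| ≤ 1 := by
  have h1 : d * lam x ≤ 1 / 4 := (mul_le_mul_of_nonneg_left (h.lΛ x) hd).trans hdΛ
  have h2 : 0 ≤ d * lam x := mul_nonneg hd (h.l0 x)
  rw [abs_le]
  constructor <;> linarith

theorem norm_Jst_le (h : Coef c r Λ b lam) (hd : 0 ≤ d) (hdΛ : d * Λ ≤ 1 / 4)
    (hf : ∀ x, ‖f x‖ ≤ M) (x : E3) : ‖Jst d b lam f x‖ ≤ M := by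
  have hM : 0 ≤ M := (norm_nonneg _).trans (hf 0)
  unfold Jst
  rw [norm_smul, Real.norm_eq_abs]
  calc |1 - d * lam x| * ‖f (x - d • b x)‖ ≤ 1 * M := by
        have := abs_one_sub_le h hd hdΛ x
        have := hf (x - d • b x)
        gcongr
    _ = M := one_mul M

theorem cont_Jst (h : Coef c r Λ b lam) (hf : Continuous f) : Continuous (Jst d b lam f) := by
  have h1 := h.cb.continuous
  have h2 := h.cl.continuous
  unfold Jst
  fun_prop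

theorem memLp_Jst (h : Coef c r Λ b lam) (hd : 0 ≤ d) (hdΛ : d * Λ ≤ 1 / 4) (hf : Nc f) :
    MemLp (Jst d b lam f) 2 (volume : Measure E3) :=
  (h.memLp_Jst hd (by linarith) (nc_cont hf) hf.m0).1

theorem nc_stp (hN : StNc) (h : Coef c r Λ b lam) (hd : 0 < d) (hdΛ : d * Λ ≤ 1 / 4)
    (hf : Nc f) : Nc (heat d (Jst d b lam f)) := by
  obtain ⟨C, hC⟩ := hf.b0
  exact hN _ _ hd (cont_Jst h (nc_cont hf)) ⟨C, norm_Jst_le h hd.le hdΛ hC⟩ (memLp_Jst h hd.le hdΛ hf)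

theorem Qf_nonneg (hκ : 0 ≤ κ) (hτ : 0 ≤ τ) (f : E3 → E3) (x : E3) : 0 ≤ Qf κ τ f x := by
  rw [Qf_eq]
  exact Bs_nonneg (by positivity) f x

theorem Qf_mono {κ' : ℝ} (hκ : 0 ≤ κ) (hκ' : κ ≤ κ') (hτ : 0 ≤ τ) (f : E3 → E3) (x : E3) :
    Qf κ τ f x ≤ Qf κ' τ f x := by
  unfold Qf
  have h1 : 0 ≤ κ * τ := by positivity
  gcongr

theorem norm_le_N2 {ι : Type*} [Fintype ι] {F : Type*} [NormedAddCommGroup F] (v : ι → F) (i : ι) :
    ‖v i‖ ≤ N2 v := by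
  unfold N2
  apply Real.le_sqrt_of_sq_le
  exact Finset.single_le_sum (f := fun i => ‖v i‖ ^ 2) (fun _ _ => by positivity)
    (Finset.mem_univ i)

theorem pd_le_D1 {F : Type*} [NormedAddCommGroup F] [NormedSpace ℝ F] (f : E3 → F) (i : Fin 3)
    (x : E3) : ‖pd i f x‖ ≤ D1 f x :=
  norm_le_N2 (fun i => pd i f x) i

theorem pd_le_D2 {F : Type*} [NormedAddCommGroup F] [NormedSpace ℝ F] (f : E3 → F) (i j : Fin 3)
    (x : E3) : ‖pd i (pd j f) x‖ ≤ D2 f x :=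
  norm_le_N2 (fun p : Fin 3 × Fin 3 => pd p.1 (pd p.2 f) x) (i, j)

theorem D_of_Qf (hκ : 0 ≤ κ) (hτ : 0 ≤ τ) (hM : 0 ≤ M) {x : E3} (h : Qf κ τ f x ≤ M ^ 2) :
    ‖f x‖ ≤ M ∧ √(κ * τ) * D1 f x ≤ M ∧ κ * τ * D2 f x ≤ M := by
  have hp : 0 ≤ κ * τ := by positivity
  rw [Qf_eq, Bs_eq hp] at h
  have a1 : 0 ≤ ‖f x‖ ^ 2 := sq_nonneg _
  have a2 : 0 ≤ (√(κ * τ) * D1 f x) ^ 2 := sq_nonneg _
  have a3 : 0 ≤ (κ * τ * D2 f x) ^ 2 := sq_nonneg _
  exact ⟨(sq_le_sq₀ (norm_nonneg _) hM).1 (by linarith),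
    (sq_le_sq₀ (mul_nonneg (Real.sqrt_nonneg _) (D1_nonneg _ _)) hM).1 (by linarith),
    (sq_le_sq₀ (mul_nonneg hp (D2_nonneg _ _)) hM).1 (by linarith)⟩

/-- the sup bound from the functional -/
theorem norm_of_Qf (hκ : 0 ≤ κ) (hτ : 0 ≤ τ) (hM : 0 ≤ M) {x : E3} (h : Qf κ τ f x ≤ M ^ 2) :
    ‖f x‖ ≤ M := (D_of_Qf hκ hτ hM h).1

theorem pd_of_Qf (hκ : 0 < κ) (hτ : 0 < τ) (hM : 0 ≤ M) {x : E3} (h : Qf κ τ f x ≤ M ^ 2)
    (i : Fin 3) : ‖pd i f x‖ ≤ M / √(κ * τ) := by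
  have h0 : 0 < √(κ * τ) := Real.sqrt_pos.2 (by positivity)
  rw [le_div_iff₀ h0, mul_comm]
  exact (mul_le_mul_of_nonneg_left (pd_le_D1 f i x) h0.le).trans (D_of_Qf hκ.le hτ.le hM h).2.1

theorem pd2_of_Qf (hκ : 0 < κ) (hτ : 0 < τ) (hM : 0 ≤ M) {x : E3} (h : Qf κ τ f x ≤ M ^ 2)
    (i j : Fin 3) : ‖pd i (pd j f) x‖ ≤ M / (κ * τ) := by
  have h0 : 0 < κ * τ := by positivity
  rw [le_div_iff₀ h0, mul_comm]
  exact (mul_le_mul_of_nonneg_left (pd_le_D2 f i j x) h0.le).trans (D_of_Qf hκ.le hτ.le hM h).2.2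

end prop

end Pool.Agent.TF.Cl
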