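import Pool.Agent.TF.S.HeatQ
import Pool.Agent.TF.S.Close1

/-!
# Block S: Bernstein's method, one step and the start
-/

set_option autoImplicit false

namespace Pool.Agent.TF

open MeasureTheory Set Filter Topology Pool.Agent.TO Pool.Agent.TB Pool.Agent.TC Pool.Agent.TP
open scoped ENNReal NNReal Real InnerProductSpace SchwartzMap LineDeriv

/-- the start of Bernstein's method -/
theorem stB0 : Cl.StB0 := by
  intro f M d hf hM hd x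
  have h := sb_start hd hf.stronglyMeasurable hM x
  rw [Qf_eq, one_mul]
  exact h

section

variable {f : E3 → E3} {x : E3}

theorem sb_pd_le_D1 (f : E3 → E3) (i : Fin 3) (x : E3) : ‖pd i f x‖ ≤ D1 f x := by
  have h := D1_sq f x
  have h1 : ‖pd i f x‖ ^ 2 ≤ D1 f x ^ 2 := by
    rw [h]
    exact Finset.single_le_sum (f := fun i => ‖pd i f x‖ ^ 2) (fun j _ => sq_nonneg _)
      (Finset.mem_univ i)
  exact abs_le_of_sq_le_sq' h1 (D1_nonneg f x) |>.2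

theorem sb_pd_le_D2 (f : E3 → E3) (i j : Fin 3) (x : E3) : ‖pd i (pd j f) x‖ ≤ D2 f x := by
  have h := D2_sq f x
  have h1 : ‖pd i (pd j f) x‖ ^ 2 ≤ D2 f x ^ 2 := by
    rw [h]
    refine le_trans ?_ (Finset.single_le_sum (f := fun i => ∑ j, ‖pd i (pd j f) x‖ ^ 2)
      (fun i _ => Finset.sum_nonneg fun j _ => sq_nonneg _) (Finset.mem_univ i))
    exact Finset.single_le_sum (f := fun j => ‖pd i (pd j f) x‖ ^ 2) (fun j _ => sq_nonneg _)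
      (Finset.mem_univ j)
  exact abs_le_of_sq_le_sq' h1 (D2_nonneg f x) |>.2

theorem sb_D1_le {C : ℝ} (hC : ∀ i x, ‖pd i f x‖ ≤ C) (x : E3) : D1 f x ≤ 3 * C := by
  have hC0 : 0 ≤ C := (norm_nonneg _).trans (hC 0 x)
  have h : D1 f x ^ 2 ≤ (3 * C) ^ 2 := by
    rw [D1_sq]
    have h2 : ∀ i, ‖pd i f x‖ ^ 2 ≤ C ^ 2 := fun i => pow_le_pow_left₀ (norm_nonneg _) (hC i x) 2
    refine (Finset.sum_le_sum fun i _ => h2 i).trans ?_
    simp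
    nlinarith [sq_nonneg C]
  exact abs_le_of_sq_le_sq' h (by positivity) |>.2

theorem sb_D2_le {C : ℝ} (hC : ∀ i j x, ‖pd i (pd j f) x‖ ≤ C) (x : E3) : D2 f x ≤ 3 * C := by
  have hC0 : 0 ≤ C := (norm_nonneg _).trans (hC 0 0 x)
  have h : D2 f x ^ 2 ≤ (3 * C) ^ 2 := by
    rw [D2_sq]
    have h2 : ∀ i j, ‖pd i (pd j f) x‖ ^ 2 ≤ C ^ 2 := fun i j =>
      pow_le_pow_left₀ (norm_nonneg _) (hC i j x) 2
    refine (Finset.sum_le_sum fun i _ => Finset.sum_le_sum fun j _ => h2 i j).trans ?_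
    simp
    nlinarith [sq_nonneg C]
  exact abs_le_of_sq_le_sq' h (by positivity) |>.2

end

/-- the jump preserves bounded `C²` functions -/
theorem sb_c2b_Jst {c r Λ d : ℝ} {b : E3 → E3} {lam : E3 → ℝ} (hc : 0 < c) (hr : 0 < r)
    (hd : 0 < d) (h : Coef c r Λ b lam) (hdΛ : d * Λ ≤ 1 / 4) {f : E3 → E3} (hf : Nc f) :
    C2b (Jst d b lam f) := by
  obtain ⟨M0, hM0⟩ := hf.b0
  obtain ⟨M1, hM1⟩ := hf.b1
  obtain ⟨M2, hM2⟩ := hf.b2
  have m0 : 0 ≤ M0 := (norm_nonneg _).trans (hM0 0)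
  have m1 : 0 ≤ M1 := (norm_nonneg _).trans (hM1 0 0)
  have m2 : 0 ≤ M2 := (norm_nonneg _).trans (hM2 0 0 0)
  have hB := coefB_of h hc hr hd.le (hdΛ.trans (by norm_num))
  have hq : ∀ x, 0 ≤ d * lam x ∧ d * lam x ≤ 1 / 2 := fun x => ⟨hB.q0 x, hB.dl x⟩
  refine ⟨?_, ⟨M0, Cl.norm_Jst_le h hd.le hdΛ hM0⟩,
    ⟨1 * ((1 + 1) * (3 * M1)) + 3 * c * 1 / r * M0, fun i x => ?_⟩,
    ⟨1 * ((1 + 1) ^ 2 * (3 * M2) + 3 * c * 1 / r * (3 * M1)) +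
      2 * (3 * c * 1 / r * ((1 + 1) * (3 * M1))) + 3 * c * 1 / r ^ 2 * M0, fun i j x => ?_⟩⟩
  · have h1 : ContDiff ℝ 2 fun x => 1 - d * lam x := contDiff_const.sub (contDiff_const.mul h.cl)
    have h2 : ContDiff ℝ 2 fun x => f (x - d • b x) := hf.c2.comp (contDiff_Sh h.cb)
    exact h1.smul h2
  · obtain ⟨q0, q1⟩ := hq x
    refine (sb_pd_le_D1 _ i x).trans ((Jst_D1 hB hf.c2 x).trans ?_)
    have a1 := sb_D1_le hM1 (Sh d b x)
    have a0 := hM0 (Sh d b x)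
    have a2 := D1_nonneg f (Sh d b x)
    have a3 : 0 ≤ 1 - d * lam x := by linarith
    gcongr <;> linarith
  · obtain ⟨q0, q1⟩ := hq x
    refine (sb_pd_le_D2 _ i j x).trans ((Jst_D2 hB hf.c2 x).trans ?_)
    have a1 := sb_D1_le hM1 (Sh d b x)
    have a0 := hM0 (Sh d b x)
    have a2 := D1_nonneg f (Sh d b x)
    have a4 := D2_nonneg f (Sh d b x)
    have a5 := sb_D2_le hM2 (Sh d b x)
    have a3 : 0 ≤ 1 - d * lam x := by linarith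
    gcongr <;> linarith

theorem sb_Bs_cont {F : Type*} [NormedAddCommGroup F] [NormedSpace ℝ F] {f : E3 → F}
    (hf : ContDiff ℝ 2 f) (p : ℝ) : Continuous (Bs p f) := by
  have h0 := hf.continuous
  have h1 : ∀ i, Continuous (pd i f) := fun i => (cd_pd hf i).continuous
  have h2 : ∀ i j, Continuous (pd i (pd j f)) := fun i j =>
    (contDiff_pd (m := 0) (cd_pd hf j) (by norm_num) i).continuous
  unfold Bs
  fun_prop

theorem sb_Bs_bdd {F : Type*} [NormedAddCommGroup F] [NormedSpace ℝ F] {f : E3 → F}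
    (hf : C2b f) {p : ℝ} (hp : 0 ≤ p) : ∃ C, ∀ x, ‖Bs p f x‖ ≤ C := by
  obtain ⟨M0, hM0⟩ := hf.b0
  obtain ⟨M1, hM1⟩ := hf.b1
  obtain ⟨M2, hM2⟩ := hf.b2
  refine ⟨M0 ^ 2 + p * ∑ _i : Fin 3, M1 ^ 2 + p ^ 2 * ∑ _i : Fin 3, ∑ _j : Fin 3, M2 ^ 2,
    fun x => ?_⟩
  rw [Real.norm_of_nonneg (by unfold Bs; positivity)]
  unfold Bs
  have b1 : ∑ i, ‖pd i f x‖ ^ 2 ≤ ∑ _i : Fin 3, M1 ^ 2 :=
    Finset.sum_le_sum fun i _ => pow_le_pow_left₀ (norm_nonneg _) (hM1 i x) 2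
  have b2 : ∑ i, ∑ j, ‖pd i (pd j f) x‖ ^ 2 ≤ ∑ _i : Fin 3, ∑ _j : Fin 3, M2 ^ 2 :=
    Finset.sum_le_sum fun i _ => Finset.sum_le_sum fun j _ =>
      pow_le_pow_left₀ (norm_nonneg _) (hM2 i j x) 2
  have b0 : ‖f x‖ ^ 2 ≤ M0 ^ 2 := pow_le_pow_left₀ (norm_nonneg _) (hM0 x) 2
  gcongr

/-- Bernstein's method, one step -/
theorem stB : Cl.StB := by
  intro c hc
  refine ⟨kB c, kB_pos hc, (kB_le hc).trans (by norm_num), ?_⟩
  intro κ hκ0 hκ r d Λ b lam hr hd h hdΛ τ hτd hτr f hf x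
  have hτ : 0 < τ := by linarith
  have hJ := sb_c2b_Jst hc hr hd h hdΛ hf
  have hκ2 : κ ≤ 1 / 2 := hκ.trans ((kB_le hc).trans (by norm_num))
  have h1 := sb_step hd hJ hκ0.le hκ2 hτd x
  rw [Qf_eq]
  refine h1.trans ?_
  have hfb : C2b f := ⟨hf.c2, hf.b0, hf.b1, hf.b2⟩
  obtain ⟨C1, hC1⟩ := sb_Bs_bdd hJ (p := κ * τ) (by positivity)
  obtain ⟨C2, hC2⟩ := sb_Bs_bdd hfb (p := κ * τ) (by positivity)
  refine sb_heat_mono hd (sb_Bs_cont hJ.cd _) ?_ hC1 (fun y => hC2 (y - d • b y)) (fun y => ?_) x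
  · have h2 := sb_Bs_cont hf.c2 (κ * τ)
    have h3 := h.cb.continuous
    exact h2.comp (by fun_prop : Continuous fun x => x - d • b x)
  · exact Qf_Jst h hc hr hd.le (hdΛ.trans (by norm_num)) hf.c2 hκ0.le hκ hτ.le hτr y

end Pool.Agent.TF
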