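import Pool.Agent.TF.S.Close6
import Pool.Agent.TF.S.StB

/-!
# Project TF, block S: the sup bounds (helper55)
-/

set_option autoImplicit false

namespace Pool.Agent.TF.Cl

/-- the sup bounds of the scheme -/
theorem stSup_ok (hw : StWord) (hQ : StQ) : StSup := stSup stB stB0 hw hQ

end Pool.Agent.TF.Cl
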