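import Pool.Agent.TP.Lin

/-!
# The bound `Bd` by duality, and its integration along a curve
-/

set_option autoImplicit false

namespace Pool.Agent.TF

open MeasureTheory Set Filter Topology Pool.Agent.TO Pool.Agent.TB Pool.Agent.TC Pool.Agent.TP
open scoped ENNReal NNReal Real InnerProductSpace SchwartzMap LineDeriv

namespace Wo

/-- bounded by one, and zero outside of `S` -/
def In (S : Set E3) (g : V3) : Prop :=
  ∀ᵐ x ∂(volume : Measure E3), ‖g x‖ ≤ S.indicator (fun _ => (1:ℝ)) x

theorem inner_le {S : Set E3} (hS : MeasurableSet S) (hS' : volume S < ⊤) {g f : V3} {A : ℝ}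
    (hg : In S g) (hf : Bd f A) : |⟪g, f⟫_ℝ| ≤ A * (volume S).toReal := by
  rw [L2.inner_def, ← Real.norm_eq_abs]
  have hi : Integrable (S.indicator fun _ => A) (volume : Measure E3) :=
    (integrable_indicator_iff hS).2 (integrableOn_const hS'.ne)
  refine (norm_integral_le_of_norm_le hi ?_).trans (le_of_eq ?_)
  · filter_upwards [hg, hf] with x h1 h2
    refine (norm_inner_le_norm _ _).trans ?_
    by_cases hx : x ∈ S
    · rw [indicator_of_mem hx] at h1 ⊢
      calc ‖(g : E3 → E3) x‖ * ‖(f : E3 → E3) x‖ ≤ 1 * A :=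
            mul_le_mul h1 h2 (norm_nonneg _) zero_le_one
        _ = A := one_mul A
    · rw [indicator_of_notMem hx] at h1 ⊢
      have : ‖(g : E3 → E3) x‖ = 0 := le_antisymm h1 (norm_nonneg _)
      rw [this, zero_mul]
  · rw [integral_indicator hS, setIntegral_const, smul_eq_mul, mul_comm]
    rfl

/-- the bound by duality -/
theorem bd_of_dual {f : V3} {A : ℝ} (h : ∀ S : Set E3, MeasurableSet S → volume S < ⊤ →
    ∀ g : V3, In S g → ⟪g, f⟫_ℝ ≤ A * (volume S).toReal) : Bd f A := by
  have hfm : StronglyMeasurable (f : E3 → E3) := Lp.stronglyMeasurable f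
  have hint : ∀ S : Set E3, MeasurableSet S → volume S < ⊤ →
      IntegrableOn (fun x => ‖(f : E3 → E3) x‖) S volume := by
    intro S hS hS'
    have h1 : MemLp (f : E3 → E3) 2 (volume.restrict S) := (Lp.memLp f).restrict S
    have : IsFiniteMeasure (volume.restrict S) := ⟨by
      rw [Measure.restrict_apply MeasurableSet.univ, univ_inter]; exact hS'⟩
    have h2 : MemLp (f : E3 → E3) 1 (volume.restrict S) := h1.mono_exponent (by norm_num)
    exact (memLp_one_iff_integrable.1 h2).norm
  have key : 0 ≤ᵐ[(volume : Measure E3)] fun x => A - ‖(f : E3 → E3) x‖ := by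
    apply ae_nonneg_of_forall_setIntegral_nonneg_of_sigmaFinite
    · intro S hS hS'
      exact (integrableOn_const hS'.ne).sub (hint S hS hS')
    · intro S hS hS'
      set G : E3 → E3 := S.indicator fun x => ‖(f : E3 → E3) x‖⁻¹ • (f : E3 → E3) x with hG
      have hGm : StronglyMeasurable G :=
        ((hfm.norm.measurable.inv.stronglyMeasurable).smul hfm).indicator hS
      have hGb : ∀ x, ‖G x‖ ≤ S.indicator (fun _ => (1:ℝ)) x := by
        intro x
        by_cases hx : x ∈ S
        · rw [hG, indicator_of_mem hx, indicator_of_mem hx, norm_smul, norm_inv, norm_norm]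
          by_cases h0 : ‖(f : E3 → E3) x‖ = 0
          · rw [h0]; simp
          · rw [inv_mul_cancel₀ h0]
        · rw [hG, indicator_of_notMem hx, indicator_of_notMem hx, norm_zero]
      have hG2 : MemLp G 2 (volume : Measure E3) := by
        have h1 : MemLp (S.indicator fun _ => (1:ℝ)) 2 (volume : Measure E3) :=
          memLp_indicator_const 2 hS 1 (Or.inr hS'.ne)
        refine h1.mono hGm.aestronglyMeasurable (Eventually.of_forall fun x => ?_)
        rw [Real.norm_eq_abs]
        exact (hGb x).trans (le_abs_self _)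
      have hIn : In S hG2.toLp := by
        filter_upwards [hG2.coeFn_toLp] with x hx
        rw [hx]
        exact hGb x
      have h1 := h S hS hS' _ hIn
      have h2 : ⟪(hG2.toLp : V3), f⟫_ℝ = ∫ x in S, ‖(f : E3 → E3) x‖ := by
        rw [L2.inner_def, ← integral_indicator hS]
        apply integral_congr_ae
        filter_upwards [hG2.coeFn_toLp] with x hx
        rw [hx, hG]
        by_cases hxS : x ∈ S
        · rw [indicator_of_mem hxS, indicator_of_mem hxS, real_inner_smul_left,
            real_inner_self_eq_norm_sq]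
          by_cases h0 : ‖(f : E3 → E3) x‖ = 0
          · rw [h0]; simp
          · rw [sq, ← mul_assoc, inv_mul_cancel₀ h0, one_mul]
        · rw [indicator_of_notMem hxS, indicator_of_notMem hxS, inner_zero_left]
      rw [h2] at h1
      have hcA : IntegrableOn (fun _ : E3 => A) S volume := integrableOn_const hS'.ne
      have h3 : ∫ x in S, (A - ‖(f : E3 → E3) x‖) = (∫ _ in S, A) - ∫ x in S, ‖(f : E3 → E3) x‖ :=
        integral_sub hcA (hint S hS hS')
      have h4 : ∫ _ in S, A = A * (volume S).toReal := by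
        rw [setIntegral_const, smul_eq_mul, mul_comm]
        rfl
      rw [h3, h4]
      linarith
  filter_upwards [key] with x hx
  simpa using hx

/-- integration of a bound along a curve -/
theorem bd_int {u u' : ℝ → V3} {Φ φ : ℝ → ℝ} {a b : ℝ} (hab : a ≤ b)
    (hu : ∀ y ∈ Icc a b, HasDerivAt u (u' y) y) (hΦ : ∀ y ∈ Icc a b, HasDerivAt Φ (-φ y) y)
    (hb : ∀ y ∈ Icc a b, Bd (u' y) (φ y)) : Bd (u a - u b) (Φ a - Φ b) := by
  apply bd_of_dual
  intro S hS hS' g hg
  set m := (volume S).toReal with hm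
  have h1 : ∀ y ∈ Icc a b, HasDerivAt (fun y => ⟪g, u a - u y⟫_ℝ) (-⟪g, u' y⟫_ℝ) y := by
    intro y hy
    have := ((hasDerivAt_const y g).inner ℝ ((hasDerivAt_const y (u a)).sub (hu y hy)))
    simpa using this
  have h2 : ∀ y ∈ Icc a b, HasDerivAt (fun y => (Φ a - Φ y) * m) (φ y * m) y := by
    intro y hy
    have := ((hasDerivAt_const y (Φ a)).sub (hΦ y hy)).mul_const m
    simpa using this
  have h3 := image_norm_le_of_norm_deriv_right_le_deriv_boundary'
    (f := fun y => ⟪g, u a - u y⟫_ℝ) (f' := fun y => -⟪g, u' y⟫_ℝ) (a := a) (b := b)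
    (fun y hy => (h1 y hy).continuousAt.continuousWithinAt)
    (fun y hy => (h1 y (Ico_subset_Icc_self hy)).hasDerivWithinAt)
    (B := fun y => (Φ a - Φ y) * m) (B' := fun y => φ y * m) (by simp)
    (fun y hy => (h2 y hy).continuousAt.continuousWithinAt)
    (fun y hy => (h2 y (Ico_subset_Icc_self hy)).hasDerivWithinAt)
    (fun y hy => by
      rw [norm_neg, Real.norm_eq_abs]
      exact inner_le hS hS' hg (hb y (Ico_subset_Icc_self hy)))
  exact (le_abs_self _).trans (h3 (right_mem_Icc.2 hab))

/-- integration of a bound along a curve which tends to zero -/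
theorem bd_top {u u' : ℝ → V3} {Φ φ : ℝ → ℝ} {a : ℝ}
    (hu : ∀ y, a ≤ y → HasDerivAt u (u' y) y) (hΦ : ∀ y, a ≤ y → HasDerivAt Φ (-φ y) y)
    (hb : ∀ y, a ≤ y → Bd (u' y) (φ y)) (h0 : ∀ y, a ≤ y → 0 ≤ Φ y)
    (hl : Tendsto u atTop (𝓝 0)) : Bd (u a) (Φ a) := by
  have h1 : Tendsto (fun n : ℕ => u a - u (a + n)) atTop (𝓝 (u a - 0)) := by
    apply tendsto_const_nhds.sub
    exact hl.comp (tendsto_const_nhds.add_atTop tendsto_natCast_atTop_atTop)
  rw [sub_zero] at h1
  apply bd_of_tendsto h1
  refine Eventually.of_forall fun n => ?_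
  have hn : a ≤ a + (n:ℝ) := by
    have : (0:ℝ) ≤ n := Nat.cast_nonneg n
    linarith
  refine bd_mono (bd_int hn (fun y hy => hu y hy.1) (fun y hy => hΦ y hy.1)
    (fun y hy => hb y hy.1)) ?_
  have := h0 _ hn
  linarith

end Wo

end Pool.Agent.TF
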