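import Pool.Agent.TF.Def
import Pool.Agent.TF.S.Dual

/-!
# Orbits of the Poisson semigroup and words of Riesz transforms
-/

set_option autoImplicit false

namespace Pool.Agent.TF

open MeasureTheory Set Filter Topology Pool.Agent.TO Pool.Agent.TB Pool.Agent.TC Pool.Agent.TP
open scoped ENNReal NNReal Real InnerProductSpace SchwartzMap LineDeriv

namespace Wo

/-- the curve `y ↦ ∂_j P_{y/2} v(y/2)` -/
noncomputable def DV (j : Fin 3) (v : ℝ → V3) (y : ℝ) : V3 := Dp j (y / 2) (v (y / 2))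

/-- iterated derivatives of a curve -/
noncomputable def DL : List (Fin 3) → (ℝ → V3) → ℝ → V3
  | [], v => v
  | i :: L, v => DV i (DL L v)

/-- orbits of the Poisson semigroup -/
def Orb (v : ℝ → V3) : Prop := ∀ s t : ℝ, 0 < s → 0 < t → v (s + t) = Pp s (v t)

variable {v : ℝ → V3} {R : Fin 3 → V3 →L[ℝ] V3}

theorem Pp_Dp (j : Fin 3) (s t : ℝ) (w : V3) : Pp s (Dp j t w) = Dp j t (Pp s w) :=
  cvO_comm _ _ _

theorem orb_Pp (hs : SG) (f : V3) : Orb fun y => Pp y f := fun s t h1 h2 => hs.pp s t h1 h2 f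

theorem Orb.Dp_eq (hs : SG) (hv : Orb v) (j : Fin 3) {s t : ℝ} (h1 : 0 < s) (h2 : 0 < t) :
    Dp j s (v t) = DV j v (s + t) := by
  unfold DV
  set m := (s + t) / 2 with hm
  have hm0 : 0 < m := by positivity
  rcases lt_trichotomy s m with h | h | h
  · have e1 : t = (t - m) + m := by ring
    have h3 : 0 < t - m := by linarith
    have e2 : v t = Pp (t - m) (v m) := by
      have := hv (t - m) m h3 hm0
      rwa [← e1] at this
    rw [e2, ← hs.dp j s (t - m) h1 h3]
    congr 2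
    linarith
  · have e1 : t = m := by linarith
    rw [← h, ← h] at *
    rw [e1, ← h]
  · have h3 : 0 < s - m := by linarith
    have e2 : Dp j s (v t) = Dp j m (Pp (s - m) (v t)) := by
      rw [← hs.dp j m (s - m) hm0 h3]
      congr 2
      ring
    rw [e2, ← hv (s - m) t h3 h2]
    congr 2
    linarith

theorem Orb.DV (hs : SG) (hv : Orb v) (j : Fin 3) : Orb (DV j v) := by
  intro s t h1 h2
  have e : Pp s (Wo.DV j v t) = Dp j (t / 2) (v (s + t / 2)) := by
    rw [hv s (t / 2) h1 (by positivity)]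
    exact Pp_Dp _ _ _ _
  rw [e, hv.Dp_eq hs j (by positivity) (by positivity)]
  congr 1
  ring

theorem Orb.DL (hs : SG) (hv : Orb v) : ∀ L : List (Fin 3), Orb (DL L v)
  | [] => hv
  | i :: L => (Orb.DL hs hv L).DV hs i

theorem Orb.ti {T : V3 →L[ℝ] V3} (hT : TI T) (hv : Orb v) : Orb fun y => T (v y) := by
  intro s t h1 h2
  show T (v (s + t)) = Pp s (T (v t))
  rw [hv s t h1 h2]
  exact hT.cvO _ _

theorem DV_ti {T : V3 →L[ℝ] V3} (hT : TI T) (j : Fin 3) (v : ℝ → V3) :
    DV j (fun y => T (v y)) = fun y => T (DV j v y) := by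
  ext1 y
  exact (hT.cvO _ _).symm

theorem DL_ti {T : V3 →L[ℝ] V3} (hT : TI T) (v : ℝ → V3) :
    ∀ L : List (Fin 3), DL L (fun y => T (v y)) = fun y => T (DL L v y)
  | [] => rfl
  | i :: L => by
    show DV i (DL L fun y => T (v y)) = _
    rw [DL_ti hT v L]
    exact DV_ti hT i _

theorem Orb.lim (hs : SG) (hv : Orb v) : Tendsto v atTop (𝓝 0) := by
  have h1 : Tendsto (fun y : ℝ => Pp (y - 1) (v 1)) atTop (𝓝 0) :=
    (hs.lim (v 1)).comp (tendsto_atTop_add_const_right atTop (-1) tendsto_id)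
  refine h1.congr' ?_
  filter_upwards [eventually_gt_atTop 1] with y hy
  have := hv (y - 1) 1 (by linarith) one_pos
  rw [sub_add_cancel] at this
  exact this.symm

theorem Orb.deriv (hv : Orb v) {y : ℝ} (hy : 0 < y) :
    HasDerivAt v (Yp (y / 2) (v (y / 2))) y := by
  have h0 : 0 < y / 2 := by positivity
  have h1 : HasDerivAt (fun s => Pp s (v (y / 2))) (Yp (y / 2) (v (y / 2))) (y - y / 2) := by
    rw [sub_half]
    exact deriv_Pp h0 (v (y / 2))
  have h2 : HasDerivAt (fun s : ℝ => s - y / 2) 1 y := (hasDerivAt_id y).sub_const _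
  have h3 := h1.scomp y h2
  rw [one_smul] at h3
  refine h3.congr_of_eventuallyEq ?_
  filter_upwards [lt_mem_nhds (show y / 2 < y by linarith)] with s hs
  have := hv (s - y / 2) (y / 2) (by linarith) h0
  rw [sub_add_cancel] at this
  rw [this]
  rfl

theorem Orb.derivR (hR : RZ R) (hv : Orb v) (j : Fin 3) {y : ℝ} (hy : 0 < y) :
    HasDerivAt (fun y => R j (v y)) (-Wo.DV j v y) y := by
  have h1 := ((R j).hasFDerivAt (x := v y)).comp_hasDerivAt y (hv.deriv hy)
  have e : (R j) (Yp (y / 2) (v (y / 2))) = -Wo.DV j v y := by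
    have h2 : (R j) (Yp (y / 2) (v (y / 2))) = Yp (y / 2) (R j (v (y / 2))) := (hR.ti j).cvO _ _
    rw [h2, hR.yp j _ (by positivity)]
    rfl
  rw [e] at h1
  exact h1

theorem ti_Wd (hR : RZ R) : ∀ W : List (Fin 3), TI (Wd R W)
  | [] => fun _ _ => rfl
  | j :: W => (hR.ti j).comp (ti_Wd hR W)

/-- the constants -/
noncomputable def kc : ℕ → ℝ
  | 0 => 1
  | n + 1 => 8 * 2 ^ n * kc n

theorem kc_pos : ∀ n, 0 < kc n
  | 0 => one_pos
  | n + 1 => by
    have := kc_pos n
    show 0 < 8 * 2 ^ n * kc n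
    positivity

/-- decay of the derivatives of an orbit -/
def Far (c : ℝ) (m : ℕ) (v : ℝ → V3) : Prop := ∀ L : List (Fin 3), L ≠ [] → ∀ y : ℝ, 0 < y →
  Bd (DL L v y) (c * kc (L.length + m) * (y ^ L.length)⁻¹)

theorem bd_DL_Pp {f : V3} {A : ℝ} (hA : 0 ≤ A) (hf : Bd f A) :
    ∀ (L : List (Fin 3)) (y : ℝ), 0 < y →
      Bd (DL L (fun y => Pp y f) y) (A * kc L.length * (y ^ L.length)⁻¹)
  | [], y, hy => by
    have := bd_Pp hy hA hf
    simpa [DL, kc] using this
  | i :: L, y, hy => by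
    have h0 : 0 < y / 2 := by positivity
    have h1 := bd_DL_Pp hA hf L (y / 2) h0
    have hk := kc_pos L.length
    have h2 := bd_Dp i h0 (by positivity) h1
    refine bd_mono h2 (le_of_eq ?_)
    show 4 / (y / 2) * (A * kc L.length * ((y / 2) ^ L.length)⁻¹) =
      A * (8 * 2 ^ L.length * kc L.length) * (y ^ (L.length + 1))⁻¹
    rw [div_pow, pow_succ]
    field_simp
    ring

theorem far_Pp {f : V3} {A : ℝ} (hA : 0 ≤ A) (hf : Bd f A) : Far A 0 fun y => Pp y f :=
  fun L _ y hy => bd_DL_Pp hA hf L y hy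

theorem hasDerivAt_inv_pow {y : ℝ} (hy : 0 < y) (n : ℕ) (c : ℝ) :
    HasDerivAt (fun y : ℝ => c / (n + 1) * (y ^ (n + 1))⁻¹) (-(c * (y ^ (n + 1 + 1))⁻¹)) y := by
  have h1 : y ^ (n + 1) ≠ 0 := by positivity
  have h := ((hasDerivAt_pow (n + 1) y).inv h1).const_mul (c / (n + 1))
  refine h.congr_deriv ?_
  have h2 : ((n : ℝ) + 1) ≠ 0 := by positivity
  push_cast
  field_simp
  ring

theorem far_R (hs : SG) (hR : RZ R) (hv : Orb v) {c : ℝ} {m : ℕ} (hc : 0 ≤ c) (h : Far c m v)
    (j : Fin 3) : Far c (m + 1) fun y => R j (v y) := by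
  intro L hL y hy
  rw [DL_ti (hR.ti j)]
  obtain ⟨n, hn⟩ : ∃ n, L.length = n + 1 := ⟨L.length - 1, by
    have := List.length_pos_iff.2 hL
    omega⟩
  have hw : Orb (DL L v) := hv.DL hs L
  have hk := kc_pos (L.length + (m + 1))
  set κ := c * kc (L.length + (m + 1)) with hκ
  have hκ0 : 0 ≤ κ := by positivity
  have key := bd_top (u := fun y => R j (DL L v y)) (u' := fun y => -DV j (DL L v) y)
    (Φ := fun y => κ / (n + 1) * (y ^ (n + 1))⁻¹) (φ := fun y => κ * (y ^ (n + 1 + 1))⁻¹) (a := y)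
    (fun z hz => hw.derivR hR j (hy.trans_le hz))
    (fun z hz => hasDerivAt_inv_pow (hy.trans_le hz) n κ)
    (fun z hz => by
      have h1 := h (j :: L) (by simp) z (hy.trans_le hz)
      refine bd_neg (bd_mono h1 (le_of_eq ?_))
      have e1 : (j :: L).length + m = L.length + (m + 1) := by rw [List.length_cons]; omega
      have e2 : (j :: L).length = n + 1 + 1 := by rw [List.length_cons, hn]
      rw [e1, e2])
    (fun z hz => by
      have : 0 < z := hy.trans_le hz
      positivity)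
    (by
      have := ((R j).continuous.tendsto 0).comp (hw.lim hs)
      rw [map_zero] at this
      exact this)
  refine bd_mono key ?_
  rw [hn]
  apply mul_le_mul_of_nonneg_right _ (by positivity)
  apply div_le_self hκ0
  have : (0:ℝ) ≤ n := Nat.cast_nonneg n
  linarith

theorem far_Wd (hs : SG) (hR : RZ R) (hv : Orb v) {c : ℝ} (hc : 0 ≤ c) (h : Far c 0 v) :
    ∀ W : List (Fin 3), Far c W.length fun y => Wd R W (v y)
  | [] => h
  | j :: W => far_R hs hR (hv.ti (ti_Wd hR W)) hc (far_Wd hs hR hv hc h W) j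

end Wo

end Pool.Agent.TF
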