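import Pool.Agent.TF.Flow
import Pool.Agent.TF.S.Orb

/-!
# Sup bounds of `W ∂_k f`, `W` a word of Riesz transforms
-/

set_option autoImplicit false

namespace Pool.Agent.TF

open MeasureTheory Set Filter Topology Pool.Agent.TO Pool.Agent.TB Pool.Agent.TC Pool.Agent.TP
open scoped ENNReal NNReal Real InnerProductSpace SchwartzMap LineDeriv

namespace Wo

variable {v : ℝ → V3} {R : Fin 3 → V3 →L[ℝ] V3}

/-! ### nice functions -/

theorem coe_vL {f : E3 → E3} (h : MemLp f 2 (volume : Measure E3)) : vL f = h.toLp := by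
  rw [vL, dif_pos h]

theorem bd_vL {f : E3 → E3} (h : MemLp f 2 (volume : Measure E3)) {A : ℝ} (hA : ∀ x, ‖f x‖ ≤ A) :
    Bd (vL f) A := by
  rw [coe_vL h]
  unfold Bd
  filter_upwards [h.coeFn_toLp] with x hx
  rw [hx]
  exact hA x

theorem line_pd {f : E3 → E3} (hf : Differentiable ℝ f) (k : Fin 3) (x : E3) :
    HasLineDerivAt ℝ f (pd k f x) x (ee k) :=
  (hf x).hasFDerivAt.hasLineDerivAt (ee k)

theorem weak_vL {f : E3 → E3} (hf : Differentiable ℝ f) (h : MemLp f 2 (volume : Measure E3))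
    (k : Fin 3) (h' : MemLp (pd k f) 2 (volume : Measure E3)) :
    IsWeakDeriv k (vL f) (vL (pd k f)) := by
  rw [coe_vL h, coe_vL h']
  exact weak_of_line h h' (line_pd hf k)

theorem contDiff_pd {f : E3 → E3} (hf : ContDiff ℝ 2 f) (k : Fin 3) : ContDiff ℝ 1 (pd k f) :=
  (hf.fderiv_right (m := 1) (by norm_num)).clm_apply contDiff_const

/-- the derivative falls on the function -/
theorem Dp_of_weak {y : ℝ} (hy : 0 < y) {k : Fin 3} {f g : V3} (h : IsWeakDeriv k f g) :
    Dp k y f = Pp y g :=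
  weak_unique (weak_Pp k hy f) (weak_cvO (pk y) h)

/-- the inequality between the sup norms of the derivatives -/
theorem landau {f : E3 → E3} (hf : ContDiff ℝ 2 f) {A B : ℝ} (hA : ∀ x, ‖f x‖ ≤ A) (k : Fin 3)
    (hB : ∀ x, ‖pd k (pd k f) x‖ ≤ B) {τ : ℝ} (hτ : 0 < τ) (x : E3) :
    ‖pd k f x‖ ≤ 2 * A / τ + B * τ := by
  have hd : Differentiable ℝ f := hf.differentiable (by norm_num)
  have hd' : Differentiable ℝ (pd k f) :=
    (contDiff_pd hf k).differentiable (by norm_num)
  have hB0 : 0 ≤ B := (norm_nonneg _).trans (hB x)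
  have hline : ∀ t : ℝ, HasDerivAt (fun t : ℝ => x + t • ee k) (ee k) t := fun t => by
    have := ((hasDerivAt_id t).smul_const (ee k)).const_add x
    simpa using this
  have hg : ∀ t : ℝ, HasDerivAt (fun t : ℝ => f (x + t • ee k)) (pd k f (x + t • ee k)) t :=
    fun t => (hd (x + t • ee k)).hasFDerivAt.comp_hasDerivAt t (hline t)
  have hg' : ∀ t : ℝ, HasDerivAt (fun t : ℝ => pd k f (x + t • ee k))
      (pd k (pd k f) (x + t • ee k)) t :=
    fun t => HasFDerivAt.comp_hasDerivAt (l := pd k f) t (hd' (x + t • ee k)).hasFDerivAt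
      (hline t)
  have h1 : ∀ t ∈ Icc 0 τ, ‖pd k f (x + t • ee k) - pd k f x‖ ≤ B * τ := by
    intro t ht
    have h := (convex_Icc 0 τ).norm_image_sub_le_of_norm_hasDerivWithin_le
      (f := fun t : ℝ => pd k f (x + t • ee k)) (f' := fun t => pd k (pd k f) (x + t • ee k))
      (C := B) (x := 0) (y := t) (fun s _ => (hg' s).hasDerivWithinAt) (fun s _ => hB _)
      (left_mem_Icc.2 hτ.le) ht
    simp only [zero_smul, add_zero, sub_zero, Real.norm_eq_abs] at h
    refine h.trans (mul_le_mul_of_nonneg_left ?_ hB0)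
    rw [abs_of_nonneg ht.1]
    exact ht.2
  have h2 := (convex_Icc 0 τ).norm_image_sub_le_of_norm_hasDerivWithin_le
    (f := fun t : ℝ => f (x + t • ee k) - t • pd k f x)
    (f' := fun t => pd k f (x + t • ee k) - pd k f x) (C := B * τ) (x := 0) (y := τ)
    (fun s _ => by
      have h3 : HasDerivAt (fun t : ℝ => t • pd k f x) (pd k f x) s := by
        have := (hasDerivAt_id s).smul_const (pd k f x)
        simpa using this
      exact ((hg s).sub h3).hasDerivWithinAt) h1 (left_mem_Icc.2 hτ.le) (right_mem_Icc.2 hτ.le)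
  simp only [zero_smul, add_zero, sub_zero, Real.norm_eq_abs, abs_of_pos hτ] at h2
  have h4 : ‖τ • pd k f x‖ ≤ A + A + B * τ * τ := by
    have e : τ • pd k f x = f (x + τ • ee k) - f x - (f (x + τ • ee k) - τ • pd k f x - f x) := by
      abel
    rw [e]
    exact (norm_sub_le _ _).trans (add_le_add ((norm_sub_le _ _).trans
      (add_le_add (hA _) (hA _))) h2)
  rw [norm_smul, Real.norm_eq_abs, abs_of_pos hτ] at h4
  have h5 : ‖pd k f x‖ ≤ (A + A + B * τ * τ) / τ := by
    rw [le_div_iff₀ hτ, mul_comm]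
    exact h4
  refine h5.trans (le_of_eq ?_)
  field_simp
  ring

/-! ### the near part -/

theorem hasDerivAt_inv_sqrt {y : ℝ} (hy : 0 < y) (c : ℝ) :
    HasDerivAt (fun y : ℝ => 2 * c * (√y)⁻¹) (-(c * ((√y)⁻¹ * y⁻¹))) y := by
  have h0 : √y ≠ 0 := (Real.sqrt_pos.2 hy).ne'
  have h := ((Real.hasDerivAt_sqrt hy.ne').inv h0).const_mul (2 * c)
  refine h.congr_deriv ?_
  have e : y = √y ^ 2 := (Real.sq_sqrt hy.le).symm
  have e2 : y⁻¹ = (√y ^ 2)⁻¹ := by rw [← e]
  rw [e2]
  field_simp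

theorem near (hs : SG) (hR : RZ R) {h g : V3} {j k : Fin 3} {A B τ : ℝ} (hA : 0 ≤ A) (hB : 0 ≤ B)
    (hg : Bd g A) (hh : Bd h B) (hτ : 0 < τ)
    (hrel : ∀ y : ℝ, 0 < y → Pp y h = DL [j, k] (fun y => Pp y g) y) (W : List (Fin 3)) (s : ℝ)
    (h0 : 0 < s) (hsτ : s ≤ τ) :
    Bd (Wd R W (Pp s h)) (2 * kc W.length * (B * (√τ * (√s)⁻¹)) +
      kc (W.length + 2) * (A * (τ ^ 2)⁻¹)) := by
  have hss : 0 < √s := Real.sqrt_pos.2 h0
  have h1 : 1 ≤ √τ * (√s)⁻¹ := by
    rw [← div_eq_mul_inv, le_div_iff₀ hss, one_mul]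
    exact Real.sqrt_le_sqrt hsτ
  have hk2 := kc_pos (W.length + 2)
  rcases W with _ | ⟨i, W⟩
  · refine bd_mono (bd_Pp h0 hB hh) ?_
    have h2 : B * 1 ≤ B * (√τ * (√s)⁻¹) := mul_le_mul_of_nonneg_left h1 hB
    have h3 : 0 ≤ kc (([] : List (Fin 3)).length + 2) * (A * (τ ^ 2)⁻¹) := by positivity
    have h4 : kc ([] : List (Fin 3)).length = 1 := rfl
    rw [h4]
    nlinarith
  · have hfar : Far B W.length fun y => Wd R W (Pp y h) :=
      far_Wd hs hR (orb_Pp hs h) hB (far_Pp hB hh) W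
    have horb : Orb fun y => Wd R W (Pp y h) := (orb_Pp hs h).ti (ti_Wd hR W)
    have hk := kc_pos (1 + W.length)
    have key := bd_int (u := fun y => R i (Wd R W (Pp y h)))
      (u' := fun y => -DV i (fun y => Wd R W (Pp y h)) y)
      (Φ := fun y => 2 * (B * kc (1 + W.length) * √τ) * (√y)⁻¹)
      (φ := fun y => B * kc (1 + W.length) * √τ * ((√y)⁻¹ * y⁻¹)) hsτ
      (fun y hy => horb.derivR hR i (h0.trans_le hy.1))
      (fun y hy => hasDerivAt_inv_sqrt (h0.trans_le hy.1) _)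
      (fun y hy => by
        have hy0 : 0 < y := h0.trans_le hy.1
        have hys : 0 < √y := Real.sqrt_pos.2 hy0
        have h2 := hfar [i] (by simp) y hy0
        refine bd_neg (bd_mono h2 ?_)
        have h3 : 1 ≤ √τ * (√y)⁻¹ := by
          rw [← div_eq_mul_inv, le_div_iff₀ hys, one_mul]
          exact Real.sqrt_le_sqrt hy.2
        have h4 : (y ^ ([i] : List (Fin 3)).length)⁻¹ = y⁻¹ := by simp
        have h5 : ([i] : List (Fin 3)).length = 1 := rfl
        rw [h4, h5]
        calc B * kc (1 + W.length) * y⁻¹ = B * kc (1 + W.length) * y⁻¹ * 1 := (mul_one _).symm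
          _ ≤ B * kc (1 + W.length) * y⁻¹ * (√τ * (√y)⁻¹) :=
              mul_le_mul_of_nonneg_left h3 (by positivity)
          _ = _ := by ring)
    have h2 : Bd (R i (Wd R W (Pp τ h))) (A * kc (2 + (i :: W).length) * (τ ^ 2)⁻¹) := by
      rw [hrel τ hτ]
      have h3 := far_Wd hs hR (orb_Pp hs g) hA (far_Pp hA hg) (i :: W) [j, k] (by simp) τ hτ
      rw [DL_ti (ti_Wd hR (i :: W))] at h3
      exact h3
    have h3 := bd_add key h2
    have e : R i (Wd R W (Pp s h)) - R i (Wd R W (Pp τ h)) + R i (Wd R W (Pp τ h)) =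
        Wd R (i :: W) (Pp s h) := by
      rw [sub_add_cancel]
      rfl
    rw [e] at h3
    refine bd_mono h3 ?_
    have h4 : 0 ≤ 2 * (B * kc (1 + W.length) * √τ) * (√τ)⁻¹ := by positivity
    have e1 : (i :: W).length = 1 + W.length := by rw [List.length_cons, add_comm]
    have e2 : 2 + (1 + W.length) = 1 + W.length + 2 := by omega
    rw [e1, e2]
    linarith

/-- the case of a non-empty word -/
theorem word_pos (hs : SG) (hR : RZ R) {f : E3 → E3} (hf : Nc f) {A B τ : ℝ}
    (hA : ∀ x, ‖f x‖ ≤ A) (hB : ∀ i j x, ‖pd i (pd j f) x‖ ≤ B) (hτ : 0 < τ) (k i : Fin 3)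
    (W : List (Fin 3)) : Bd (Wd R (i :: W) (vL (pd k f)))
      ((4 * kc W.length + 2 * kc (W.length + 2)) * (τ * B + A / τ)) := by
  have hA0 : 0 ≤ A := (norm_nonneg _).trans (hA 0)
  have hB0 : 0 ≤ B := (norm_nonneg _).trans (hB i i 0)
  have hd : Differentiable ℝ f := hf.c2.differentiable (by norm_num)
  have hd' : Differentiable ℝ (pd k f) :=
    (contDiff_pd hf.c2 k).differentiable (by norm_num)
  have w1 : IsWeakDeriv k (vL f) (vL (pd k f)) := weak_vL hd hf.m0 k (hf.m1 k)
  have w2 : IsWeakDeriv i (vL (pd k f)) (vL (pd i (pd k f))) := weak_vL hd' (hf.m1 k) i (hf.m2 i k)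
  have b0 : Bd (vL f) A := bd_vL hf.m0 hA
  have b2 : Bd (vL (pd i (pd k f))) B := bd_vL (hf.m2 i k) (hB i k)
  set g0 := vL f with hg0
  set g1 := vL (pd k f) with hg1
  set h := vL (pd i (pd k f)) with hh
  have e1 : ∀ y : ℝ, 0 < y → Pp y g1 = DV k (fun y => Pp y g0) y := by
    intro y hy
    rw [← Dp_of_weak hy w1]
    show _ = Dp k (y / 2) (Pp (y / 2) g0)
    rw [← hs.dp k _ _ (by positivity) (by positivity), add_halves]
  have e2 : ∀ y : ℝ, 0 < y → Pp y h = DV i (fun y => Pp y g1) y := by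
    intro y hy
    rw [← Dp_of_weak hy w2]
    show _ = Dp i (y / 2) (Pp (y / 2) g1)
    rw [← hs.dp i _ _ (by positivity) (by positivity), add_halves]
  have e3 : ∀ y : ℝ, 0 < y → Pp y h = DL [i, k] (fun y => Pp y g0) y := by
    intro y hy
    rw [e2 y hy]
    show Dp i (y / 2) (Pp (y / 2) g1) = Dp i (y / 2) (DV k (fun y => Pp y g0) (y / 2))
    rw [e1 _ (by positivity)]
  have hk := kc_pos W.length
  have hk1 := kc_pos (W.length + 1)
  have hk2 := kc_pos (W.length + 2)
  have horb : Orb fun y => Wd R W (Pp y g1) := (orb_Pp hs g1).ti (ti_Wd hR W)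
  set c1 := 2 * kc W.length * B with hc1
  set c2 := kc (W.length + 2) * (A * (τ ^ 2)⁻¹) with hc2
  have hc10 : 0 ≤ c1 := by positivity
  have hc20 : 0 ≤ c2 := by positivity
  have main : ∀ y : ℝ, 0 < y → y ≤ τ → Bd (R i (Wd R W (Pp y g1)))
      ((4 * kc W.length + 2 * kc (W.length + 2)) * (τ * B + A / τ)) := by
    intro y hy hyτ
    have key := bd_int (u := fun y => R i (Wd R W (Pp y g1)))
      (u' := fun y => -DV i (fun y => Wd R W (Pp y g1)) y)
      (Φ := fun y => -(2 * (c1 * √τ) * √y + c2 * y))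
      (φ := fun y => c1 * √τ * (√y)⁻¹ + c2) hyτ
      (fun z hz => horb.derivR hR i (hy.trans_le hz.1))
      (fun z hz => by
        have hz0 : 0 < z := hy.trans_le hz.1
        have hzs : √z ≠ 0 := (Real.sqrt_pos.2 hz0).ne'
        have h1 := (((Real.hasDerivAt_sqrt hz0.ne').const_mul (2 * (c1 * √τ))).add
          ((hasDerivAt_id z).const_mul c2)).neg
        refine h1.congr_deriv ?_
        field_simp)
      (fun z hz => by
        have hz0 : 0 < z := hy.trans_le hz.1
        have h1 := near hs hR hA0 hB0 b0 b2 hτ e3 W z hz0 hz.2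
        rw [DV_ti (ti_Wd hR W)]
        show Bd (-(Wd R W) (DV i (fun y => Pp y g1) z)) _
        rw [← e2 z hz0]
        refine bd_neg (bd_mono h1 (le_of_eq ?_))
        rw [hc1, hc2]
        ring)
    have h2 : Bd (R i (Wd R W (Pp τ g1))) (A * kc (1 + (i :: W).length) * (τ ^ 1)⁻¹) := by
      rw [e1 τ hτ]
      have h3 := far_Wd hs hR (orb_Pp hs g0) hA0 (far_Pp hA0 b0) (i :: W) [k] (by simp) τ hτ
      rw [DL_ti (ti_Wd hR (i :: W))] at h3
      exact h3
    have h3 := bd_add key h2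
    have e : R i (Wd R W (Pp y g1)) - R i (Wd R W (Pp τ g1)) + R i (Wd R W (Pp τ g1)) =
        R i (Wd R W (Pp y g1)) := sub_add_cancel _ _
    rw [e] at h3
    refine bd_mono h3 ?_
    have e4 : 1 + (i :: W).length = W.length + 2 := by rw [List.length_cons]; omega
    have e5 : √τ * √τ = τ := Real.mul_self_sqrt hτ.le
    have h5 : 0 ≤ 2 * (c1 * √τ) * √y + c2 * y := by positivity
    have e6 : c2 * τ = kc (W.length + 2) * (A / τ) := by
      rw [hc2]
      field_simp
    have e7 : 2 * (c1 * √τ) * √τ = 4 * kc W.length * (τ * B) := by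
      rw [hc1]
      calc 2 * (2 * kc W.length * B * √τ) * √τ = 4 * kc W.length * B * (√τ * √τ) := by ring
        _ = _ := by rw [e5]; ring
    rw [e4, pow_one]
    have h6 : A * kc (W.length + 2) * τ⁻¹ = kc (W.length + 2) * (A / τ) := by
      rw [div_eq_mul_inv]; ring
    rw [h6]
    have h7 : 0 ≤ A / τ := by positivity
    have h8 : 0 ≤ τ * B := by positivity
    have h9 : 0 ≤ kc W.length * (A / τ) := by positivity
    have h10 : 0 ≤ kc (W.length + 2) * (τ * B) := by positivity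
    nlinarith
  have hlim : Tendsto (fun n : ℕ => R i (Wd R W (Pp (τ / (n + 1)) g1))) atTop
      (𝓝 (R i (Wd R W g1))) := by
    have h1 : Tendsto (fun n : ℕ => τ / ((n:ℝ) + 1)) atTop (𝓝[>] 0) := by
      rw [tendsto_nhdsWithin_iff]
      refine ⟨?_, Eventually.of_forall fun n => ?_⟩
      · have := tendsto_one_div_add_atTop_nhds_zero_nat.const_mul τ
        rw [mul_zero] at this
        refine this.congr fun n => ?_
        rw [mul_one_div]
      · show 0 < τ / ((n:ℝ) + 1)
        positivity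
    have h2 := (tendsto_Pp_zero g1).comp h1
    exact (((R i).continuous.comp (Wd R W).continuous).tendsto g1).comp h2
  refine bd_of_tendsto hlim (Eventually.of_forall fun n => main _ (by positivity) ?_)
  apply div_le_self hτ.le
  have : (0:ℝ) ≤ n := Nat.cast_nonneg n
  linarith

end Wo

theorem stWord (hs : SG) : StWord := by
  intro W
  rcases W with _ | ⟨i, W⟩
  · refine ⟨2, two_pos, fun R _ k f A B hf hA hB τ hτ => ?_⟩
    refine bd_mono (Wo.bd_vL (hf.m1 k) (fun x => Wo.landau hf.c2 hA k (hB k k) hτ x)) ?_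
    have hB0 : 0 ≤ B := (norm_nonneg _).trans (hB k k 0)
    have : 0 ≤ τ * B := by positivity
    have e : 2 * A / τ = 2 * (A / τ) := by ring
    rw [e]
    linarith
  · have hk := Wo.kc_pos W.length
    have hk2 := Wo.kc_pos (W.length + 2)
    exact ⟨4 * Wo.kc W.length + 2 * Wo.kc (W.length + 2), by positivity,
      fun R hR k f A B hf hA hB τ hτ => Wo.word_pos hs hR hf hA hB hτ k i W⟩

end Pool.Agent.TF
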