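import Pool.Agent.TF.Flow

/-!
# Project TF, block S: the interface between the two halves of block S (helper55)
-/

set_option autoImplicit false

namespace Pool.Agent.TF

open MeasureTheory Set Filter Topology Pool.Agent.TO Pool.Agent.TB Pool.Agent.TC Pool.Agent.TP
open scoped ENNReal NNReal Real InnerProductSpace SchwartzMap LineDeriv

/-- the situation of the scheme at the step `K`: everything known before the bound of `h_K` -/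
structure Sit (c Ci CB C₁ A L s Λ η d : ℝ) (R : Fin 3 → V3 →L[ℝ] V3) (K : ℕ) (σ : ℕ → Sta)
    (b : ℕ → E3 → E3) (lam : ℕ → E3 → ℝ) : Prop where
  ini : Ini Ci A L s (σ 0)
  run : Run c Λ s d η R K σ b lam
  g0 : ∀ k ≤ K, ∀ i j x, ‖(σ k).g i j x‖ ≤ A
  h0 : ∀ k ≤ K, ∀ j x, ‖(σ k).h j x‖ ≤ 2 * A
  hb : ∀ k < K, Bd (Hh R (σ k)) (CB * A / √(tk s d k))
  dv : ∀ k ≤ K, SupS1 (C₁ * A / √(tk s d k)) (σ k)

/-- (S2), the output of the dual density, the Fisher information and the weighted energy: the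
average of `h_K` on the scale `ϑ √t_K` is at most `CQ A² + A / 8` -/
def StQ : Prop := ∀ c > 0, ∀ Ci > 0, ∀ CB > 0, ∀ C₁ > 0, ∀ ϑ : ℝ, 0 < ϑ → ϑ ≤ 1 →
  ∃ CQ > 0, ∃ A₀ > 0, ∀ A : ℝ, 0 < A → A ≤ A₀ → ∀ L > 0,
  ∃ T₁ > 0, T₁ ≤ 1 ∧ ∀ s : ℝ, 0 < s → s < T₁ → ∀ Λ > 0, ∃ η₁ > 0, ∀ η : ℝ, 0 < η → η < η₁ →
  ∃ d₁ > 0, ∀ d : ℝ, 0 < d → d < d₁ → ∀ R, RZ R → ∀ (K : ℕ) σ b lam, tk s d K ≤ T₁ →
  Sit c Ci CB C₁ A L s Λ η d R K σ b lam →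
  ∀ j x, ‖cvf (et0 (ϑ * √(tk s d K))) ((σ K).h j) x‖ ≤ CQ * A ^ 2 + A / 8

end Pool.Agent.TF
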