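import Pool.Agent.TF.S.Close1

/-!
# Project TF, block S: the propagator, Duhamel's formula (helper55)
-/

set_option autoImplicit false

namespace Pool.Agent.TF.Cl

open MeasureTheory Set Filter Topology Pool.Agent.TO Pool.Agent.TB Pool.Agent.TC Pool.Agent.TP
open scoped ENNReal NNReal Real InnerProductSpace SchwartzMap LineDeriv

section step

variable {f g : E3 → E3} {M d c r Λ κ τ : ℝ} {b : E3 → E3} {lam : E3 → ℝ}

/-- the functional is bounded and continuous -/
theorem cont_Qf (hf : ContDiff ℝ 2 f) : Continuous (Qf κ τ f) := by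
  have h1 := hf.continuous
  have h2 : ∀ i, Continuous (pd i f) := fun i => (cd_pd hf i).continuous
  have h3 : ∀ i j, Continuous (pd i (pd j f)) := fun i j =>
    (contDiff_pd (m := 0) (cd_pd hf j) (by norm_num) i).continuous
  unfold Qf
  fun_prop

/-- one step, in sup form -/
theorem Qf_step {κ₀ : ℝ} (hκ0 : 0 < κ) (hκ : κ ≤ κ₀)
    (hB : ∀ κ' : ℝ, 0 < κ' → κ' ≤ κ₀ →
      ∀ (r d Λ : ℝ) (b : E3 → E3) (lam : E3 → ℝ), 0 < r → 0 < d → Coef c r Λ b lam →
      d * Λ ≤ 1 / 4 → ∀ τ : ℝ, d ≤ 2 * τ → τ ≤ r ^ 2 → ∀ f, Nc f → ∀ x,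
      Qf κ' (τ + d) (heat d (Jst d b lam f)) x ≤ heat d (fun x => Qf κ' τ f (x - d • b x)) x)
    (hr : 0 < r) (hd : 0 < d) (hC : Coef c r Λ b lam) (hdΛ : d * Λ ≤ 1 / 4)
    (hτ : d ≤ 2 * τ) (hτr : τ ≤ r ^ 2) (hf : Nc f) (hM : ∀ x, Qf κ τ f x ≤ M ^ 2) (x : E3) :
    Qf κ (τ + d) (heat d (Jst d b lam f)) x ≤ M ^ 2 := by
  refine (hB κ hκ0 hκ r d Λ b lam hr hd hC hdΛ τ hτ hτr f hf x).trans ?_
  exact heat_le_const hd (fun y => Qf_nonneg hκ0.le (by linarith) f _) (fun y => hM _) x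

theorem Jst_add (f g : E3 → E3) (x : E3) :
    Jst d b lam (fun y => f y + g y) x = Jst d b lam f x + Jst d b lam g x := by
  unfold Jst
  rw [smul_add]

theorem Jst_smul (a : ℝ) (f : E3 → E3) (x : E3) :
    Jst d b lam (fun y => a • f y) x = a • Jst d b lam f x := by
  unfold Jst
  rw [smul_comm]

theorem stp_add (hd : 0 < d) (hC : Coef c r Λ b lam) (hdΛ : d * Λ ≤ 1 / 4) (hf : Nc f)
    (hg : Nc g) (x : E3) : heat d (Jst d b lam (fun y => f y + g y)) x =
      heat d (Jst d b lam f) x + heat d (Jst d b lam g) x := by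
  obtain ⟨C1, h1⟩ := hf.b0
  obtain ⟨C2, h2⟩ := hg.b0
  have e : Jst d b lam (fun y => f y + g y) = fun x => Jst d b lam f x + Jst d b lam g x :=
    funext fun x => Jst_add f g x
  rw [e]
  exact heat_add_fun hd (cont_Jst hC (nc_cont hf)) ⟨C1, norm_Jst_le hC hd.le hdΛ h1⟩
    (cont_Jst hC (nc_cont hg)) ⟨C2, norm_Jst_le hC hd.le hdΛ h2⟩ x

theorem stp_smul (hd : 0 < d) (a : ℝ) (x : E3) : heat d (Jst d b lam (fun y => a • f y)) x =
    a • heat d (Jst d b lam f) x := by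
  have e : Jst d b lam (fun y => a • f y) = fun x => a • Jst d b lam f x :=
    funext fun x => Jst_smul a f x
  rw [e]
  exact heat_smul_fun hd a x

theorem pd_zero_fun (i : Fin 3) : pd i (fun _ : E3 => (0 : E3)) = fun _ => 0 := by
  ext1 x
  simp [pd]

/-- sums of nice functions -/
theorem nc_zero : Nc (fun _ : E3 => (0 : E3)) where
  c2 := contDiff_const
  b0 := ⟨0, by simp⟩
  b1 := ⟨0, by simp [pd_zero_fun]⟩
  b2 := ⟨0, by simp [pd_zero_fun]⟩
  m0 := MemLp.zero'
  m1 := fun i => by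
    rw [pd_zero_fun]
    exact MemLp.zero'
  m2 := fun i j => by
    rw [pd_zero_fun, pd_zero_fun]
    exact MemLp.zero'

theorem pd_add_fun (hf : Differentiable ℝ f) (hg : Differentiable ℝ g) (i : Fin 3) :
    pd i (fun y => f y + g y) = fun y => pd i f y + pd i g y :=
  funext fun x => pd_add (hf x) (hg x) i

theorem pd_smul_cfun (hf : Differentiable ℝ f) (a : ℝ) (i : Fin 3) :
    pd i (fun y => a • f y) = fun y => a • pd i f y :=
  funext fun x => pd_const_smul (hf x) a i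

theorem nc_add (hf : Nc f) (hg : Nc g) : Nc (fun y => f y + g y) where
  c2 := hf.c2.add hg.c2
  b0 := by
    obtain ⟨C1, h1⟩ := hf.b0
    obtain ⟨C2, h2⟩ := hg.b0
    exact ⟨C1 + C2, fun x => (norm_add_le _ _).trans (add_le_add (h1 x) (h2 x))⟩
  b1 := by
    obtain ⟨C1, h1⟩ := hf.b1
    obtain ⟨C2, h2⟩ := hg.b1
    refine ⟨C1 + C2, fun i x => ?_⟩
    rw [pd_add_fun (nc_diff hf) (nc_diff hg)]
    exact (norm_add_le _ _).trans (add_le_add (h1 i x) (h2 i x))
  b2 := by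
    obtain ⟨C1, h1⟩ := hf.b2
    obtain ⟨C2, h2⟩ := hg.b2
    refine ⟨C1 + C2, fun i j x => ?_⟩
    rw [pd_add_fun (nc_diff hf) (nc_diff hg), pd_add_fun (diff_pd hf.c2 j) (diff_pd hg.c2 j)]
    exact (norm_add_le _ _).trans (add_le_add (h1 i j x) (h2 i j x))
  m0 := hf.m0.add hg.m0
  m1 := fun i => by
    rw [pd_add_fun (nc_diff hf) (nc_diff hg)]
    exact (hf.m1 i).add (hg.m1 i)
  m2 := fun i j => by
    rw [pd_add_fun (nc_diff hf) (nc_diff hg), pd_add_fun (diff_pd hf.c2 j) (diff_pd hg.c2 j)]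
    exact (hf.m2 i j).add (hg.m2 i j)

theorem nc_smul (hf : Nc f) (a : ℝ) : Nc (fun y => a • f y) where
  c2 := by
    have := hf.c2
    fun_prop
  b0 := by
    obtain ⟨C1, h1⟩ := hf.b0
    refine ⟨|a| * C1, fun x => ?_⟩
    rw [norm_smul, Real.norm_eq_abs]
    have := h1 x
    gcongr
  b1 := by
    obtain ⟨C1, h1⟩ := hf.b1
    refine ⟨|a| * C1, fun i x => ?_⟩
    rw [pd_smul_cfun (nc_diff hf), norm_smul, Real.norm_eq_abs]
    have := h1 i x
    gcongr
  b2 := by
    obtain ⟨C1, h1⟩ := hf.b2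
    refine ⟨|a| * C1, fun i j x => ?_⟩
    rw [pd_smul_cfun (nc_diff hf), pd_smul_cfun (diff_pd hf.c2 j), norm_smul, Real.norm_eq_abs]
    have := h1 i j x
    gcongr
  m0 := hf.m0.const_smul a
  m1 := fun i => by
    rw [pd_smul_cfun (nc_diff hf)]
    exact (hf.m1 i).const_smul a
  m2 := fun i j => by
    rw [pd_smul_cfun (nc_diff hf), pd_smul_cfun (diff_pd hf.c2 j)]
    exact (hf.m2 i j).const_smul a

theorem nc_sum {ι : Type*} [DecidableEq ι] (s : Finset ι) {q : ι → E3 → E3}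
    (h : ∀ i ∈ s, Nc (q i)) : Nc (fun x => ∑ i ∈ s, q i x) := by
  induction s using Finset.induction_on with
  | empty => simpa using nc_zero
  | insert a s ha ih =>
    have e : (fun x => ∑ i ∈ insert a s, q i x) = fun x => q a x + ∑ i ∈ s, q i x := by
      ext1 x
      rw [Finset.sum_insert ha]
    rw [e]
    exact nc_add (h a (Finset.mem_insert_self _ _))
      (ih fun i hi => h i (Finset.mem_insert_of_mem hi))

theorem stp_zero (hd : 0 < d) : heat d (Jst d b lam (fun _ => 0)) = fun _ => 0 := by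
  ext1 x
  rw [heat_eq hd]
  simp [Jst]

theorem stp_sum (hd : 0 < d) (hC : Coef c r Λ b lam) (hdΛ : d * Λ ≤ 1 / 4)
    {ι : Type*} [DecidableEq ι] (s : Finset ι) {q : ι → E3 → E3} (h : ∀ i ∈ s, Nc (q i)) :
    heat d (Jst d b lam (fun y => ∑ i ∈ s, q i y)) =
      fun x => ∑ i ∈ s, heat d (Jst d b lam (q i)) x := by
  induction s using Finset.induction_on with
  | empty =>
    simp only [Finset.sum_empty]
    exact stp_zero hd
  | insert a s ha ih =>
    have e : (fun x => ∑ i ∈ insert a s, q i x) = fun x => q a x + ∑ i ∈ s, q i x := by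
      ext1 x
      rw [Finset.sum_insert ha]
    rw [e]
    ext1 x
    rw [Finset.sum_insert ha, stp_add hd hC hdΛ (h a (Finset.mem_insert_self _ _))
      (nc_sum s fun i hi => h i (Finset.mem_insert_of_mem hi)),
      ih fun i hi => h i (Finset.mem_insert_of_mem hi)]

end step

end Pool.Agent.TF.Cl
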