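import Pool.Agent.TF.S.Close2
import Pool.Agent.TF.C.Tri

/-!
# Project TF, block S: the propagator, Duhamel's formula (helper55)
-/

set_option autoImplicit false

namespace Pool.Agent.TF.Cl

open MeasureTheory Set Filter Topology Pool.Agent.TO Pool.Agent.TB Pool.Agent.TC Pool.Agent.TP
open scoped ENNReal NNReal Real InnerProductSpace SchwartzMap LineDeriv

section sums

theorem sum_inv_sqrt (n : ℕ) : ∑ j ∈ Finset.range n, 1 / √((j : ℝ) + 1) ≤ 2 * √(n : ℝ) := by
  induction n with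
  | zero => simp
  | succ n ih =>
    rw [Finset.sum_range_succ]
    have h1 : 1 / √((n : ℝ) + 1) ≤ 2 * (√((n : ℝ) + 1) - √(n : ℝ)) := by
      have h2 : 0 < √((n : ℝ) + 1) := Real.sqrt_pos.2 (by positivity)
      have h3 : √(n : ℝ) ≤ √((n : ℝ) + 1) := Real.sqrt_le_sqrt (by linarith)
      have h4 : √((n : ℝ) + 1) ^ 2 = (n : ℝ) + 1 := Real.sq_sqrt (by positivity)
      have h5 : √(n : ℝ) ^ 2 = (n : ℝ) := Real.sq_sqrt (by positivity)
      rw [div_le_iff₀ h2]
      nlinarith [sq_nonneg (√((n : ℝ) + 1) - √(n : ℝ))]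
    push_cast
    linarith

theorem sum_inv_sqrt' (n : ℕ) {d : ℝ} (hd : 0 < d) :
    ∑ i ∈ Finset.range n, d / √(((n : ℝ) - i) * d) ≤ 2 * √(n * d) := by
  have h0 : ∑ i ∈ Finset.range n, d / √(((n : ℝ) - i) * d) =
      ∑ i ∈ Finset.range n, (fun j : ℕ => √d * (1 / √((j : ℝ) + 1))) (n - 1 - i) := by
    refine Finset.sum_congr rfl fun i hi => ?_
    rw [Finset.mem_range] at hi
    have h1 : ((n - 1 - i : ℕ) : ℝ) + 1 = (n : ℝ) - i := by
      have : n - 1 - i + 1 + i = n := by omega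
      have h2 : ((n - 1 - i : ℕ) : ℝ) + 1 + i = n := by exact_mod_cast this
      linarith
    have h3 : 0 < (n : ℝ) - i := by
      have : (i : ℝ) < n := by exact_mod_cast hi
      linarith
    simp only
    rw [h1, Real.sqrt_mul h3.le]
    have h4 : 0 < √d := Real.sqrt_pos.2 hd
    have h5 : 0 < √((n : ℝ) - i) := Real.sqrt_pos.2 h3
    have h6 : d = √d * √d := (Real.mul_self_sqrt hd.le).symm
    rw [div_eq_iff (by positivity)]
    field_simp
    rw [Real.sq_sqrt hd.le]
  rw [h0, Finset.sum_range_reflect (fun j : ℕ => √d * (1 / √((j : ℝ) + 1))) n, ← Finset.mul_sum,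
    Real.sqrt_mul (by positivity)]
  have := sum_inv_sqrt n
  have h7 := Real.sqrt_nonneg d
  nlinarith

theorem bd_sum_range (n : ℕ) {f : ℕ → V3} {a : ℕ → ℝ} (h : ∀ i < n, Bd (f i) (a i)) :
    Bd (∑ i ∈ Finset.range n, f i) (∑ i ∈ Finset.range n, a i) := by
  induction n with
  | zero =>
    simp only [Finset.range_zero, Finset.sum_empty]
    unfold Bd
    filter_upwards [Lp.coeFn_zero E3 2 (volume : Measure E3)] with x hx
    rw [hx]
    simp
  | succ n ih =>
    rw [Finset.sum_range_succ, Finset.sum_range_succ]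
    exact bd_add (ih fun i hi => h i (by omega)) (h n (by omega))

end sums

/-- the hypothesis on Bernstein's constant -/
def HB (κ₀ : ℝ) (c : ℝ) : Prop := ∀ κ' : ℝ, 0 < κ' → κ' ≤ κ₀ →
  ∀ (r d Λ : ℝ) (b : E3 → E3) (lam : E3 → ℝ), 0 < r → 0 < d → Coef c r Λ b lam →
  d * Λ ≤ 1 / 4 → ∀ τ : ℝ, d ≤ 2 * τ → τ ≤ r ^ 2 → ∀ f, Nc f → ∀ x,
  Qf κ' (τ + d) (heat d (Jst d b lam f)) x ≤ heat d (fun x => Qf κ' τ f (x - d • b x)) x

/-- the propagator from the step `m` to the step `m + n` -/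
noncomputable def prp (d : ℝ) (b : ℕ → E3 → E3) (lam : ℕ → E3 → ℝ) (m : ℕ) :
    ℕ → (E3 → E3) → (E3 → E3)
  | 0, f => f
  | n + 1, f => heat d (Jst d (b (m + n)) (lam (m + n)) (prp d b lam m n f))

/-- the hypotheses on the coefficients of all steps -/
structure Hc (c Λ s d κ : ℝ) (K : ℕ) (b : ℕ → E3 → E3) (lam : ℕ → E3 → ℝ) : Prop where
  nc : StNc
  b0 : StB0
  hb : HB κ c
  κ0 : 0 < κ
  κ1 : κ ≤ 1
  s0 : 0 < s
  d0 : 0 < d
  dΛ : d * Λ ≤ 1 / 4
  coef : ∀ k < K, Coef c (√(tk s d k)) Λ (b k) (lam k)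

section prp

variable {c Λ s d κ : ℝ} {K : ℕ} {b : ℕ → E3 → E3} {lam : ℕ → E3 → ℝ}
variable {f : E3 → E3} {M τ : ℝ} {m n : ℕ}

theorem Hc.tpos (h : Hc c Λ s d κ K b lam) (k : ℕ) : 0 < tk s d k := by
  have := h.s0
  have := h.d0
  unfold tk
  positivity

theorem prp_nc (h : Hc c Λ s d κ K b lam) (hf : Nc f) (hmn : m + n ≤ K) :
    Nc (prp d b lam m n f) := by
  induction n with
  | zero => exact hf
  | succ n ih => exact nc_stp h.nc (h.coef _ (by omega)) h.d0 h.dΛ (ih (by omega))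

theorem prp_sup (h : Hc c Λ s d κ K b lam) (hf : ∀ x, ‖f x‖ ≤ M) (hmn : m + n ≤ K) (x : E3) :
    ‖prp d b lam m n f x‖ ≤ M := by
  induction n generalizing x with
  | zero => exact hf x
  | succ n ih =>
    exact norm_heat_le h.d0 (norm_Jst_le (h.coef _ (by omega)) h.d0.le h.dΛ
      (ih (by omega))) x

theorem Hc.step (h : Hc c Λ s d κ K b lam) {k : ℕ} (hk : k < K) (hτ : d ≤ 2 * τ)
    (hτk : τ ≤ tk s d k) (hf : Nc f) (hM : ∀ x, Qf κ τ f x ≤ M ^ 2) (x : E3) :
    Qf κ (τ + d) (heat d (Jst d (b k) (lam k) f)) x ≤ M ^ 2 := by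
  refine Qf_step h.κ0 le_rfl h.hb (Real.sqrt_pos.2 (h.tpos k)) h.d0 (h.coef k hk) h.dΛ hτ ?_ hf
    hM x
  rw [Real.sq_sqrt (h.tpos k).le]
  exact hτk

theorem prp_Q0 (h : Hc c Λ s d κ K b lam) (hf : Nc f) (hmn : m + n ≤ K) (hτ : d ≤ 2 * τ)
    (hτm : τ ≤ tk s d m) (hM : ∀ x, Qf κ τ f x ≤ M ^ 2) (x : E3) :
    Qf κ (τ + n * d) (prp d b lam m n f) x ≤ M ^ 2 := by
  have hd := h.d0
  induction n generalizing x with
  | zero => simpa [prp] using hM x
  | succ n ih =>
    have h1 := h.step (k := m + n) (τ := τ + n * d) (M := M) (by omega) (by nlinarith [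
      (Nat.cast_nonneg n : (0:ℝ) ≤ n)]) (by
        unfold tk at hτm ⊢
        push_cast
        linarith) (prp_nc h hf (by omega)) (ih (by omega)) x
    have e : τ + (n + 1 : ℕ) * d = τ + n * d + d := by push_cast; ring
    rw [e]
    exact h1

theorem prp_Q (h : Hc c Λ s d κ K b lam) (hf : Nc f) (hmn : m + n ≤ K) (hn : 1 ≤ n)
    (hM : ∀ x, ‖f x‖ ≤ M) (x : E3) :
    Qf κ (n * d) (prp d b lam m n f) x ≤ M ^ 2 := by
  have hd := h.d0
  induction n, hn using Nat.le_induction generalizing x with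
  | base =>
    have h1 := h.b0 (Jst d (b m) (lam m) f) M d (cont_Jst (h.coef m (by omega)) (nc_cont hf))
      (norm_Jst_le (h.coef m (by omega)) h.d0.le h.dΛ hM) h.d0 x
    refine le_trans ?_ h1
    have e : ((1 : ℕ) : ℝ) * d = d := by norm_num
    rw [e]
    exact Qf_mono h.κ0.le h.κ1 h.d0.le _ x
  | succ n hn ih =>
    have hn' : (1:ℝ) ≤ n := by exact_mod_cast hn
    have h1 := h.step (k := m + n) (τ := n * d) (M := M) (by omega) (by nlinarith) (by
        unfold tk
        push_cast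
        have := h.s0
        have : 0 ≤ (m : ℝ) * d := by positivity
        linarith) (prp_nc h hf (by omega)) (ih (by omega)) x
    have e : ((n + 1 : ℕ) : ℝ) * d = n * d + d := by push_cast; ring
    rw [e]
    exact h1

/-- Duhamel's formula with the bounds of all terms -/
theorem duh (h : Hc c Λ s d κ K b lam) {B : ℝ} {u w : ℕ → E3 → E3} (hu : ∀ k ≤ K, Nc (u k))
    (hw : ∀ k < K, Nc (w k)) (hwQ : ∀ k < K, m ≤ k → ∀ x, Qf κ d (w k) x ≤ B ^ 2)
    (hs : ∀ k < K, ∀ x, u (k + 1) x = heat d (Jst d (b k) (lam k) (u k)) x + d • w k x)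
    (hmn : m + n ≤ K) :
    ∃ q : ℕ → E3 → E3, (∀ i < n, Nc (q i) ∧ ∀ x, Qf κ (((n : ℝ) - i) * d) (q i) x ≤ B ^ 2) ∧
      ∀ x, u (m + n) x = prp d b lam m n (u m) x + ∑ i ∈ Finset.range n, d • q i x := by
  have hd := h.d0
  induction n with
  | zero => exact ⟨fun _ _ => 0, fun i hi => by omega, fun x => by simp [prp]⟩
  | succ n ih =>
    obtain ⟨q, hq, he⟩ := ih (by omega)
    refine ⟨fun i => if i < n then heat d (Jst d (b (m + n)) (lam (m + n)) (q i)) else w (m + n),
      fun i hi => ?_, fun x => ?_⟩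
    · by_cases hin : i < n
      · simp only [hin, if_true]
        refine ⟨nc_stp h.nc (h.coef _ (by omega)) h.d0 h.dΛ (hq i hin).1, fun x => ?_⟩
        have hi' : (i : ℝ) + 1 ≤ n := by exact_mod_cast hin
        have h1 := h.step (k := m + n) (τ := ((n : ℝ) - i) * d) (M := B) (by omega)
          (by nlinarith) (by
            unfold tk
            push_cast
            have := h.s0
            have h2 : 0 ≤ (m : ℝ) * d := by positivity
            have h3 : 0 ≤ (i : ℝ) * d := by positivity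
            linarith) (hq i hin).1 (hq i hin).2 x
        have e : (((n + 1 : ℕ) : ℝ) - i) * d = ((n : ℝ) - i) * d + d := by push_cast; ring
        rw [e]
        exact h1
      · have hin' : i = n := by omega
        subst hin'
        simp only [lt_self_iff_false, if_false]
        refine ⟨hw _ (by omega), fun x => ?_⟩
        have e : (((i + 1 : ℕ) : ℝ) - i) * d = d := by push_cast; ring
        rw [e]
        exact hwQ _ (by omega) (by omega) x
    · have e1 : u (m + n) = fun x => prp d b lam m n (u m) x +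
          ∑ i ∈ Finset.range n, d • q i x := funext he
      have n1 : Nc (prp d b lam m n (u m)) := prp_nc h (hu m (by omega)) (by omega)
      have n2 : ∀ i ∈ Finset.range n, Nc (fun x => d • q i x) := fun i hi =>
        nc_smul (hq i (Finset.mem_range.1 hi)).1 d
      have hC := h.coef (m + n) (by omega)
      rw [← add_assoc, hs (m + n) (by omega), e1, stp_add h.d0 hC h.dΛ n1 (nc_sum _ n2),
        stp_sum h.d0 hC h.dΛ _ n2, Finset.sum_range_succ]
      simp only [lt_self_iff_false, if_false]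
      rw [add_assoc]
      congr 2
      refine Finset.sum_congr rfl fun i hi => ?_
      rw [if_pos (Finset.mem_range.1 hi), stp_smul h.d0]

/-- the constant of the bound of one derivative -/
theorem pd_duh (h : Hc c Λ s d κ K b lam) {B : ℝ} {u w : ℕ → E3 → E3} (hu : ∀ k ≤ K, Nc (u k))
    (hw : ∀ k < K, Nc (w k)) (hwQ : ∀ k < K, m ≤ k → ∀ x, Qf κ d (w k) x ≤ B ^ 2)
    (hs : ∀ k < K, ∀ x, u (k + 1) x = heat d (Jst d (b k) (lam k) (u k)) x + d • w k x)
    (hmn : m + n ≤ K) (hn : 1 ≤ n) (hB : 0 ≤ B) (hM : ∀ x, ‖u m x‖ ≤ M) (i : Fin 3) (x : E3) :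
    ‖pd i (u (m + n)) x‖ ≤ M / √(κ * (n * d)) + B / √κ * (2 * √(n * d)) := by
  have hM0 : 0 ≤ M := (norm_nonneg _).trans (hM 0)
  have hd := h.d0
  obtain ⟨q, hq, he⟩ := duh h hu hw hwQ hs hmn
  have hn' : (1:ℝ) ≤ n := by exact_mod_cast hn
  have e1 : u (m + n) = fun x => prp d b lam m n (u m) x +
      ∑ i ∈ Finset.range n, d • q i x := funext he
  have n1 : Nc (prp d b lam m n (u m)) := prp_nc h (hu m (by omega)) (by omega)
  have n2 : ∀ i ∈ Finset.range n, Nc (fun x => d • q i x) := fun i hi =>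
    nc_smul (hq i (Finset.mem_range.1 hi)).1 d
  rw [e1, pd_add (nc_diff n1 x) (nc_diff (nc_sum _ n2) x), pd_sum (fun k hk => nc_diff (n2 k hk) x)]
  refine (norm_add_le _ _).trans (add_le_add ?_ ?_)
  · exact pd_of_Qf h.κ0 (by positivity) hM0 (prp_Q h (hu m (by omega)) hmn hn hM x) i
  · refine (norm_sum_le _ _).trans ?_
    calc ∑ k ∈ Finset.range n, ‖pd i (fun y => d • q k y) x‖
        ≤ ∑ k ∈ Finset.range n, B / √κ * (d / √(((n : ℝ) - k) * d)) := by
          refine Finset.sum_le_sum fun k hk => ?_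
          have hk' := Finset.mem_range.1 hk
          have hk2 : 0 < (n : ℝ) - k := by
            have : (k : ℝ) < n := by exact_mod_cast hk'
            linarith
          rw [pd_const_smul (nc_diff (hq k hk').1 x), norm_smul, Real.norm_eq_abs,
            abs_of_pos hd]
          have h1 := pd_of_Qf h.κ0 (τ := ((n : ℝ) - k) * d) (by positivity) hB
            ((hq k hk').2 x) i
          calc d * ‖pd i (q k) x‖ ≤ d * (B / √(κ * (((n : ℝ) - k) * d))) := by gcongr
            _ = _ := by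
                rw [Real.sqrt_mul h.κ0.le]
                field_simp
      _ = B / √κ * ∑ k ∈ Finset.range n, d / √(((n : ℝ) - k) * d) := by rw [Finset.mul_sum]
      _ ≤ B / √κ * (2 * √(n * d)) := by
          have := sum_inv_sqrt' n hd
          gcongr

/-- the same for the words of Riesz transforms -/
theorem word_duh (h : Hc c Λ s d κ K b lam) {B : ℝ} {u w : ℕ → E3 → E3} (hu : ∀ k ≤ K, Nc (u k))
    (hw : ∀ k < K, Nc (w k)) (hwQ : ∀ k < K, m ≤ k → ∀ x, Qf κ d (w k) x ≤ B ^ 2)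
    (hs : ∀ k < K, ∀ x, u (k + 1) x = heat d (Jst d (b k) (lam k) (u k)) x + d • w k x)
    (hmn : m + n ≤ K) (hn : 1 ≤ n) (hB : 0 ≤ B) (hM : ∀ x, ‖u m x‖ ≤ M) (i : Fin 3)
    {T : V3 →L[ℝ] V3} {CT : ℝ} (hCT : 0 ≤ CT) (hT : ∀ (f : E3 → E3) (A B : ℝ), Nc f →
      (∀ x, ‖f x‖ ≤ A) → (∀ i j x, ‖pd i (pd j f) x‖ ≤ B) → ∀ τ : ℝ, 0 < τ →
      Bd (T (vL (pd i f))) (CT * (τ * B + A / τ))) :
    Bd (T (vL (pd i (u (m + n)))))
      (CT * (1 + 1 / κ) * (M / √(n * d) + B * (2 * √(n * d)))) := by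
  have hM0 : 0 ≤ M := (norm_nonneg _).trans (hM 0)
  have hd := h.d0
  have hκ := h.κ0
  obtain ⟨q, hq, he⟩ := duh h hu hw hwQ hs hmn
  have hn' : (1:ℝ) ≤ n := by exact_mod_cast hn
  have e1 : u (m + n) = fun x => prp d b lam m n (u m) x +
      ∑ i ∈ Finset.range n, d • q i x := funext he
  have n1 : Nc (prp d b lam m n (u m)) := prp_nc h (hu m (by omega)) (by omega)
  have n2 : ∀ i ∈ Finset.range n, Nc (fun x => d • q i x) := fun i hi =>
    nc_smul (hq i (Finset.mem_range.1 hi)).1 d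
  -- one term
  have one : ∀ (f : E3 → E3) (a τ : ℝ), Nc f → 0 ≤ a → 0 < τ → (∀ x, Qf κ τ f x ≤ a ^ 2) →
      Bd (T (vL (pd i f))) (CT * (1 + 1 / κ) * (a / √τ)) := by
    intro f a τ hf ha hτ hQ
    have h0 : 0 < √τ := Real.sqrt_pos.2 hτ
    have h1 := hT f a (a / (κ * τ)) hf (fun x => norm_of_Qf hκ.le hτ.le ha (hQ x))
      (fun i j x => pd2_of_Qf hκ hτ ha (hQ x) i j) (√τ) h0
    refine bd_mono h1 (le_of_eq ?_)
    have h2 : τ = √τ * √τ := (Real.mul_self_sqrt hτ.le).symm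
    have h3 : √τ * (a / (κ * τ)) = a / √τ / κ := by
      rw [div_div, mul_div_assoc', div_eq_div_iff (by positivity) (by positivity)]
      have h4 : √τ ^ 2 = τ := Real.sq_sqrt hτ.le
      linear_combination (a * κ) * h4
    rw [h3]
    field_simp
    ring
  have d1 : pd i (u (m + n)) = fun y => pd i (prp d b lam m n (u m)) y +
      ∑ k ∈ Finset.range n, d • pd i (q k) y := by
    ext1 x
    rw [e1, pd_add (nc_diff n1 x) (nc_diff (nc_sum _ n2) x),
      pd_sum (fun k hk => nc_diff (n2 k hk) x)]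
    congr 1
    refine Finset.sum_congr rfl fun k hk => ?_
    rw [pd_const_smul (nc_diff (hq k (Finset.mem_range.1 hk)).1 x)]
  have d2 : vL (pd i (u (m + n))) = vL (pd i (prp d b lam m n (u m))) +
      ∑ k ∈ Finset.range n, d • vL (pd i (q k)) := by
    have m2 : ∀ k ∈ Finset.range n, MemLp (fun y => d • pd i (q k) y) 2
        (volume : Measure E3) := fun k hk =>
      ((hq k (Finset.mem_range.1 hk)).1.m1 i).const_smul d
    rw [d1, vL_add (n1.m1 i) (memLp_finsetSum _ m2), vL_sum _ _ m2]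
    congr 1
    refine Finset.sum_congr rfl fun k hk => ?_
    exact vL_smul d ((hq k (Finset.mem_range.1 hk)).1.m1 i)
  rw [d2, map_add, map_sum, mul_add]
  refine bd_add (one _ M (n * d) n1 hM0 (by positivity) fun x =>
    prp_Q h (hu m (by omega)) hmn hn hM x) ?_
  have h5 : ∀ k < n, Bd (T (d • vL (pd i (q k))))
      (CT * (1 + 1 / κ) * B * (d / √(((n : ℝ) - k) * d))) := by
    intro k hk
    have hk2 : 0 < (n : ℝ) - k := by
      have : (k : ℝ) < n := by exact_mod_cast hk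
      linarith
    rw [map_smul]
    have h6 := bd_smul (one (q k) B (((n : ℝ) - k) * d) (hq k hk).1 hB (by positivity)
      (hq k hk).2) d
    refine bd_mono h6 (le_of_eq ?_)
    rw [abs_of_pos hd]
    ring
  refine bd_mono (bd_sum_range n h5) ?_
  rw [← Finset.mul_sum, ← mul_assoc]
  have := sum_inv_sqrt' n hd
  gcongr

end prp

end Pool.Agent.TF.Cl
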