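import Pool.Agent.TF.S.Close3
import Pool.Agent.TF.S.Spec
import Pool.Agent.TF.E.Src

/-!
# Project TF, block S: closing argument, bounds of the pieces (helper55)
-/

set_option autoImplicit false

namespace Pool.Agent.TF.Cl

open MeasureTheory Set Filter Topology Pool.Agent.TO Pool.Agent.TB Pool.Agent.TC Pool.Agent.TP
open scoped ENNReal NNReal Real InnerProductSpace SchwartzMap LineDeriv

/-- closure of the nice functions -/
theorem stNc : StNc := by
  intro f d hd _ _ h2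
  have h1 : heat d f = cvf (hk d) (vL f : V3) := by
    ext1 x
    rw [heat_eq_cvf]
    exact (cvf_congr (vL_coe h2) x).symm
  rw [h1]
  exact nc_cvf_V3 (smN_hk hd) _

section moment

/-- the constant of the first moment -/
noncomputable def cZ : ℝ := JJ 6 / JJ 7

theorem cZ_pos : 0 < cZ := div_pos (JJ_pos (by norm_num)) (JJ_pos (by norm_num))

theorem et0_mom {ρ : ℝ} (hρ : 0 < ρ) (y : E3) :
    et0 ρ y * ‖y‖ ≤ 15 / 2 * c0 * ρ ^ 4 * sg ρ y ^ 6 := by
  have h1 := nrm_sg hρ y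
  have h2 := sg_pos hρ y
  have h3 := c0_pos
  unfold et0
  calc 15 / 2 * c0 * ρ ^ 4 * sg ρ y ^ 7 * ‖y‖ = 15 / 2 * c0 * ρ ^ 4 * sg ρ y ^ 6 *
      (‖y‖ * sg ρ y) := by ring
    _ ≤ 15 / 2 * c0 * ρ ^ 4 * sg ρ y ^ 6 * 1 := by gcongr
    _ = _ := mul_one _

theorem int_mom {ρ : ℝ} (hρ : 0 < ρ) :
    ∫ y, 15 / 2 * c0 * ρ ^ 4 * sg ρ y ^ 6 = cZ * ρ := by
  rw [integral_const_mul]
  have h1 := int_sg hρ 6
  have h2 : ∫ x : E3, sg ρ x ^ 6 = JJ 6 / ρ ^ 3 := by
    rw [eq_div_iff (by positivity)]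
    have h3 : ρ ^ 3 * (ρ ^ 3 * ∫ x : E3, sg ρ x ^ 6) = ρ ^ 3 * JJ 6 := by
      rw [← h1]
      ring
    have h4 := mul_left_cancel₀ (pow_pos hρ 3).ne' h3
    linarith
  rw [h2]
  unfold cZ c0
  have h5 : JJ 7 ≠ 0 := (JJ_pos (by norm_num)).ne'
  field_simp

/-- the function is close to its averages -/
theorem zst {f : E3 → E3} {a ρ : ℝ} (hρ : 0 < ρ) (hf : ContDiff ℝ 1 f) (hb : ∃ C, ∀ x, ‖f x‖ ≤ C)
    (ha : ∀ i x, ‖pd i f x‖ ≤ a) (x : E3) : ‖f x‖ ≤ ‖cvf (et0 ρ) f x‖ + 3 * a * cZ * ρ := by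
  obtain ⟨C, hC⟩ := hb
  have ha0 : 0 ≤ a := (norm_nonneg _).trans (ha 0 0)
  have hlip : ∀ y : E3, ‖f x - f (x - y)‖ ≤ 3 * a * ‖y‖ := by
    intro y
    have h1 := (convex_univ (𝕜 := ℝ) (E := E3)).norm_image_sub_le_of_norm_fderiv_le (f := f)
      (C := 3 * a) (fun z _ => (hf.differentiable one_ne_zero z))
      (fun z _ => norm_fderiv_le_pd fun i => ha i z) (mem_univ (x - y)) (mem_univ x)
    refine h1.trans (le_of_eq ?_)
    congr 2
    abel
  have e1 : f x = ∫ y, et0 ρ y • f x := by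
    rw [integral_smul_const, integral_et0 hρ, one_smul]
  have i1 : Integrable (fun y => et0 ρ y • f x) (volume : Measure E3) :=
    (integrable_et0 hρ).smul_const _
  have i2 : Integrable (fun y => et0 ρ y • f (x - y)) (volume : Measure E3) :=
    integrable_cvf_bdd (integrable_et0 hρ) hf.continuous hC x
  have e2 : f x - cvf (et0 ρ) f x = ∫ y, et0 ρ y • (f x - f (x - y)) := by
    conv_lhs => rw [e1]
    unfold cvf
    rw [← integral_sub i1 i2]
    congr 1
    ext1 y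
    rw [smul_sub]
  have h3 : ‖f x - cvf (et0 ρ) f x‖ ≤ 3 * a * (cZ * ρ) := by
    rw [e2, ← int_mom hρ, ← integral_const_mul]
    refine norm_integral_le_of_norm_le ?_ (Eventually.of_forall fun y => ?_)
    · exact ((integrable_sg hρ (n := 6) (by norm_num)).const_mul _).const_mul _
    · rw [norm_smul, Real.norm_eq_abs, abs_of_nonneg (et0_nonneg hρ y)]
      calc et0 ρ y * ‖f x - f (x - y)‖ ≤ et0 ρ y * (3 * a * ‖y‖) := by
            have := et0_nonneg hρ y
            have := hlip y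
            gcongr
        _ = 3 * a * (et0 ρ y * ‖y‖) := by ring
        _ ≤ _ := by
            have := et0_mom hρ y
            gcongr
  calc ‖f x‖ = ‖cvf (et0 ρ) f x + (f x - cvf (et0 ρ) f x)‖ := by rw [add_sub_cancel]
    _ ≤ ‖cvf (et0 ρ) f x‖ + ‖f x - cvf (et0 ρ) f x‖ := norm_add_le _ _
    _ ≤ _ := by
        have : 3 * a * cZ * ρ = 3 * a * (cZ * ρ) := by ring
        rw [this]
        gcongr

end moment

end Pool.Agent.TF.Cl
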