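import Pool.Agent.TF.S.Close4

/-!
# Project TF, block S: closing argument, bounds of the derivatives and of the field (helper55)
-/

set_option autoImplicit false

namespace Pool.Agent.TF.Cl

open MeasureTheory Set Filter Topology Pool.Agent.TO Pool.Agent.TB Pool.Agent.TC Pool.Agent.TP
open scoped ENNReal NNReal Real InnerProductSpace SchwartzMap LineDeriv

/-- the situation before the bounds at the step `K` -/
structure Pre (c Ci CB A L s Λ η d κ : ℝ) (R : Fin 3 → V3 →L[ℝ] V3) (K : ℕ) (σ : ℕ → Sta)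
    (b : ℕ → E3 → E3) (lam : ℕ → E3 → ℝ) : Prop where
  hc : Hc c Λ s d κ K b lam
  rz : RZ R
  η0 : 0 < η
  A0 : 0 < A
  Ci0 : 0 < Ci
  L0 : 0 ≤ L
  ds : d ≤ s
  ini : Ini Ci A L s (σ 0)
  run : Run c Λ s d η R K σ b lam
  h2 : ∀ k ≤ K, ∀ j x, ‖(σ k).h j x‖ ≤ 2 * A
  hb : ∀ k < K, Bd (Hh R (σ k)) (CB * A / √(tk s d k))
  CB0 : 0 ≤ CB
  small : CB ^ 2 * A ≤ 1

section main

variable {c Ci CB A L s Λ η d κ : ℝ} {R : Fin 3 → V3 →L[ℝ] V3} {K : ℕ} {σ : ℕ → Sta}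
  {b : ℕ → E3 → E3} {lam : ℕ → E3 → ℝ}

theorem Pre.M0 (P : Pre c Ci CB A L s Λ η d κ R K σ b lam) (k : ℕ) :
    0 ≤ CB * A / √(tk s d k) := by
  have := P.CB0
  have := P.A0
  positivity

theorem Pre.src_nc (P : Pre c Ci CB A L s Λ η d κ R K σ b lam) {k : ℕ} (hk : k < K) (j : Fin 3) :
    Nc (src R η (σ k) j) :=
  nc_neg (src_bounds P.η0 (P.M0 k) (P.hb k hk) j).nc

theorem Pre.src_sup (P : Pre c Ci CB A L s Λ η d κ R K σ b lam) {k : ℕ} (hk : k < K) (j : Fin 3)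
    (x : E3) : ‖src R η (σ k) j x‖ ≤ (CB * A / √(tk s d k)) ^ 2 := by
  have h := (src_bounds P.η0 (P.M0 k) (P.hb k hk) j).s0 x
  unfold src
  rw [norm_neg]
  exact h

theorem Pre.w_nc (P : Pre c Ci CB A L s Λ η d κ R K σ b lam) {k : ℕ} (hk : k < K) (j : Fin 3) :
    Nc (heat d (src R η (σ k) j)) := by
  have h := P.src_nc hk j
  exact stNc _ d P.hc.d0 (nc_cont h) h.b0 h.m0

theorem Pre.w_Q (P : Pre c Ci CB A L s Λ η d κ R K σ b lam) {k : ℕ} (hk : k < K) (j : Fin 3)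
    {B : ℝ} (hB : (CB * A / √(tk s d k)) ^ 2 ≤ B) (x : E3) :
    Qf κ d (heat d (src R η (σ k) j)) x ≤ B ^ 2 := by
  have h := P.src_nc hk j
  refine (Qf_mono P.hc.κ0.le P.hc.κ1 P.hc.d0.le _ x).trans ?_
  exact P.hc.b0 _ B d (nc_cont h) (fun x => (P.src_sup hk j x).trans hB) P.hc.d0 x

theorem Pre.hstep (P : Pre c Ci CB A L s Λ η d κ R K σ b lam) {k : ℕ} (hk : k < K) (j : Fin 3)
    (x : E3) : (σ (k + 1)).h j x = heat d (Jst d (b k) (lam k) ((σ k).h j)) x +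
      d • heat d (src R η (σ k) j) x := by
  have h := P.src_nc hk j
  have hn := (P.run.nc k hk.le).2 j
  obtain ⟨C1, h1⟩ := hn.b0
  obtain ⟨C2, h2⟩ := h.b0
  have hC := P.hc.coef k hk
  have hd := P.hc.d0
  rw [P.run.step k hk]
  change heat d (fun x => Jst d (b k) (lam k) ((σ k).h j) x + d • src R η (σ k) j x) x = _
  rw [heat_add_fun hd (cont_Jst hC (nc_cont hn)) ⟨C1, norm_Jst_le hC hd.le P.hc.dΛ h1⟩
    (g := fun x => d • src R η (σ k) j x) ((nc_cont h).const_smul d)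
    ⟨|d| * C2, fun x => by
      rw [norm_smul, Real.norm_eq_abs]
      have := h2 x
      gcongr⟩ x, heat_smul_fun hd]

theorem Pre.gstep (P : Pre c Ci CB A L s Λ η d κ R K σ b lam) {k : ℕ} (hk : k < K) (i : Fin 3)
    (j : Option (Fin 3)) :
    (σ (k + 1)).g i j = heat d (Jst d (b k) (lam k) ((σ k).g i j)) := by
  rw [P.run.step k hk]
  rfl

theorem Pre.g_prp (P : Pre c Ci CB A L s Λ η d κ R K σ b lam) {k : ℕ} (hk : k ≤ K) (i : Fin 3)
    (j : Option (Fin 3)) : (σ k).g i j = prp d b lam 0 k ((σ 0).g i j) := by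
  induction k with
  | zero => rfl
  | succ k ih =>
    rw [P.gstep (by omega), ih (by omega)]
    simp only [prp, zero_add]

theorem Pre.l_bd (P : Pre c Ci CB A L s Λ η d κ R K σ b lam) {k : ℕ} (hk : k ≤ K) :
    Bd (σ k).l L := by
  induction k with
  | zero => exact P.ini.bdl
  | succ k ih =>
    rw [P.run.step k (by omega)]
    have h := bd_cvO (kk_hk P.hc.d0) P.L0 (ih (by omega))
    rw [one_mul] at h
    exact h

theorem Pre.g_sup (P : Pre c Ci CB A L s Λ η d κ R K σ b lam) {k : ℕ} (hk : k ≤ K) (i : Fin 3)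
    (j : Option (Fin 3)) (x : E3) : ‖(σ k).g i j x‖ ≤ A := by
  rw [P.g_prp hk]
  exact prp_sup P.hc (P.ini.g0 i j) (by omega) x

/-- the functional of the data at the initial time -/
theorem Pre.g_Q0 (P : Pre c Ci CB A L s Λ η d κ R K σ b lam) (i : Fin 3)
    (j : Option (Fin 3)) (x : E3) : Qf κ s ((σ 0).g i j) x ≤ ((1 + 4 * Ci) * A) ^ 2 := by
  have hs := P.hc.s0
  have hκ := P.hc.κ0
  have hκ1 := P.hc.κ1
  have hA := P.A0
  have hCi := P.Ci0
  have h0 := P.ini.g0 i j x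
  have h1 : ∑ l, ‖pd l ((σ 0).g i j) x‖ ^ 2 ≤ 3 * (Ci * A) ^ 2 / s := by
    calc ∑ l, ‖pd l ((σ 0).g i j) x‖ ^ 2 ≤ ∑ _l : Fin 3, (Ci * A / √s) ^ 2 := by
          refine Finset.sum_le_sum fun l _ => ?_
          have := P.ini.g1 i j l x
          gcongr
      _ = _ := by
          rw [Finset.sum_const, Finset.card_univ, Fintype.card_fin, nsmul_eq_mul, div_pow,
            Real.sq_sqrt hs.le]
          push_cast
          ring
  have h2 : ∑ l, ∑ l', ‖pd l (pd l' ((σ 0).g i j)) x‖ ^ 2 ≤ 9 * (Ci * A) ^ 2 / s ^ 2 := by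
    calc ∑ l, ∑ l', ‖pd l (pd l' ((σ 0).g i j)) x‖ ^ 2
        ≤ ∑ _l : Fin 3, ∑ _l' : Fin 3, (Ci * A / s) ^ 2 := by
          refine Finset.sum_le_sum fun l _ => Finset.sum_le_sum fun l' _ => ?_
          have := P.ini.g2 i j l l' x
          gcongr
      _ = _ := by
          simp only [Finset.sum_const, Finset.card_univ, Fintype.card_fin, nsmul_eq_mul]
          push_cast
          ring
  unfold Qf
  calc ‖(σ 0).g i j x‖ ^ 2 + κ * s * ∑ l, ‖pd l ((σ 0).g i j) x‖ ^ 2 +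
        (κ * s) ^ 2 * ∑ l, ∑ l', ‖pd l (pd l' ((σ 0).g i j)) x‖ ^ 2
      ≤ A ^ 2 + κ * s * (3 * (Ci * A) ^ 2 / s) + (κ * s) ^ 2 * (9 * (Ci * A) ^ 2 / s ^ 2) := by
        gcongr
    _ = A ^ 2 + κ * (3 * (Ci * A) ^ 2) + κ ^ 2 * (9 * (Ci * A) ^ 2) := by
        field_simp
    _ ≤ A ^ 2 + 1 * (3 * (Ci * A) ^ 2) + 1 ^ 2 * (9 * (Ci * A) ^ 2) := by gcongr
    _ ≤ _ := by
        have : 0 ≤ Ci * A ^ 2 := by positivity
        have : 0 ≤ Ci ^ 2 * A ^ 2 := by positivity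
        nlinarith

theorem Pre.g_Q (P : Pre c Ci CB A L s Λ η d κ R K σ b lam) {k : ℕ} (hk : k ≤ K) (i : Fin 3)
    (j : Option (Fin 3)) (x : E3) :
    Qf κ (tk s d k) ((σ k).g i j) x ≤ ((1 + 4 * Ci) * A) ^ 2 := by
  have hs := P.hc.s0
  have hd := P.hc.d0
  have hds := P.ds
  rw [P.g_prp hk]
  exact prp_Q0 P.hc ((P.run.nc 0 (by omega)).1 i j) (by omega) (τ := s) (by linarith)
    (by unfold tk; simp) (P.g_Q0 i j) x

theorem Pre.dg (P : Pre c Ci CB A L s Λ η d κ R K σ b lam) {k : ℕ} (hk : k ≤ K) (i : Fin 3)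
    (j : Option (Fin 3)) (l : Fin 3) (x : E3) :
    ‖pd l ((σ k).g i j) x‖ ≤ (1 + 4 * Ci) / √κ * A / √(tk s d k) := by
  have hκ := P.hc.κ0
  have ht := P.hc.tpos k
  have hA := P.A0
  have hCi := P.Ci0
  refine (pd_of_Qf hκ ht (by positivity) (P.g_Q hk i j x) l).trans (le_of_eq ?_)
  rw [Real.sqrt_mul hκ.le]
  field_simp

theorem Pre.wg (P : Pre c Ci CB A L s Λ η d κ R K σ b lam) {k : ℕ} (hk : k ≤ K) (i : Fin 3)
    (j : Option (Fin 3)) (l : Fin 3) {T : V3 →L[ℝ] V3} {CT : ℝ} (hT : ∀ (f : E3 → E3) (A B : ℝ),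
      Nc f → (∀ x, ‖f x‖ ≤ A) → (∀ i j x, ‖pd i (pd j f) x‖ ≤ B) → ∀ τ : ℝ, 0 < τ →
      Bd (T (vL (pd l f))) (CT * (τ * B + A / τ))) :
    Bd (T (vL (pd l ((σ k).g i j)))) (CT * ((1 + 4 * Ci) / κ + 1) * A / √(tk s d k)) := by
  have hκ := P.hc.κ0
  have ht := P.hc.tpos k
  have hA := P.A0
  have hCi := P.Ci0
  have hst : 0 < √(tk s d k) := Real.sqrt_pos.2 ht
  have h1 := hT _ A ((1 + 4 * Ci) * A / (κ * tk s d k)) ((P.run.nc k hk).1 i j) (P.g_sup hk i j)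
    (fun i' j' x => pd2_of_Qf hκ ht (by positivity) (P.g_Q hk i j x) i' j') (√(tk s d k)) hst
  refine bd_mono h1 (le_of_eq ?_)
  have h4 : √(tk s d k) ^ 2 = tk s d k := Real.sq_sqrt ht.le
  have h3 : √(tk s d k) * ((1 + 4 * Ci) * A / (κ * tk s d k)) =
      (1 + 4 * Ci) / κ * A / √(tk s d k) := by
    rw [mul_div_assoc', div_eq_div_iff (by positivity) (by positivity)]
    have h5 : (1 + 4 * Ci) / κ * κ = 1 + 4 * Ci := by field_simp
    linear_combination ((1 + 4 * Ci) * A) * h4 - (A * tk s d k) * h5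
  rw [h3]
  ring

/-- the splitting of the time interval -/
theorem Pre.split (P : Pre c Ci CB A L s Λ η d κ R K σ b lam) {k : ℕ} (hk : k ≤ K) (hk1 : 1 ≤ k)
    (j : Fin 3) : ∃ (m n : ℕ) (M : ℝ), m + n = k ∧ 1 ≤ n ∧ (∀ x, ‖(σ m).h j x‖ ≤ M) ∧
      M / √(n * d) ≤ 4 * A / √(tk s d k) ∧ √(n * d) ≤ √(tk s d k) ∧
      ∀ i, m ≤ i → (CB * A / √(tk s d i)) ^ 2 ≤ 2 * (CB * A) ^ 2 / tk s d k := by
  have hs := P.hc.s0
  have hd := P.hc.d0
  have hds := P.ds
  have hA := P.A0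
  have ht := P.hc.tpos k
  have hst : 0 < √(tk s d k) := Real.sqrt_pos.2 ht
  have key : ∀ i, tk s d k ≤ 2 * tk s d i →
      (CB * A / √(tk s d i)) ^ 2 ≤ 2 * (CB * A) ^ 2 / tk s d k := by
    intro i hi
    have hti := P.hc.tpos i
    rw [div_pow, Real.sq_sqrt hti.le, div_le_div_iff₀ hti ht]
    have : 0 ≤ (CB * A) ^ 2 := sq_nonneg _
    nlinarith
  by_cases hcase : (k : ℝ) * d ≤ s
  · refine ⟨0, k, 0, by omega, hk1, fun x => ?_, ?_, ?_, fun i _ => key i ?_⟩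
    · rw [P.ini.h0]
      simp
    · rw [zero_div]
      positivity
    · apply Real.sqrt_le_sqrt
      unfold tk
      linarith
    · unfold tk
      have : 0 ≤ (i : ℝ) * d := by positivity
      linarith
  · push Not at hcase
    have hm : ((k / 2 : ℕ) : ℝ) ≤ k / 2 := Nat.cast_div_le
    have hm' : ((k : ℝ) - 1) / 2 ≤ ((k / 2 : ℕ) : ℝ) := by
      have h1 : k ≤ 2 * (k / 2) + 1 := by omega
      have h2 : (k : ℝ) ≤ 2 * ((k / 2 : ℕ) : ℝ) + 1 := by exact_mod_cast h1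
      linarith
    have hn : ((k - k / 2 : ℕ) : ℝ) = k - ((k / 2 : ℕ) : ℝ) := by
      rw [Nat.cast_sub (Nat.div_le_self k 2)]
    have hn1 : (k : ℝ) / 2 ≤ ((k - k / 2 : ℕ) : ℝ) := by rw [hn]; linarith
    have hn0 : (1:ℝ) ≤ ((k - k / 2 : ℕ) : ℝ) := by
      have : 1 ≤ k - k / 2 := by omega
      exact_mod_cast this
    refine ⟨k / 2, k - k / 2, 2 * A, by omega, by omega, P.h2 _ (by omega) j, ?_, ?_,
      fun i hi => key i ?_⟩
    · have h1 : √(tk s d k) / 2 ≤ √(((k - k / 2 : ℕ) : ℝ) * d) := by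
        apply Real.le_sqrt_of_sq_le
        rw [div_pow, Real.sq_sqrt ht.le]
        unfold tk
        nlinarith
      have h2 : 0 < √(((k - k / 2 : ℕ) : ℝ) * d) := by positivity
      rw [div_le_div_iff₀ h2 hst]
      nlinarith
    · apply Real.sqrt_le_sqrt
      unfold tk
      have : (((k - k / 2 : ℕ) : ℝ)) ≤ k := by rw [hn]; linarith [(Nat.cast_nonneg (k / 2) : (0:ℝ) ≤ _)]
      nlinarith
    · unfold tk
      have h3 : ((k / 2 : ℕ) : ℝ) ≤ i := by exact_mod_cast hi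
      nlinarith

theorem pd_zero_of {f : E3 → E3} (h : ∀ x, f x = 0) (i : Fin 3) : pd i f = fun _ => 0 := by
  have : f = fun _ => 0 := funext h
  rw [this]
  exact pd_zero_fun i

theorem Pre.dh (P : Pre c Ci CB A L s Λ η d κ R K σ b lam) {k : ℕ} (hk : k ≤ K) (j : Fin 3)
    (i : Fin 3) (x : E3) : ‖pd i ((σ k).h j) x‖ ≤ 8 / √κ * A / √(tk s d k) := by
  have hκ := P.hc.κ0
  have hA := P.A0
  have hd := P.hc.d0
  have ht := P.hc.tpos k
  have hst : 0 < √(tk s d k) := Real.sqrt_pos.2 ht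
  rcases Nat.eq_zero_or_pos k with h0 | h0
  · subst h0
    rw [pd_zero_of (P.ini.h0 j)]
    simp only [norm_zero]
    positivity
  obtain ⟨m, n, M, hmn, hn, hM, e1, e2, e3⟩ := P.split hk h0 j
  subst hmn
  have hn' : (1:ℝ) ≤ n := by exact_mod_cast hn
  have hB : 0 ≤ 2 * (CB * A) ^ 2 / tk s d (m + n) := by positivity
  have hc' : Hc c Λ s d κ (m + n) b lam :=
    { P.hc with coef := fun k hk' => P.hc.coef k (by omega) }
  have h1 := pd_duh (m := m) (n := n) hc' (u := fun k => (σ k).h j)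
    (w := fun k => heat d (src R η (σ k) j)) (B := 2 * (CB * A) ^ 2 / tk s d (m + n))
    (fun k hk' => (P.run.nc k (by omega)).2 j) (fun k hk' => P.w_nc (by omega) j)
    (fun k hk' hmk x => P.w_Q (by omega) j (e3 k hmk) x)
    (fun k hk' x => P.hstep (by omega) j x) le_rfl hn hB hM i x
  refine h1.trans ?_
  have h5 : M / √(κ * (n * d)) = M / √(n * d) / √κ := by
    rw [Real.sqrt_mul hκ.le, div_div, mul_comm]
  have h6 : 2 * (CB * A) ^ 2 / tk s d (m + n) / √κ * (2 * √(n * d)) ≤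
      4 * A / √(tk s d (m + n)) / √κ := by
    have h7 : √(tk s d (m + n)) ^ 2 = tk s d (m + n) := Real.sq_sqrt ht.le
    have h8 : (CB * A) ^ 2 ≤ A := by
      have := P.small
      nlinarith
    calc 2 * (CB * A) ^ 2 / tk s d (m + n) / √κ * (2 * √(n * d))
        ≤ 2 * A / tk s d (m + n) / √κ * (2 * √(tk s d (m + n))) := by gcongr
      _ = 4 * A / √(tk s d (m + n)) / √κ := by
          have h9 : tk s d (m + n) = √(tk s d (m + n)) * √(tk s d (m + n)) :=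
            (Real.mul_self_sqrt ht.le).symm
          have h10 : 2 * A / tk s d (m + n) * (2 * √(tk s d (m + n))) =
              4 * A / √(tk s d (m + n)) := by
            rw [div_mul_eq_mul_div, div_eq_div_iff ht.ne' hst.ne']
            linear_combination (4 * A) * h7
          rw [← h10]
          ring
  rw [h5]
  calc M / √(n * d) / √κ + 2 * (CB * A) ^ 2 / tk s d (m + n) / √κ * (2 * √(n * d))
      ≤ 4 * A / √(tk s d (m + n)) / √κ + 4 * A / √(tk s d (m + n)) / √κ := by gcongr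
    _ = _ := by ring

theorem Pre.wh (P : Pre c Ci CB A L s Λ η d κ R K σ b lam) {k : ℕ} (hk : k ≤ K) (j : Fin 3)
    (l : Fin 3) {T : V3 →L[ℝ] V3} {CT : ℝ} (hCT : 0 ≤ CT) (hT : ∀ (f : E3 → E3) (A B : ℝ),
      Nc f → (∀ x, ‖f x‖ ≤ A) → (∀ i j x, ‖pd i (pd j f) x‖ ≤ B) → ∀ τ : ℝ, 0 < τ →
      Bd (T (vL (pd l f))) (CT * (τ * B + A / τ))) :
    Bd (T (vL (pd l ((σ k).h j)))) (CT * (1 + 1 / κ) * 8 * A / √(tk s d k)) := by
  have hκ := P.hc.κ0
  have hA := P.A0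
  have hd := P.hc.d0
  have ht := P.hc.tpos k
  have hst : 0 < √(tk s d k) := Real.sqrt_pos.2 ht
  rcases Nat.eq_zero_or_pos k with h0 | h0
  · subst h0
    rw [pd_zero_of (P.ini.h0 j), vL_zero, map_zero]
    unfold Bd
    filter_upwards [Lp.coeFn_zero E3 2 (volume : Measure E3)] with x hx
    rw [hx]
    simp only [Pi.zero_apply, norm_zero]
    positivity
  obtain ⟨m, n, M, hmn, hn, hM, e1, e2, e3⟩ := P.split hk h0 j
  subst hmn
  have hn' : (1:ℝ) ≤ n := by exact_mod_cast hn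
  have hB : 0 ≤ 2 * (CB * A) ^ 2 / tk s d (m + n) := by positivity
  have hc' : Hc c Λ s d κ (m + n) b lam :=
    { P.hc with coef := fun k hk' => P.hc.coef k (by omega) }
  have h1 := word_duh (m := m) (n := n) hc' (u := fun k => (σ k).h j)
    (w := fun k => heat d (src R η (σ k) j)) (B := 2 * (CB * A) ^ 2 / tk s d (m + n))
    (fun k hk' => (P.run.nc k (by omega)).2 j) (fun k hk' => P.w_nc (by omega) j)
    (fun k hk' hmk x => P.w_Q (by omega) j (e3 k hmk) x)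
    (fun k hk' x => P.hstep (by omega) j x) le_rfl hn hB hM l hCT hT
  refine bd_mono h1 ?_
  have h6 : 2 * (CB * A) ^ 2 / tk s d (m + n) * (2 * √(n * d)) ≤
      4 * A / √(tk s d (m + n)) := by
    have h7 : √(tk s d (m + n)) ^ 2 = tk s d (m + n) := Real.sq_sqrt ht.le
    have h8 : (CB * A) ^ 2 ≤ A := by
      have := P.small
      nlinarith
    calc 2 * (CB * A) ^ 2 / tk s d (m + n) * (2 * √(n * d))
        ≤ 2 * A / tk s d (m + n) * (2 * √(tk s d (m + n))) := by gcongr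
      _ = 4 * A / √(tk s d (m + n)) := by
          rw [div_mul_eq_mul_div, div_eq_div_iff ht.ne' hst.ne']
          linear_combination (4 * A) * h7
  calc CT * (1 + 1 / κ) * (M / √(n * d) + 2 * (CB * A) ^ 2 / tk s d (m + n) * (2 * √(n * d)))
      ≤ CT * (1 + 1 / κ) * (4 * A / √(tk s d (m + n)) + 4 * A / √(tk s d (m + n))) := by gcongr
    _ = _ := by ring

end main

end Pool.Agent.TF.Cl
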