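import Pool.Agent.TF.S.Close5

/-!
# Project TF, block S: closing argument (helper55)
-/

set_option autoImplicit false

namespace Pool.Agent.TF.Cl

open MeasureTheory Set Filter Topology Pool.Agent.TO Pool.Agent.TB Pool.Agent.TC Pool.Agent.TP
open scoped ENNReal NNReal Real InnerProductSpace SchwartzMap LineDeriv

/-- the bound of a word with the constant `CT` -/
def WT (CT : ℝ) (T : V3 →L[ℝ] V3) : Prop := ∀ (k : Fin 3) (f : E3 → E3) (A B : ℝ),
  Nc f → (∀ x, ‖f x‖ ≤ A) → (∀ i j x, ‖pd i (pd j f) x‖ ≤ B) → ∀ τ : ℝ, 0 < τ →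
  Bd (T (vL (pd k f))) (CT * (τ * B + A / τ))

theorem WT.mono {C C' : ℝ} {T : V3 →L[ℝ] V3} (h : WT C T) (hC : C ≤ C') : WT C' T := by
  intro k f A B hf hA hB τ hτ
  have hA0 : 0 ≤ A := (norm_nonneg _).trans (hA 0)
  have hB0 : 0 ≤ B := (norm_nonneg _).trans (hB 0 0 0)
  refine bd_mono (h k f A B hf hA hB τ hτ) ?_
  have : 0 ≤ τ * B + A / τ := by positivity
  gcongr

/-- a common constant of the words of length at most two -/
theorem words (hw : StWord) : ∃ CW > 0, ∀ R, RZ R → WT CW (ContinuousLinearMap.id ℝ V3) ∧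
    (∀ j, WT CW (R j)) ∧ ∀ i l, WT CW ((R i).comp (R l)) := by
  have h0 := hw []
  have h1 : ∀ j : Fin 3, ∃ C > 0, ∀ R, RZ R → WT C (R j) := by
    intro j
    obtain ⟨C, hC, h⟩ := hw [j]
    exact ⟨C, hC, fun R hR => h R hR⟩
  have h2 : ∀ p : Fin 3 × Fin 3, ∃ C > 0, ∀ R, RZ R → WT C ((R p.1).comp (R p.2)) := by
    intro p
    obtain ⟨C, hC, h⟩ := hw [p.1, p.2]
    exact ⟨C, hC, fun R hR => h R hR⟩
  obtain ⟨C0, hC0, h0⟩ := h0
  choose C1 hC1 h1 using h1
  choose C2 hC2 h2 using h2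
  have s1 : ∀ j, C1 j ≤ ∑ j, C1 j := fun j =>
    Finset.single_le_sum (f := C1) (fun j _ => (hC1 j).le) (Finset.mem_univ j)
  have s2 : ∀ p, C2 p ≤ ∑ p, C2 p := fun p =>
    Finset.single_le_sum (f := C2) (fun p _ => (hC2 p).le) (Finset.mem_univ p)
  have p1 : 0 ≤ ∑ j, C1 j := Finset.sum_nonneg fun j _ => (hC1 j).le
  have p2 : 0 ≤ ∑ p, C2 p := Finset.sum_nonneg fun p _ => (hC2 p).le
  refine ⟨C0 + ∑ j, C1 j + ∑ p, C2 p, by positivity, fun R hR => ⟨?_, fun j => ?_, fun i l => ?_⟩⟩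
  · have : WT C0 (ContinuousLinearMap.id ℝ V3) := h0 R hR
    exact this.mono (by linarith)
  · exact (h1 j R hR).mono (by linarith [s1 j])
  · exact (h2 (i, l) R hR).mono (by linarith [s2 (i, l)])

theorem bd_sumF {ι : Type*} [Fintype ι] [DecidableEq ι] {f : ι → V3} {a : ℝ} (h : ∀ i, Bd (f i) a) :
    Bd (∑ i, f i) (Fintype.card ι * a) := by
  have key : ∀ s : Finset ι, Bd (∑ i ∈ s, f i) (s.card * a) := by
    intro s
    induction s using Finset.induction_on with
    | empty =>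
      simp only [Finset.sum_empty]
      unfold Bd
      filter_upwards [Lp.coeFn_zero E3 2 (volume : Measure E3)] with x hx
      rw [hx]
      simp
    | insert i s hi ih =>
      rw [Finset.sum_insert hi, Finset.card_insert_of_notMem hi]
      refine bd_mono (bd_add (h i) ih) (le_of_eq ?_)
      push_cast
      ring
  exact key Finset.univ

section main

variable {c Ci CB A L s Λ η d κ CW : ℝ} {R : Fin 3 → V3 →L[ℝ] V3} {K : ℕ} {σ : ℕ → Sta}
  {b : ℕ → E3 → E3} {lam : ℕ → E3 → ℝ}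

theorem Pre.H_bd (P : Pre c Ci CB A L s Λ η d κ R K σ b lam) {k : ℕ} (hk : k ≤ K) (hCW : 0 < CW)
    (h0 : WT CW (ContinuousLinearMap.id ℝ V3)) (h1 : ∀ j, WT CW (R j))
    (h2 : ∀ i l, WT CW ((R i).comp (R l))) :
    Bd (Hh R (σ k)) ((12 * (CW * ((1 + 4 * Ci) / κ + 1)) + 240 * (CW * (1 + 1 / κ))) * A /
      √(tk s d k) + L) := by
  have hκ := P.hc.κ0
  have hA := P.A0
  have ht := P.hc.tpos k
  have hst : 0 < √(tk s d k) := Real.sqrt_pos.2 ht
  -- the data
  have b1 : Bd (∑ i, ∑ j, To R j (vL (pd i ((σ k).g i j))))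
      (12 * (CW * ((1 + 4 * Ci) / κ + 1) * A / √(tk s d k))) := by
    have e : ∀ i j, Bd (To R j (vL (pd i ((σ k).g i j))))
        (CW * ((1 + 4 * Ci) / κ + 1) * A / √(tk s d k)) := by
      intro i j
      cases j with
      | none => exact P.wg hk i none i (T := ContinuousLinearMap.id ℝ V3) (h0 i)
      | some j => exact P.wg hk i (some j) i (T := R j) (h1 j i)
    have e2 := bd_sumF fun i => bd_sumF fun j => e i j
    refine bd_mono e2 (le_of_eq ?_)
    simp only [Fintype.card_fin, Fintype.card_option]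
    push_cast
    ring
  -- the nonlinear term
  set a := CW * (1 + 1 / κ) * 8 * A / √(tk s d k) with ha
  have b2 : Bd (∑ i, vL (pd i ((σ k).h i))) (3 * a) :=
    bd_sum3 fun i => P.wh hk i i hCW.le (T := ContinuousLinearMap.id ℝ V3) (h0 i)
  have b3 : ∀ i l, Bd (R i (R l (PM l i (∑ i, vL (pd i ((σ k).h i)))))) (3 * a) := by
    intro i l
    rw [P.rz.pm, P.rz.pm, map_sum, map_sum]
    exact bd_PM l i (bd_sum3 fun m => P.wh hk m m hCW.le (T := (R i).comp (R l)) (h2 i l m))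
  have b4 : Bd (LP R (∑ i, vL (pd i ((σ k).h i)))) (30 * a) := by
    unfold LP
    refine bd_mono (bd_add b2 (bd_sumF fun i => bd_sumF fun l => b3 i l)) (le_of_eq ?_)
    simp only [Fintype.card_fin]
    push_cast
    ring
  unfold Hh
  refine bd_mono (bd_add (bd_add b1 b4) (P.l_bd hk)) (le_of_eq ?_)
  rw [ha]
  ring

end main

/-- the closing argument -/
theorem stSup (hB : StB) (hB0 : StB0) (hw : StWord) (hQ : StQ) : StSup := by
  intro c hc Ci hCi
  obtain ⟨κ, hκ, hκ1, hB⟩ := hB c hc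
  obtain ⟨CW, hCW, hW⟩ := words hw
  -- the constants
  set C1 : ℝ := (9 + 4 * Ci) / √κ with hC1
  have hsκ : 0 < √κ := Real.sqrt_pos.2 hκ
  have hC1p : 0 < C1 := by positivity
  set CH : ℝ := 12 * (CW * ((1 + 4 * Ci) / κ + 1)) + 240 * (CW * (1 + 1 / κ)) with hCH
  have hCHp : 0 < CH := by positivity
  set CB : ℝ := CH + 1 + C1 with hCB
  have hCBp : 0 < CB := by positivity
  have hZ := cZ_pos
  set ϑ : ℝ := min 1 (1 / (12 * C1 * cZ)) with hϑ
  have hϑ0 : 0 < ϑ := by
    rw [hϑ]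
    exact lt_min one_pos (by positivity)
  have hϑ1 : ϑ ≤ 1 := min_le_left _ _
  have hϑ2 : ϑ * (12 * C1 * cZ) ≤ 1 := by
    have h1 : ϑ ≤ 1 / (12 * C1 * cZ) := min_le_right _ _
    rwa [le_div_iff₀ (by positivity)] at h1
  obtain ⟨CQ, hCQ, A₁, hA₁, hQ⟩ := hQ c hc Ci hCi CB hCBp C1 hC1p ϑ hϑ0 hϑ1
  refine ⟨CB, hCBp, min A₁ (min (1 / CB ^ 2) (1 / (4 * CQ))), by positivity,
    fun A hA hAle L hL => ?_⟩
  have hA1 : A ≤ A₁ := hAle.trans (min_le_left _ _)
  have hA2 : CB ^ 2 * A ≤ 1 := by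
    have h1 : A ≤ 1 / CB ^ 2 := hAle.trans ((min_le_right _ _).trans (min_le_left _ _))
    rw [le_div_iff₀ (by positivity)] at h1
    linarith
  have hA3 : CQ * A ≤ 1 / 4 := by
    have h1 : A ≤ 1 / (4 * CQ) := hAle.trans ((min_le_right _ _).trans (min_le_right _ _))
    rw [le_div_iff₀ (by positivity)] at h1
    linarith
  obtain ⟨T₁, hT₁, hT₁1, hQ⟩ := hQ A hA hA1 L hL
  refine ⟨min T₁ ((A / L) ^ 2), by positivity, (min_le_left _ _).trans hT₁1,
    fun s hs hsT Λ hΛ => ?_⟩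
  obtain ⟨η₁, hη₁, hQ⟩ := hQ s hs (hsT.trans_le (min_le_left _ _)) Λ hΛ
  refine ⟨η₁, hη₁, fun η hη hηη => ?_⟩
  obtain ⟨d₁, hd₁, hQ⟩ := hQ η hη hηη
  refine ⟨min d₁ (min s (1 / (4 * Λ))), by positivity, fun d hd hdd R hR K σ b lam hK hini hrun
    hh hHb => ?_⟩
  have hd1 : d < d₁ := hdd.trans_le (min_le_left _ _)
  have hd2 : d ≤ s := hdd.le.trans ((min_le_right _ _).trans (min_le_left _ _))
  have hd3 : d * Λ ≤ 1 / 4 := by
    have h1 : d ≤ 1 / (4 * Λ) := hdd.le.trans ((min_le_right _ _).trans (min_le_right _ _))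
    rw [le_div_iff₀ (by positivity)] at h1
    linarith
  obtain ⟨w0, w1, w2⟩ := hW R hR
  have P : Pre c Ci CB A L s Λ η d κ R K σ b lam :=
    { hc := ⟨stNc, hB0, hB, hκ, hκ1, hs, hd, hd3, hrun.coef⟩
      rz := hR
      η0 := hη
      A0 := hA
      Ci0 := hCi
      L0 := hL.le
      ds := hd2
      ini := hini
      run := hrun
      h2 := hh
      hb := hHb
      CB0 := hCBp.le
      small := hA2 }
  have htK := P.hc.tpos K
  have hsK : 0 < √(tk s d K) := Real.sqrt_pos.2 htK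
  -- the first derivatives
  have hdv : ∀ k ≤ K, SupS1 (C1 * A / √(tk s d k)) (σ k) := by
    intro k hk
    have hst : 0 < √(tk s d k) := Real.sqrt_pos.2 (P.hc.tpos k)
    refine ⟨fun i j l x => (P.dg hk i j l x).trans ?_, fun j l x => (P.dh hk j l x).trans ?_⟩
    · have : (1 + 4 * Ci) / √κ ≤ C1 := by
        rw [hC1]
        gcongr
        linarith
      gcongr
    · have : 8 / √κ ≤ C1 := by
        rw [hC1]
        gcongr
        linarith
      gcongr
  have S : Sit c Ci CB C1 A L s Λ η d R K σ b lam :=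
    { ini := hini
      run := hrun
      g0 := fun k hk i j x => P.g_sup hk i j x
      h0 := hh
      hb := hHb
      dv := hdv }
  have hq := hQ d hd hd1 R hR K σ b lam (hK.trans (min_le_left _ _)) S
  refine ⟨⟨fun i j x => P.g_sup le_rfl i j x, fun j x => ?_⟩, ?_, ?_, ?_⟩
  · -- the bound of `h`
    have hn := (hrun.nc K le_rfl).2 j
    have hρ : 0 < ϑ * √(tk s d K) := by positivity
    have h1 := zst hρ (hn.c2.of_le (by norm_num)) hn.b0 (fun i x => (hdv K le_rfl).2 j i x) x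
    have h2 := hq j x
    have h3 : 3 * (C1 * A / √(tk s d K)) * cZ * (ϑ * √(tk s d K)) =
        A * (ϑ * (12 * C1 * cZ)) / 4 := by
      field_simp
      ring
    rw [h3] at h1
    have h4 : A * (ϑ * (12 * C1 * cZ)) ≤ A * 1 := by gcongr
    have h5 : CQ * A ^ 2 ≤ 1 / 4 * A := by
      calc CQ * A ^ 2 = (CQ * A) * A := by ring
        _ ≤ 1 / 4 * A := by gcongr
    linarith
  · -- the bound of the field
    refine bd_mono (P.H_bd le_rfl hCW w0 w1 w2) ?_
    have hL1 : L ≤ A / √(tk s d K) := by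
      rw [le_div_iff₀ hsK]
      have h6 : √(tk s d K) ≤ A / L := by
        rw [Real.sqrt_le_left (by positivity)]
        exact hK.trans (min_le_right _ _)
      rw [le_div_iff₀ hL] at h6
      linarith
    calc (12 * (CW * ((1 + 4 * Ci) / κ + 1)) + 240 * (CW * (1 + 1 / κ))) * A / √(tk s d K) + L
        ≤ CH * A / √(tk s d K) + A / √(tk s d K) := by
          rw [← hCH]
          gcongr
      _ = (CH + 1) * A / √(tk s d K) := by ring
      _ ≤ CB * A / √(tk s d K) := by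
          have : CH + 1 ≤ CB := by linarith
          gcongr
  · intro i j l x
    refine ((hdv K le_rfl).1 i j l x).trans ?_
    have : C1 ≤ CB := by linarith
    gcongr
  · intro j l x
    refine ((hdv K le_rfl).2 j l x).trans ?_
    have : C1 ≤ CB := by linarith
    gcongr

end Pool.Agent.TF.Cl
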