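import Pool.Agent.TF.Flow

/-!
# Block S: derivatives of averages and the variance inequality
-/

set_option autoImplicit false

namespace Pool.Agent.TF

open MeasureTheory Set Filter Topology Pool.Agent.TO Pool.Agent.TB Pool.Agent.TC Pool.Agent.TP
open scoped ENNReal NNReal Real InnerProductSpace SchwartzMap LineDeriv

section conv

variable {F : Type*} [NormedAddCommGroup F] [NormedSpace ℝ F] {k : E3 → ℝ} {f : E3 → F}

/-- integrability of the convolution with a bounded continuous function -/
theorem sv_int (hk : Integrable k (volume : Measure E3)) (hf : Continuous f)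
    {C : ℝ} (hb : ∀ x, ‖f x‖ ≤ C) (x : E3) :
    Integrable (fun y => k y • f (x - y)) (volume : Measure E3) := by
  refine Integrable.mono' (hk.norm.const_mul C)
    (hk.aestronglyMeasurable.smul (hf.comp (continuous_const.sub continuous_id)).aestronglyMeasurable)
    (Eventually.of_forall fun y => ?_)
  rw [norm_smul, mul_comm]
  gcongr
  exact hb _

/-- convolutions with bounded continuous functions are continuous -/
theorem sv_cont (hk : Integrable k (volume : Measure E3)) (hf : Continuous f)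
    {C : ℝ} (hb : ∀ x, ‖f x‖ ≤ C) : Continuous (cvf k f) := by
  unfold cvf
  refine continuous_of_dominated (bound := fun y => C * ‖k y‖) ?_ ?_ (hk.norm.const_mul C) ?_
  · intro x
    exact (sv_int hk hf hb x).aestronglyMeasurable
  · intro x
    refine Eventually.of_forall fun y => ?_
    rw [norm_smul, mul_comm]
    gcongr
    exact hb _
  · refine Eventually.of_forall fun y => ?_
    exact (hf.comp (continuous_id.sub continuous_const)).const_smul _

/-- bound of the convolution -/
theorem sv_bd (hk : Integrable k (volume : Measure E3)) {C : ℝ} (hb : ∀ x, ‖f x‖ ≤ C) (x : E3) :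
    ‖cvf k f x‖ ≤ C * ∫ y, |k y| := by
  unfold cvf
  refine (norm_integral_le_of_norm_le (hk.norm.const_mul C)
    (Eventually.of_forall fun y => ?_)).trans (le_of_eq ?_)
  · rw [norm_smul, mul_comm]
    gcongr
    exact hb _
  · rw [integral_const_mul]
    rfl

/-- the derivative of a convolution falls on the function -/
theorem sv_deriv (hk : Integrable k (volume : Measure E3)) (hf : ContDiff ℝ 1 f)
    {C C' : ℝ} (hb : ∀ x, ‖f x‖ ≤ C) (hb' : ∀ x, ‖fderiv ℝ f x‖ ≤ C') (x : E3) :
    HasFDerivAt (cvf k f) (cvf k (fderiv ℝ f) x) x := by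
  have hd : ∀ z, HasFDerivAt f (fderiv ℝ f z) z := fun z =>
    (hf.differentiable one_ne_zero z).hasFDerivAt
  unfold cvf
  refine hasFDerivAt_integral_of_dominated_of_fderiv_le
    (F := fun x y => k y • f (x - y)) (F' := fun x y => k y • fderiv ℝ f (x - y))
    (bound := fun y => C' * ‖k y‖) (s := univ) univ_mem ?_ (sv_int hk hf.continuous hb x)
    (sv_int hk (hf.continuous_fderiv one_ne_zero) hb' x).aestronglyMeasurable ?_
    (hk.norm.const_mul C') ?_
  · exact Eventually.of_forall fun z => (sv_int hk hf.continuous hb z).aestronglyMeasurable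
  · refine Eventually.of_forall fun y z _ => ?_
    rw [norm_smul, mul_comm]
    gcongr
    exact hb' _
  · refine Eventually.of_forall fun y z _ => ?_
    have h1 : HasFDerivAt (fun z : E3 => z - y) (ContinuousLinearMap.id ℝ E3) z :=
      (hasFDerivAt_id z).sub_const y
    have h2 : HasFDerivAt (fun z => f (z - y)) ((fderiv ℝ f (z - y)).comp
      (ContinuousLinearMap.id ℝ E3)) z := (hd (z - y)).comp z h1
    exact HasFDerivAt.congr_fderiv (f := fun z => k y • f (z - y)) (h2.const_smul (k y)) rfl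

/-- partial derivatives of a convolution -/
theorem sv_pd (hk : Integrable k (volume : Measure E3)) (hf : ContDiff ℝ 1 f)
    {C C' : ℝ} (hb : ∀ x, ‖f x‖ ≤ C) (hb' : ∀ x, ‖fderiv ℝ f x‖ ≤ C') (i : Fin 3) (x : E3) :
    pd i (cvf k f) x = cvf k (pd i f) x := by
  rw [pd, (sv_deriv hk hf hb hb' x).fderiv]
  unfold cvf
  rw [ContinuousLinearMap.integral_apply (sv_int hk (hf.continuous_fderiv one_ne_zero) hb' x)]
  rfl

/-- convolutions are `C¹` -/
theorem sv_c1 (hk : Integrable k (volume : Measure E3)) (hf : ContDiff ℝ 1 f)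
    {C C' : ℝ} (hb : ∀ x, ‖f x‖ ≤ C) (hb' : ∀ x, ‖fderiv ℝ f x‖ ≤ C') :
    ContDiff ℝ 1 (cvf k f) := by
  rw [contDiff_one_iff_fderiv]
  refine ⟨fun x => (sv_deriv hk hf hb hb' x).differentiableAt, ?_⟩
  have h : fderiv ℝ (cvf k f) = cvf k (fderiv ℝ f) := by
    ext1 x
    exact (sv_deriv hk hf hb hb' x).fderiv
  rw [h]
  exact sv_cont hk (hf.continuous_fderiv one_ne_zero) hb'

/-- convolutions are `C²` -/
theorem sv_c2 (hk : Integrable k (volume : Measure E3)) (hf : ContDiff ℝ 2 f)
    {C C' C'' : ℝ} (hb : ∀ x, ‖f x‖ ≤ C) (hb' : ∀ x, ‖fderiv ℝ f x‖ ≤ C')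
    (hb'' : ∀ x, ‖fderiv ℝ (fderiv ℝ f) x‖ ≤ C'') : ContDiff ℝ 2 (cvf k f) := by
  have h1 : ContDiff ℝ 1 f := hf.of_le one_le_two
  have h : fderiv ℝ (cvf k f) = cvf k (fderiv ℝ f) := by
    ext1 x
    exact (sv_deriv hk h1 hb hb' x).fderiv
  have h2 : ContDiff ℝ 1 (fderiv ℝ f) := hf.fderiv_right (m := 1) (by norm_num)
  have e : (2 : WithTop ℕ∞) = 1 + 1 := by norm_num
  rw [e, contDiff_succ_iff_fderiv]
  refine ⟨fun x => (sv_deriv hk h1 hb hb' x).differentiableAt, by simp, ?_⟩
  rw [h]
  exact sv_c1 hk h2 hb' hb''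

end conv

end Pool.Agent.TF
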