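import Pool.Agent.TF.S.HeatK2
import Pool.Agent.TF.S.Var

/-!
# Block S: the heat flow of bounded functions, part 2 (semigroup, Bessel's inequality, Bernstein)
-/

set_option autoImplicit false

namespace Pool.Agent.TF

open MeasureTheory Set Filter Topology Pool.Agent.TO Pool.Agent.TB Pool.Agent.TC Pool.Agent.TP
open scoped ENNReal NNReal Real InnerProductSpace SchwartzMap LineDeriv

variable {s t : ℝ}

/-! ### (H1) The semigroup property -/

private theorem sb_id (hs : 0 < s) (ht : 0 < t) (y z : E3) :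
    hk s y * hk t (z - y) = hk (s + t) z * hk (s * t / (s + t)) (y - (s / (s + t)) • z) := by
  have hp := Real.pi_pos
  have hst : 0 < s + t := by positivity
  have e1 : (4 * π * s) ^ (-(3 / 2) : ℝ) * (4 * π * t) ^ (-(3 / 2) : ℝ) =
      (4 * π * (s + t)) ^ (-(3 / 2) : ℝ) * (4 * π * (s * t / (s + t))) ^ (-(3 / 2) : ℝ) := by
    rw [← Real.mul_rpow (by positivity) (by positivity),
      ← Real.mul_rpow (by positivity) (by positivity)]
    congr 1
    field_simp
  have e2 : -‖y‖ ^ 2 / (4 * s) + -‖z - y‖ ^ 2 / (4 * t) =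
      -‖z‖ ^ 2 / (4 * (s + t)) + -‖y - (s / (s + t)) • z‖ ^ 2 / (4 * (s * t / (s + t))) := by
    rw [norm_sub_sq_real, norm_sub_sq_real, norm_smul, Real.norm_of_nonneg (by positivity),
      inner_smul_right, real_inner_comm y z]
    field_simp
    ring
  unfold hk
  calc (4 * π * s) ^ (-(3 / 2) : ℝ) * Real.exp (-‖y‖ ^ 2 / (4 * s)) *
      ((4 * π * t) ^ (-(3 / 2) : ℝ) * Real.exp (-‖z - y‖ ^ 2 / (4 * t))) =
      ((4 * π * s) ^ (-(3 / 2) : ℝ) * (4 * π * t) ^ (-(3 / 2) : ℝ)) *
        Real.exp (-‖y‖ ^ 2 / (4 * s) + -‖z - y‖ ^ 2 / (4 * t)) := by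
        rw [Real.exp_add]
        ring
    _ = _ := by
        rw [e1, e2, Real.exp_add]
        ring

private theorem sb_conv_hk (hs : 0 < s) (ht : 0 < t) (z : E3) :
    ∫ y, hk s y * hk t (z - y) = hk (s + t) z := by
  simp only [sb_id hs ht]
  rw [integral_const_mul, integral_sub_right_eq_self (hk (s * t / (s + t))),
    integral_hk (by positivity), mul_one]

section

variable {F : Type*} [NormedAddCommGroup F] [NormedSpace ℝ F] [CompleteSpace F] {f : E3 → F}
  {M : ℝ}

/-- (H1) the semigroup property -/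
theorem sb_heat_heat (hs : 0 < s) (ht : 0 < t) (hf : StronglyMeasurable f) (hM : ∀ x, ‖f x‖ ≤ M)
    (x : E3) : heat s (heat t f) x = heat (s + t) f x := by
  have e1 : ∀ y : E3, heat t f (x - y) = ∫ z, hk t (z - y) • f (x - z) := by
    intro y
    unfold heat
    rw [← integral_sub_right_eq_self (fun w => hk t w • f (x - y - w)) y]
    congr 1
    ext1 z
    rw [show x - y - (z - y) = x - z by abel]
  have e2 : heat s (heat t f) x = ∫ y, ∫ z, (hk s y * hk t (z - y)) • f (x - z) := by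
    have : heat s (heat t f) x = ∫ y, hk s y • heat t f (x - y) := rfl
    rw [this]
    congr 1
    ext1 y
    rw [e1, ← integral_smul]
    congr 1
    ext1 z
    rw [mul_smul]
  have i1 : Integrable (fun p : E3 × E3 => hk s p.2 * hk t (p.1 - p.2))
      ((volume : Measure E3).prod (volume : Measure E3)) :=
    (integrable_hk hs).convolution_integrand (ContinuousLinearMap.mul ℝ ℝ) (integrable_hk ht)
  have i2 : Integrable (fun p : E3 × E3 => (hk s p.1 * hk t (p.2 - p.1)) • f (x - p.2))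
      ((volume : Measure E3).prod (volume : Measure E3)) := by
    refine Integrable.mono' (i1.swap.norm.const_mul M) ?_ (Eventually.of_forall fun p => ?_)
    · exact i1.swap.aestronglyMeasurable.smul
        (hf.comp_measurable (measurable_const.sub measurable_snd)).aestronglyMeasurable
    · rw [norm_smul, mul_comm]
      exact mul_le_mul_of_nonneg_right (hM _) (norm_nonneg _)
  rw [e2, integral_integral_swap i2]
  unfold heat
  congr 1
  ext1 z
  rw [integral_smul_const, sb_conv_hk hs ht]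

end

/-! ### (H3) The derivative falls on the function -/

theorem sb_norm_fderiv_le {F : Type*} [NormedAddCommGroup F] [NormedSpace ℝ F] (f : E3 → F)
    (x : E3) : ‖fderiv ℝ f x‖ ≤ ∑ i, ‖pd i f x‖ := by
  refine ContinuousLinearMap.opNorm_le_bound _ (by positivity) fun v => ?_
  have hv : v = ∑ i, v i • (ee i : E3) := by
    have := (EuclideanSpace.basisFun (Fin 3) ℝ).sum_repr v
    simpa using this.symm
  have h1 : fderiv ℝ f x v = ∑ i, v i • pd i f x := by
    conv_lhs => rw [hv]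
    rw [map_sum]
    simp only [map_smul]
    rfl
  rw [h1, Finset.sum_mul]
  refine (norm_sum_le _ _).trans (Finset.sum_le_sum fun i _ => ?_)
  rw [norm_smul, mul_comm]
  gcongr
  exact abs_coord_le v i

/-- (H3) -/
theorem sb_pd_heat_comm {F : Type*} [NormedAddCommGroup F] [NormedSpace ℝ F] {f : E3 → F}
    (hs : 0 < s) (hf : ContDiff ℝ 1 f) {M M' : ℝ} (hM : ∀ x, ‖f x‖ ≤ M)
    (hM' : ∀ i x, ‖pd i f x‖ ≤ M') (i : Fin 3) (x : E3) :
    pd i (heat s f) x = heat s (pd i f) x := by
  have h1 : ∀ x, ‖fderiv ℝ f x‖ ≤ 3 * M' := by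
    intro x
    refine (sb_norm_fderiv_le f x).trans ?_
    refine (Finset.sum_le_sum fun i _ => hM' i x).trans (le_of_eq ?_)
    simp
  exact sv_pd (integrable_hk hs) hf hM h1 i x

/-! ### Gaussian moments -/

theorem sb_moment_one (i : Fin 3) : ∫ y : E3, hk s y * y i = 0 := by
  have h := integral_neg_eq_self (fun y : E3 => hk s y * y i) (volume : Measure E3)
  have h2 : ∫ y : E3, hk s (-y) * (-y) i = -∫ y : E3, hk s y * y i := by
    rw [← integral_neg]
    congr 1
    ext1 y
    rw [hk_neg]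
    simp
  rw [h2] at h
  linarith

theorem sb_moment_two (hs : 0 < s) (i j : Fin 3) :
    ∫ y : E3, hk s y * (y i * y j) = if i = j then 2 * s else 0 := by
  have hc : ∀ (k : Fin 3) (y : E3), ‖y k‖ ≤ 1 * (1 + ‖y‖) ^ 2 := by
    intro k y
    have := abs_coord_le y k
    rw [Real.norm_eq_abs]
    nlinarith [norm_nonneg y]
  have hc2 : ∀ y : E3, ‖y i * y j‖ ≤ 1 * (1 + ‖y‖) ^ 2 := by
    intro y
    have h1 := abs_coord_le y i
    have h2 := abs_coord_le y j
    rw [norm_mul, Real.norm_eq_abs, Real.norm_eq_abs]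
    nlinarith [norm_nonneg y, abs_nonneg (y i), abs_nonneg (y j)]
  have i1 : Integrable (fun y : E3 => hk s y • y j) (volume : Measure E3) :=
    sb_int_poly hs (continuous_coord j).aestronglyMeasurable (hc j)
  have i2 : Integrable (fun y : E3 => hk s y • (y i * y j)) (volume : Measure E3) :=
    sb_int_poly hs (by fun_prop) hc2
  have hd : ∀ y : E3, fderiv ℝ (hk s) y (ee i) = -(2 * s)⁻¹ * hk s y * y i := fun y =>
    sb_fderiv_hk hs y i
  have hd2 : ∀ y : E3, fderiv ℝ (fun y : E3 => y j) y (ee i) = if i = j then 1 else 0 := by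
    intro y
    rw [(hasFDerivAt_coord j y).fderiv]
    exact ee_apply i j
  have key := integral_mul_fderiv_eq_neg_fderiv_mul_of_integrable (μ := (volume : Measure E3))
    (f := fun y : E3 => y j) (g := hk s) (v := ee i) (by
      simp only [hd2]
      exact (integrable_hk hs).const_mul _) (by
      simp only [hd]
      refine (i2.const_mul (-(2 * s)⁻¹)).congr (Eventually.of_forall fun y => ?_)
      simp only [smul_eq_mul]
      ring) (by
      refine i1.congr (Eventually.of_forall fun y => ?_)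
      simp only [smul_eq_mul]
      ring) (fun y _ => (hasFDerivAt_coord j y).differentiableAt)
      (fun y _ => (sb_hasFDerivAt_hk hs y).differentiableAt)
  simp only [hd, hd2] at key
  have e1 : ∫ y : E3, y j * (-(2 * s)⁻¹ * hk s y * y i) =
      -(2 * s)⁻¹ * ∫ y : E3, hk s y * (y i * y j) := by
    rw [← integral_const_mul]
    congr 1
    ext1 y
    ring
  rw [e1, integral_const_mul, integral_hk hs] at key
  have h2 : (2 * s)⁻¹ * ∫ y : E3, hk s y * (y i * y j) = if i = j then 1 else 0 := by linarith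
  have h3 : ∫ y : E3, hk s y * (y i * y j) = 2 * s * if i = j then 1 else 0 := by
    rw [← h2]
    field_simp
  rw [h3, mul_ite, mul_one, mul_zero]

/-! ### (H4) Bessel's inequality -/

private theorem sb_lin {T0 T1 T2 T3 T4 T5 : E3 → ℝ} (h0 : Integrable T0 (volume : Measure E3))
    (h1 : Integrable T1 (volume : Measure E3)) (h2 : Integrable T2 (volume : Measure E3))
    (h3 : Integrable T3 (volume : Measure E3)) (h4 : Integrable T4 (volume : Measure E3))
    (h5 : Integrable T5 (volume : Measure E3)) :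
    ∫ y, ((T0 y - (T1 y + T2 y)) + ((T3 y + T4 y) + T5 y)) =
      ((∫ y, T0 y) - ((∫ y, T1 y) + ∫ y, T2 y)) + (((∫ y, T3 y) + ∫ y, T4 y) + ∫ y, T5 y) := by
  have a1 := integral_add (h0.sub (h1.add h2)) ((h3.add h4).add h5)
  have a2 := integral_sub h0 (h1.add h2)
  have a3 := integral_add h1 h2
  have a4 := integral_add (h3.add h4) h5
  have a5 := integral_add h3 h4
  simp only [Pi.sub_apply, Pi.add_apply] at a1 a2 a3 a4 a5
  rw [a1, a2, a3, a4, a5]

section bessel

variable {F : Type*} [NormedAddCommGroup F] [InnerProductSpace ℝ F] [CompleteSpace F] {f : E3 → F}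
  {M : ℝ}

/-- (H4) -/
theorem sb_bessel (hs : 0 < s) (hf : StronglyMeasurable f) (hM : ∀ x, ‖f x‖ ≤ M) (x : E3) :
    ‖heat s f x‖ ^ 2 + 2 * s * ∑ i, ‖pd i (heat s f) x‖ ^ 2 ≤ heat s (fun y => ‖f y‖ ^ 2) x := by
  have hM0 : 0 ≤ M := (norm_nonneg _).trans (hM 0)
  obtain ⟨g, hg⟩ : ∃ g : E3 → F, g = fun y => f (x - y) := ⟨_, rfl⟩
  have hgm : AEStronglyMeasurable g (volume : Measure E3) := by
    rw [hg]
    exact (hf.comp_measurable (measurable_const.sub measurable_id)).aestronglyMeasurable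
  have hgM : ∀ y, ‖g y‖ ≤ M := by
    intro y
    rw [hg]
    exact hM _
  have hc : ∀ (k : Fin 3) (y : E3), ‖y k‖ ≤ (1 + ‖y‖) ^ 2 := by
    intro k y
    have := abs_coord_le y k
    rw [Real.norm_eq_abs]
    nlinarith [norm_nonneg y]
  have h1q : ∀ y : E3, (1:ℝ) ≤ (1 + ‖y‖) ^ 2 := fun y => by nlinarith [norm_nonneg y]
  -- the moments of `g`
  obtain ⟨m, hm⟩ : ∃ m : F, m = ∫ y, hk s y • g y := ⟨_, rfl⟩
  obtain ⟨v, hv⟩ : ∃ v : Fin 3 → F, v = fun i => ∫ y : E3, (y i * hk s y) • g y := ⟨_, rfl⟩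
  have Ig : Integrable (fun y => hk s y • g y) (volume : Measure E3) := by
    refine sb_int_poly hs hgm (C := M) fun y => ?_
    have := h1q y
    have := hgM y
    nlinarith
  have Iv : ∀ i, Integrable (fun y : E3 => (y i * hk s y) • g y) (volume : Measure E3) := by
    intro i
    have h1 : Integrable (fun y : E3 => hk s y • (y i • g y)) (volume : Measure E3) := by
      refine sb_int_poly hs ((continuous_coord i).aestronglyMeasurable.smul hgm) (C := M)
        fun y => ?_
      rw [norm_smul, mul_comm]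
      exact mul_le_mul (hgM y) (hc i y) (norm_nonneg _) hM0
    refine h1.congr (Eventually.of_forall fun y => ?_)
    simp only
    rw [smul_smul, mul_comm]
  have I0 : Integrable (fun y => hk s y * ‖g y‖ ^ 2) (volume : Measure E3) := by
    refine sb_int_poly (F := ℝ) hs (hgm.norm.pow 2) (C := M ^ 2) fun y => ?_
    rw [norm_pow, norm_norm]
    have h2 : ‖g y‖ ^ 2 ≤ M ^ 2 := by gcongr; exact hgM y
    nlinarith [h1q y, sq_nonneg M]
  have I1 : Integrable (fun y => ⟪m, hk s y • g y⟫_ℝ) (volume : Measure E3) := Ig.const_inner m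
  have I2 : ∀ i, Integrable (fun y : E3 => ⟪v i, (y i * hk s y) • g y⟫_ℝ) (volume : Measure E3) :=
    fun i => (Iv i).const_inner (v i)
  have I3 : Integrable (hk s) (volume : Measure E3) := integrable_hk hs
  have I4 : ∀ i, Integrable (fun y : E3 => hk s y * y i) (volume : Measure E3) := fun i =>
    sb_int_poly (F := ℝ) hs (continuous_coord i).aestronglyMeasurable (C := 1)
      fun y => by rw [one_mul]; exact hc i y
  have I5 : ∀ i j, Integrable (fun y : E3 => hk s y * (y i * y j)) (volume : Measure E3) := by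
    intro i j
    refine sb_int_poly (F := ℝ) hs (by fun_prop) (C := 1) fun y => ?_
    have h1 := abs_coord_le y i
    have h2 := abs_coord_le y j
    rw [norm_mul, Real.norm_eq_abs, Real.norm_eq_abs]
    nlinarith [norm_nonneg y, abs_nonneg (y i), abs_nonneg (y j)]
  have J2 : Integrable (fun y : E3 => ∑ i, ⟪v i, (y i * hk s y) • g y⟫_ℝ)
      (volume : Measure E3) := integrable_finsetSum _ fun i _ => I2 i
  have J4 : Integrable (fun y : E3 => ∑ i, ⟪m, v i⟫_ℝ * (hk s y * y i)) (volume : Measure E3) :=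
    integrable_finsetSum _ fun i _ => (I4 i).const_mul _
  have J5 : Integrable (fun y : E3 => ∑ i, ∑ j, ⟪v i, v j⟫_ℝ * (hk s y * (y i * y j)))
      (volume : Measure E3) :=
    integrable_finsetSum _ fun i _ => integrable_finsetSum _ fun j _ => (I5 i j).const_mul _
  -- the square
  have key : ∀ y : E3, hk s y * ‖g y - (m + (2 * s)⁻¹ • ∑ i, y i • v i)‖ ^ 2 =
      (hk s y * ‖g y‖ ^ 2 - (2 * ⟪m, hk s y • g y⟫_ℝ +
        (2 * (2 * s)⁻¹) * ∑ i, ⟪v i, (y i * hk s y) • g y⟫_ℝ)) +
      ((‖m‖ ^ 2 * hk s y + (2 * (2 * s)⁻¹) * ∑ i, ⟪m, v i⟫_ℝ * (hk s y * y i)) +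
        ((2 * s)⁻¹) ^ 2 * ∑ i, ∑ j, ⟪v i, v j⟫_ℝ * (hk s y * (y i * y j))) := by
    intro y
    have a1 : ⟪g y, m + (2 * s)⁻¹ • ∑ i, y i • v i⟫_ℝ =
        ⟪m, g y⟫_ℝ + (2 * s)⁻¹ * ∑ i, y i * ⟪v i, g y⟫_ℝ := by
      rw [inner_add_right, inner_smul_right, inner_sum, real_inner_comm]
      congr 2
      refine Finset.sum_congr rfl fun i _ => ?_
      rw [inner_smul_right, real_inner_comm]
    have a2 : ‖m + (2 * s)⁻¹ • ∑ i, y i • v i‖ ^ 2 = ‖m‖ ^ 2 +
        2 * ((2 * s)⁻¹ * ∑ i, y i * ⟪m, v i⟫_ℝ) +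
        ((2 * s)⁻¹) ^ 2 * ∑ i, ∑ j, (y i * y j) * ⟪v i, v j⟫_ℝ := by
      rw [norm_add_sq_real, inner_smul_right, inner_sum, norm_smul, mul_pow, Real.norm_eq_abs,
        sq_abs, ← real_inner_self_eq_norm_sq (∑ i, y i • v i), sum_inner]
      congr 1
      · congr 3
        refine Finset.sum_congr rfl fun i _ => ?_
        rw [inner_smul_right]
      · congr 1
        refine Finset.sum_congr rfl fun i _ => ?_
        rw [inner_sum]
        refine Finset.sum_congr rfl fun j _ => ?_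
        rw [inner_smul_left, inner_smul_right]
        simp only [conj_trivial]
        ring
    rw [norm_sub_sq_real, a1, a2]
    simp only [inner_smul_right, Finset.mul_sum]
    simp only [Fin.sum_univ_three]
    ring
  have hpos : 0 ≤ ∫ y : E3, hk s y * ‖g y - (m + (2 * s)⁻¹ • ∑ i, y i • v i)‖ ^ 2 :=
    integral_nonneg fun y => mul_nonneg (hk_pos hs y).le (sq_nonneg _)
  simp only [key] at hpos
  rw [sb_lin I0 (I1.const_mul _) (J2.const_mul _) (I3.const_mul _) (J4.const_mul _)
    (J5.const_mul _)] at hpos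
  simp only [integral_const_mul] at hpos
  rw [integral_finsetSum _ fun i _ => I2 i,
    integral_finsetSum _ fun i _ => (I4 i).const_mul _,
    integral_finsetSum _ fun i _ => integrable_finsetSum _ fun j _ => (I5 i j).const_mul _]
    at hpos
  have s5 : ∀ i : Fin 3, ∫ y : E3, ∑ j, ⟪v i, v j⟫_ℝ * (hk s y * (y i * y j)) =
      2 * s * ‖v i‖ ^ 2 := by
    intro i
    rw [integral_finsetSum _ fun j _ => (I5 i j).const_mul _]
    simp only [integral_const_mul, sb_moment_two hs]
    rw [Finset.sum_eq_single i]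
    · rw [if_pos rfl, real_inner_self_eq_norm_sq]
      ring
    · intro j _ hj
      rw [if_neg (Ne.symm hj), mul_zero]
    · simp
  have s2 : ∀ i : Fin 3, ∫ y : E3, ⟪v i, (y i * hk s y) • g y⟫_ℝ = ‖v i‖ ^ 2 := by
    intro i
    rw [integral_inner (Iv i), ← real_inner_self_eq_norm_sq]
    congr 1
    rw [hv]
  have s1 : ∫ y : E3, ⟪m, hk s y • g y⟫_ℝ = ‖m‖ ^ 2 := by
    rw [integral_inner Ig, ← hm, real_inner_self_eq_norm_sq]
  simp only [s5, s2, s1, integral_const_mul, sb_moment_one, integral_hk hs, mul_zero,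
    Finset.sum_const_zero, mul_one, add_zero] at hpos
  -- conclusion
  have e1 : heat s f x = m := by
    rw [hm, hg]
    rfl
  have e2 : ∀ i, ‖pd i (heat s f) x‖ ^ 2 = ((2 * s)⁻¹) ^ 2 * ‖v i‖ ^ 2 := by
    intro i
    rw [sb_pd_heat hs hf.aestronglyMeasurable hM i x]
    have e3 : ∫ y : E3, (-(2 * s)⁻¹ * (y i * hk s y)) • f (x - y) = -(2 * s)⁻¹ • v i := by
      rw [hv, hg, ← integral_smul]
      congr 1
      ext1 y
      rw [mul_smul]
    rw [e3, norm_smul, mul_pow, norm_neg, Real.norm_eq_abs, sq_abs]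
  have e4 : heat s (fun y => ‖f y‖ ^ 2) x = ∫ y, hk s y * ‖g y‖ ^ 2 := by
    rw [hg]
    rfl
  rw [e1, e4]
  simp only [e2, ← Finset.mul_sum]
  simp only [← Finset.mul_sum] at hpos
  have hs2 : (2 * s)⁻¹ * (2 * s) = 1 := inv_mul_cancel₀ (by positivity)
  have h6 : ((2 * s)⁻¹) ^ 2 * (2 * s * ∑ i, ‖v i‖ ^ 2) = (2 * s)⁻¹ * ∑ i, ‖v i‖ ^ 2 := by
    linear_combination ((2 * s)⁻¹ * ∑ i, ‖v i‖ ^ 2) * hs2
  have h7 : 2 * s * (((2 * s)⁻¹) ^ 2 * ∑ i, ‖v i‖ ^ 2) = (2 * s)⁻¹ * ∑ i, ‖v i‖ ^ 2 := by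
    linear_combination ((2 * s)⁻¹ * ∑ i, ‖v i‖ ^ 2) * hs2
  rw [h7]
  rw [h6] at hpos
  linarith

end bessel

end Pool.Agent.TF
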