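import Mathlib

/-!
# Block S: convolution of a bounded function with a Gaussian is smooth (general Euclidean spaces)
-/

set_option autoImplicit false
set_option maxSynthPendingDepth 3
set_option linter.unusedSectionVars false

namespace Pool.Agent.TF

open MeasureTheory Set Filter Topology
open scoped ENNReal NNReal Real InnerProductSpace

namespace Gs

/-! ### Convolutions with a dominated kernel -/

section conv

variable {E : Type*} [NormedAddCommGroup E] [NormedSpace ℝ E] [MeasurableSpace E] [BorelSpace E]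
  [SecondCountableTopology E] {μ : Measure E} [μ.IsAddLeftInvariant] [μ.IsNegInvariant]
  {V F W : Type*} [NormedAddCommGroup V] [NormedSpace ℝ V] [NormedAddCommGroup F]
  [NormedSpace ℝ F] [NormedAddCommGroup W] [NormedSpace ℝ W] (L : V →L[ℝ] F →L[ℝ] W)
  {K : E → V} {B : E → ℝ} {f : E → F} {M : ℝ}

omit [MeasurableSpace E] [BorelSpace E] [SecondCountableTopology E] in
/-- pointwise bound of the integrand -/
private theorem bd (hb : ∀ y h, ‖h‖ ≤ 1 → ‖K (y + h)‖ ≤ B y) (hM : ∀ x, ‖f x‖ ≤ M) (x x' z : E)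
    (hx : ‖x' - x‖ ≤ 1) : ‖L (K (x' - z)) (f z)‖ ≤ ‖L‖ * B (x - z) * M := by
  have h1 : ‖K (x' - z)‖ ≤ B (x - z) := by
    have := hb (x - z) (x' - x) hx
    rwa [show x - z + (x' - x) = x' - z by abel] at this
  calc ‖L (K (x' - z)) (f z)‖ ≤ ‖L‖ * ‖K (x' - z)‖ * ‖f z‖ := L.le_opNorm₂ _ _
    _ ≤ ‖L‖ * B (x - z) * M := by
        have h2 : 0 ≤ B (x - z) := (norm_nonneg _).trans h1
        have h3 : 0 ≤ ‖L‖ := norm_nonneg L
        exact mul_le_mul (mul_le_mul_of_nonneg_left h1 h3) (hM z) (norm_nonneg _)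
          (mul_nonneg h3 h2)

omit [SecondCountableTopology E] [μ.IsAddLeftInvariant] [μ.IsNegInvariant] in
private theorem meas [SecondCountableTopology E] (hK : Continuous K)
    (hf : AEStronglyMeasurable f μ) (x : E) :
    AEStronglyMeasurable (fun z => L (K (x - z)) (f z)) μ :=
  L.aestronglyMeasurable_comp₂
    (hK.comp (continuous_const.sub continuous_id)).aestronglyMeasurable hf

theorem integrable (hK : Continuous K) (hB : Integrable B μ)
    (hb : ∀ y h, ‖h‖ ≤ 1 → ‖K (y + h)‖ ≤ B y)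
    (hf : AEStronglyMeasurable f μ) (hM : ∀ x, ‖f x‖ ≤ M) (x : E) :
    Integrable (fun z => L (K (x - z)) (f z)) μ :=
  Integrable.mono' (((hB.comp_sub_left x).const_mul ‖L‖).mul_const M) (meas L hK hf x)
    (Eventually.of_forall fun z => bd L hb hM x x z (by simp))

omit [MeasurableSpace E] [BorelSpace E] [SecondCountableTopology E] in
private theorem near (x : E) : ∀ᶠ x' in 𝓝 x, ‖x' - x‖ ≤ 1 := by
  filter_upwards [Metric.ball_mem_nhds x one_pos] with x' hx'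
  rw [← dist_eq_norm]
  exact (Metric.mem_ball.1 hx').le

theorem continuous (hK : Continuous K) (hB : Integrable B μ)
    (hb : ∀ y h, ‖h‖ ≤ 1 → ‖K (y + h)‖ ≤ B y)
    (hf : AEStronglyMeasurable f μ) (hM : ∀ x, ‖f x‖ ≤ M) :
    Continuous fun x => ∫ z, L (K (x - z)) (f z) ∂μ := by
  rw [continuous_iff_continuousAt]
  intro x
  refine continuousAt_of_dominated (bound := fun z => ‖L‖ * B (x - z) * M)
    (Eventually.of_forall fun x' => meas L hK hf x') ?_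
    (((hB.comp_sub_left x).const_mul ‖L‖).mul_const M) ?_
  · filter_upwards [near x] with x' hx'
    exact Eventually.of_forall fun z => bd L hb hM x x' z hx'
  · refine Eventually.of_forall fun z => ?_
    have h1 : Continuous fun x' => L (K (x' - z)) (f z) := by fun_prop
    exact h1.continuousAt

theorem bound (hB : Integrable B μ)
    (hb : ∀ y h, ‖h‖ ≤ 1 → ‖K (y + h)‖ ≤ B y) (hM : ∀ x, ‖f x‖ ≤ M) (x : E) :
    ‖∫ z, L (K (x - z)) (f z) ∂μ‖ ≤ ‖L‖ * (∫ y, B y ∂μ) * M := by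
  refine (norm_integral_le_of_norm_le (((hB.comp_sub_left x).const_mul ‖L‖).mul_const M)
    (Eventually.of_forall fun z => bd L hb hM x x z (by simp))).trans (le_of_eq ?_)
  rw [integral_mul_const, integral_const_mul, integral_sub_left_eq_self B μ x]

theorem deriv {K' : E → E →L[ℝ] V} {B' : E → ℝ} (hK : Continuous K)
    (hK' : ∀ y, HasFDerivAt K (K' y) y) (hc : Continuous K')
    (hB : Integrable B μ) (hb : ∀ y h, ‖h‖ ≤ 1 → ‖K (y + h)‖ ≤ B y)
    (hB' : Integrable B' μ) (hb' : ∀ y h, ‖h‖ ≤ 1 → ‖K' (y + h)‖ ≤ B' y)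
    (hf : AEStronglyMeasurable f μ) (hM : ∀ x, ‖f x‖ ≤ M) (x : E) :
    HasFDerivAt (fun x => ∫ z, L (K (x - z)) (f z) ∂μ)
      (∫ z, L.precompL E (K' (x - z)) (f z) ∂μ) x := by
  refine hasFDerivAt_integral_of_dominated_of_fderiv_le
    (F := fun x z => L (K (x - z)) (f z)) (F' := fun x z => L.precompL E (K' (x - z)) (f z))
    (bound := fun z => ‖L.precompL E‖ * B' (x - z) * M) (s := Metric.ball x 1)
    (Metric.ball_mem_nhds x one_pos)
    (Eventually.of_forall fun x' => meas L hK hf x') (integrable L hK hB hb hf hM x)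
    (meas (L.precompL E) hc hf x) ?_
    (((hB'.comp_sub_left x).const_mul ‖L.precompL E‖).mul_const M) ?_
  · refine Eventually.of_forall fun z x' hx' => ?_
    refine bd (L.precompL E) hb' hM x x' z ?_
    rw [← dist_eq_norm]
    exact (Metric.mem_ball.1 hx').le
  · refine Eventually.of_forall fun z x' _ => ?_
    have h1 : HasFDerivAt (fun x' : E => x' - z) (ContinuousLinearMap.id ℝ E) x' :=
      (hasFDerivAt_id x').sub_const z
    have h2 : HasFDerivAt (fun x' : E => K (x' - z)) ((K' (x' - z)).comp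
      (ContinuousLinearMap.id ℝ E)) x' := (hK' (x' - z)).comp x' h1
    have h3 := (L.flip (f z)).hasFDerivAt.comp x' h2
    refine HasFDerivAt.congr_fderiv (f := fun x' => L (K (x' - z)) (f z)) h3 ?_
    ext w
    rfl

end conv

/-! ### The Gaussian and its derivatives -/

variable {E : Type*} [NormedAddCommGroup E] [InnerProductSpace ℝ E] {c s : ℝ}

/-- the Gaussian -/
noncomputable def K0 (c s : ℝ) (y : E) : ℝ := c * Real.exp (-‖y‖ ^ 2 / (4 * s))

/-- the inner product as a continuous bilinear map -/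
noncomputable def ip : E →L[ℝ] E →L[ℝ] ℝ :=
  LinearMap.mkContinuous₂ (innerₗ E) 1 fun x y => by
    rw [one_mul]
    exact norm_inner_le_norm x y

theorem ip_apply (x y : E) : ip x y = ⟪x, y⟫_ℝ := rfl

theorem norm_ip_le : ‖(ip : E →L[ℝ] E →L[ℝ] ℝ)‖ ≤ 1 :=
  LinearMap.mkContinuous₂_norm_le _ zero_le_one _

theorem norm_ip_apply_le (y : E) : ‖ip y‖ ≤ ‖y‖ := by
  refine ((ip : E →L[ℝ] E →L[ℝ] ℝ).le_opNorm y).trans ?_
  have := norm_ip_le (E := E)
  nlinarith [norm_nonneg y]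

/-- the derivative of the Gaussian -/
noncomputable def K1 (c s : ℝ) (y : E) : E →L[ℝ] ℝ := (-(2 * s)⁻¹ * K0 c s y) • ip y

/-- the second derivative of the Gaussian -/
noncomputable def K2 (c s : ℝ) (y : E) : E →L[ℝ] E →L[ℝ] ℝ :=
  (-(2 * s)⁻¹ * K0 c s y) • ip + (-(2 * s)⁻¹ • K1 c s y).smulRight (ip y)

theorem continuous_K0 : Continuous (K0 c s : E → ℝ) := by
  unfold K0
  fun_prop

theorem hasFDerivAt_K0 (hs : 0 < s) (y : E) : HasFDerivAt (K0 c s) (K1 c s y) y := by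
  have h1 : HasFDerivAt (fun y : E => -‖y‖ ^ 2 / (4 * s))
      (-(4 * s)⁻¹ • (2 • innerSL ℝ y)) y := by
    have h2 : HasFDerivAt (fun y : E => ‖y‖ ^ 2) (2 • innerSL ℝ y) y :=
      (hasStrictFDerivAt_norm_sq y).hasFDerivAt
    have h3 := h2.const_mul (-(4 * s)⁻¹)
    refine h3.congr_of_eventuallyEq (Eventually.of_forall fun z => ?_)
    simp only
    ring
  have h4 := (h1.exp).const_mul c
  refine HasFDerivAt.congr_fderiv (f := K0 c s) h4 ?_
  ext w
  simp only [K1, K0, smul_apply, innerSL_apply_apply, smul_eq_mul, nsmul_eq_mul, ip_apply]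
  field_simp
  norm_num
  ring

theorem continuous_K1 : Continuous (K1 c s : E → E →L[ℝ] ℝ) := by
  have := continuous_K0 (c := c) (s := s) (E := E)
  unfold K1
  fun_prop

theorem continuous_K2 : Continuous (K2 c s : E → E →L[ℝ] E →L[ℝ] ℝ) := by
  have h0 := continuous_K0 (c := c) (s := s) (E := E)
  have h1 := continuous_K1 (c := c) (s := s) (E := E)
  have h2 : Continuous fun y : E => (-(2 * s)⁻¹ * K0 c s y) • (ip : E →L[ℝ] E →L[ℝ] ℝ) := by
    fun_prop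
  have h3 : Continuous fun y : E => (-(2 * s)⁻¹ • K1 c s y).smulRight (ip y) := by
    have h4 : Continuous fun p : (E →L[ℝ] ℝ) × (E →L[ℝ] ℝ) => p.1.smulRight p.2 :=
      ((ContinuousLinearMap.smulRightL ℝ E (E →L[ℝ] ℝ)).continuous₂)
    have h5 : Continuous fun y : E => (-(2 * s)⁻¹ • K1 c s y, (ip y : E →L[ℝ] ℝ)) := by
      fun_prop
    exact h4.comp h5
  exact h2.add h3

theorem hasFDerivAt_K1 (hs : 0 < s) (y : E) : HasFDerivAt (K1 c s) (K2 c s y) y := by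
  have h1 : HasFDerivAt (fun y : E => -(2 * s)⁻¹ * K0 c s y) (-(2 * s)⁻¹ • K1 c s y) y :=
    (hasFDerivAt_K0 hs y).const_mul _
  have h2 : HasFDerivAt (fun y : E => ip y) ip y := ip.hasFDerivAt
  exact HasFDerivAt.congr_fderiv (f := K1 c s) (h1.smul h2) rfl

/-- the dominating function -/
noncomputable def BB (c s : ℝ) (y : E) : ℝ :=
  c * (Real.exp (1 / (4 * s)) * (8 + 32 * s)) * Real.exp (-‖y‖ ^ 2 / (4 * (4 * s)))

theorem dom (hc : 0 ≤ c) (hs : 0 < s) (y h : E) (hh : ‖h‖ ≤ 1) :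
    K0 c s (y + h) * (1 + ‖y + h‖) ^ 2 ≤ BB c s y := by
  have hn1 : ‖y‖ ≤ ‖y + h‖ + 1 := by
    have := norm_sub_le (y + h) h
    rw [add_sub_cancel_right] at this
    linarith
  have hn2 : ‖y + h‖ ≤ ‖y‖ + 1 := (norm_add_le _ _).trans (by linarith)
  have h1 : -‖y + h‖ ^ 2 / (4 * s) ≤ 1 / (4 * s) - ‖y‖ ^ 2 / (8 * s) := by
    have h2 : ‖y‖ ^ 2 / 2 - 1 ≤ ‖y + h‖ ^ 2 := by
      nlinarith [mul_self_le_mul_self (norm_nonneg y) hn1, sq_nonneg (‖y + h‖ - 1)]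
    have h3 : 1 / (4 * s) - ‖y‖ ^ 2 / (8 * s) - -‖y + h‖ ^ 2 / (4 * s) =
        (‖y + h‖ ^ 2 - (‖y‖ ^ 2 / 2 - 1)) / (4 * s) := by
      field_simp
      ring
    have h4 : 0 ≤ (‖y + h‖ ^ 2 - (‖y‖ ^ 2 / 2 - 1)) / (4 * s) := by
      apply div_nonneg (by linarith) (by positivity)
    linarith
  have h5 : (1 + ‖y + h‖) ^ 2 ≤ (8 + 32 * s) * Real.exp (‖y‖ ^ 2 / (16 * s)) := by
    have h6 : (1 + ‖y + h‖) ^ 2 ≤ 8 + 2 * ‖y‖ ^ 2 := by
      nlinarith [norm_nonneg y, norm_nonneg (y + h), sq_nonneg (‖y‖ - 2)]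
    have h7 : ‖y‖ ^ 2 / (16 * s) ≤ Real.exp (‖y‖ ^ 2 / (16 * s)) := by
      have := Real.add_one_le_exp (‖y‖ ^ 2 / (16 * s))
      linarith
    have h8 : (1:ℝ) ≤ Real.exp (‖y‖ ^ 2 / (16 * s)) := Real.one_le_exp (by positivity)
    have h9 : 2 * ‖y‖ ^ 2 = 32 * s * (‖y‖ ^ 2 / (16 * s)) := by
      field_simp
      ring
    rw [h9] at h6
    have h10 : 32 * s * (‖y‖ ^ 2 / (16 * s)) ≤ 32 * s * Real.exp (‖y‖ ^ 2 / (16 * s)) := by gcongr
    nlinarith
  have h11 : Real.exp (1 / (4 * s) - ‖y‖ ^ 2 / (8 * s)) * Real.exp (‖y‖ ^ 2 / (16 * s)) =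
      Real.exp (1 / (4 * s)) * Real.exp (-‖y‖ ^ 2 / (4 * (4 * s))) := by
    rw [← Real.exp_add, ← Real.exp_add]
    congr 1
    field_simp
    ring
  unfold K0 BB
  calc c * Real.exp (-‖y + h‖ ^ 2 / (4 * s)) * (1 + ‖y + h‖) ^ 2
      ≤ c * Real.exp (1 / (4 * s) - ‖y‖ ^ 2 / (8 * s)) *
        ((8 + 32 * s) * Real.exp (‖y‖ ^ 2 / (16 * s))) := by gcongr
    _ = c * (8 + 32 * s) *
        (Real.exp (1 / (4 * s) - ‖y‖ ^ 2 / (8 * s)) * Real.exp (‖y‖ ^ 2 / (16 * s))) := by ring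
    _ = _ := by rw [h11]; ring

theorem K0_nonneg (hc : 0 ≤ c) (y : E) : 0 ≤ K0 c s y := by
  unfold K0
  positivity

theorem dom0 (hc : 0 ≤ c) (hs : 0 < s) (y h : E) (hh : ‖h‖ ≤ 1) :
    ‖K0 c s (y + h)‖ ≤ BB c s y := by
  rw [Real.norm_of_nonneg (K0_nonneg hc _)]
  refine le_trans ?_ (dom hc hs y h hh)
  have h1 := K0_nonneg (s := s) hc (y + h)
  have h2 : 1 ≤ (1 + ‖y + h‖) ^ 2 := by nlinarith [norm_nonneg (y + h)]
  nlinarith

theorem dom1 (hc : 0 ≤ c) (hs : 0 < s) (y h : E) (hh : ‖h‖ ≤ 1) :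
    ‖K1 c s (y + h)‖ ≤ (2 * s)⁻¹ * BB c s y := by
  have h1 := K0_nonneg (s := s) hc (y + h)
  have h2 := norm_ip_apply_le (y + h)
  rw [K1, norm_smul, norm_mul, norm_neg, Real.norm_of_nonneg h1,
    Real.norm_of_nonneg (by positivity : 0 ≤ (2 * s)⁻¹), mul_assoc]
  gcongr
  refine le_trans ?_ (dom hc hs y h hh)
  gcongr
  nlinarith [norm_nonneg (y + h)]

theorem dom2 (hc : 0 ≤ c) (hs : 0 < s) (y h : E) (hh : ‖h‖ ≤ 1) :
    ‖K2 c s (y + h)‖ ≤ ((2 * s)⁻¹ + (2 * s)⁻¹ * (2 * s)⁻¹) * BB c s y := by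
  have h1 := K0_nonneg (s := s) hc (y + h)
  have h2 := dom hc hs y h hh
  have h0 := norm_nonneg (y + h)
  have i0 : 0 ≤ (2 * s)⁻¹ := by positivity
  have e1 : ‖(-(2 * s)⁻¹ * K0 c s (y + h)) • (ip : E →L[ℝ] E →L[ℝ] ℝ)‖ ≤
      (2 * s)⁻¹ * K0 c s (y + h) := by
    rw [norm_smul, norm_mul, norm_neg, Real.norm_of_nonneg h1, Real.norm_of_nonneg i0]
    have := norm_ip_le (E := E)
    nlinarith [mul_nonneg i0 h1]
  have e2 : ‖(-(2 * s)⁻¹ • K1 c s (y + h)).smulRight (ip (y + h))‖ ≤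
      (2 * s)⁻¹ * (2 * s)⁻¹ * (K0 c s (y + h) * ‖y + h‖ ^ 2) := by
    have h3 := norm_ip_apply_le (y + h)
    have h4 := norm_nonneg (ip (y + h))
    rw [ContinuousLinearMap.norm_smulRight_apply, norm_smul, K1, norm_smul,
      norm_mul, norm_neg, Real.norm_of_nonneg h1, Real.norm_of_nonneg i0]
    calc (2 * s)⁻¹ * ((2 * s)⁻¹ * K0 c s (y + h) * ‖ip (y + h)‖) * ‖ip (y + h)‖ =
        (2 * s)⁻¹ * (2 * s)⁻¹ * (K0 c s (y + h) * ‖ip (y + h)‖ ^ 2) := by ring
      _ ≤ _ := by gcongr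
  have e3 : K0 c s (y + h) ≤ BB c s y := by
    have := dom0 hc hs y h hh
    rwa [Real.norm_of_nonneg h1] at this
  have e4 : K0 c s (y + h) * ‖y + h‖ ^ 2 ≤ BB c s y := by
    refine le_trans ?_ h2
    gcongr
    linarith
  calc ‖K2 c s (y + h)‖ ≤ (2 * s)⁻¹ * K0 c s (y + h) +
        (2 * s)⁻¹ * (2 * s)⁻¹ * (K0 c s (y + h) * ‖y + h‖ ^ 2) := by
        unfold K2
        exact (norm_add_le _ _).trans (add_le_add e1 e2)
    _ ≤ (2 * s)⁻¹ * BB c s y + (2 * s)⁻¹ * (2 * s)⁻¹ * BB c s y := by gcongr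
    _ = _ := by ring

end Gs

end Pool.Agent.TF
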