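import Pool.Agent.TF.S.HeatK1
import Pool.Agent.TF.Flow

/-!
# Block S: the heat flow of bounded functions is smooth
-/

set_option autoImplicit false
set_option maxSynthPendingDepth 3
set_option linter.unusedSectionVars false

namespace Pool.Agent.TF

open MeasureTheory Set Filter Topology
open scoped ENNReal NNReal Real InnerProductSpace

namespace Gs

variable {E : Type*} [NormedAddCommGroup E] [InnerProductSpace ℝ E] {c s : ℝ}

/-! ### Smoothness of the convolution -/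

section smooth

variable [MeasurableSpace E] [BorelSpace E] [SecondCountableTopology E] {μ : Measure E}
  [μ.IsAddLeftInvariant] [μ.IsNegInvariant]
  {F : Type*} [NormedAddCommGroup F] [NormedSpace ℝ F] {f : E → F} {M : ℝ}

/-- the convolution with the Gaussian -/
noncomputable def U (c s : ℝ) (μ : Measure E) (f : E → F) (x : E) : F :=
  ∫ y, K0 c s y • f (x - y) ∂μ

theorem U_eq (f : E → F) (x : E) :
    U c s μ f x = ∫ z, ContinuousLinearMap.lsmul ℝ ℝ (K0 c s (x - z)) (f z) ∂μ := by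
  unfold U
  rw [← integral_sub_left_eq_self (fun z => ContinuousLinearMap.lsmul ℝ ℝ (K0 c s (x - z)) (f z))
    μ x]
  simp

/-- the derivative of the convolution -/
noncomputable def U1 (c s : ℝ) (μ : Measure E) (f : E → F) (x : E) : E →L[ℝ] F :=
  ∫ z, (ContinuousLinearMap.lsmul ℝ ℝ : ℝ →L[ℝ] F →L[ℝ] F).precompL E (K1 c s (x - z)) (f z) ∂μ

/-- the second derivative of the convolution -/
noncomputable def U2 (c s : ℝ) (μ : Measure E) (f : E → F) (x : E) : E →L[ℝ] E →L[ℝ] F :=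
  ∫ z, ((ContinuousLinearMap.lsmul ℝ ℝ : ℝ →L[ℝ] F →L[ℝ] F).precompL E).precompL E
    (K2 c s (x - z)) (f z) ∂μ

variable (hc : 0 ≤ c) (hs : 0 < s) (hB : Integrable (BB c s : E → ℝ) μ)
  (hf : AEStronglyMeasurable f μ) (hM : ∀ x, ‖f x‖ ≤ M)

include hc hs hB hf hM in
theorem hasFDerivAt_U (x : E) : HasFDerivAt (U c s μ f) (U1 c s μ f x) x := by
  have h := deriv (ContinuousLinearMap.lsmul ℝ ℝ : ℝ →L[ℝ] F →L[ℝ] F)
    continuous_K0 (hasFDerivAt_K0 hs) continuous_K1 hB (dom0 hc hs)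
    (hB.const_mul _) (dom1 hc hs) hf hM x
  exact h.congr_of_eventuallyEq (Eventually.of_forall fun x => U_eq f x)

include hc hs hB hf hM in
theorem hasFDerivAt_U1 (x : E) : HasFDerivAt (U1 c s μ f) (U2 c s μ f x) x :=
  deriv ((ContinuousLinearMap.lsmul ℝ ℝ : ℝ →L[ℝ] F →L[ℝ] F).precompL E)
    continuous_K1 (hasFDerivAt_K1 hs) continuous_K2 (hB.const_mul _) (dom1 hc hs)
    (hB.const_mul _) (dom2 hc hs) hf hM x

include hc hs hB hf hM in
theorem continuous_U2 : Continuous (U2 c s μ f) :=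
  continuous (((ContinuousLinearMap.lsmul ℝ ℝ : ℝ →L[ℝ] F →L[ℝ] F).precompL E).precompL E)
    continuous_K2 (hB.const_mul _) (dom2 hc hs) hf hM

include hc hs hB hf hM in
theorem contDiff_U : ContDiff ℝ 2 (U c s μ f) := by
  have e : (2 : WithTop ℕ∞) = 1 + 1 := by norm_num
  have h1 : fderiv ℝ (U c s μ f) = U1 c s μ f :=
    funext fun x => (hasFDerivAt_U hc hs hB hf hM x).fderiv
  have h2 : fderiv ℝ (U1 c s μ f) = U2 c s μ f :=
    funext fun x => (hasFDerivAt_U1 hc hs hB hf hM x).fderiv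
  rw [e, contDiff_succ_iff_fderiv]
  refine ⟨fun x => (hasFDerivAt_U hc hs hB hf hM x).differentiableAt, by simp, ?_⟩
  rw [h1, contDiff_one_iff_fderiv]
  refine ⟨fun x => (hasFDerivAt_U1 hc hs hB hf hM x).differentiableAt, ?_⟩
  rw [h2]
  exact continuous_U2 hc hs hB hf hM

include hc hs hB hM in
theorem bdd_U1 : ∃ C, 0 ≤ C ∧ ∀ x, ‖U1 c s μ f x‖ ≤ C := by
  have h := bound ((ContinuousLinearMap.lsmul ℝ ℝ : ℝ →L[ℝ] F →L[ℝ] F).precompL E)
    (hB.const_mul _) (dom1 hc hs) hM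
  exact ⟨_, le_trans (norm_nonneg (U1 c s μ f 0)) (h 0), h⟩

include hc hs hB hM in
theorem bdd_U2 : ∃ C, 0 ≤ C ∧ ∀ x, ‖U2 c s μ f x‖ ≤ C := by
  have h := bound (((ContinuousLinearMap.lsmul ℝ ℝ : ℝ →L[ℝ] F →L[ℝ] F).precompL E).precompL E)
    (hB.const_mul _) (dom2 hc hs) hM
  exact ⟨_, le_trans (norm_nonneg (U2 c s μ f 0)) (h 0), h⟩

include hc hs hB hf hM in
/-- the derivative as a convolution -/
theorem fderiv_U (x v : E) :
    fderiv ℝ (U c s μ f) x v = ∫ y, (-(2 * s)⁻¹ * (⟪y, v⟫_ℝ * K0 c s y)) • f (x - y) ∂μ := by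
  rw [(hasFDerivAt_U hc hs hB hf hM x).fderiv, U1, ContinuousLinearMap.integral_apply
    (integrable _ continuous_K1 (hB.const_mul _) (dom1 hc hs) hf hM x),
    ← integral_sub_left_eq_self _ μ x]
  congr 1
  ext1 y
  rw [sub_sub_cancel, ContinuousLinearMap.precompL_apply]
  have h1 : K1 c s y v = -(2 * s)⁻¹ * (⟪y, v⟫_ℝ * K0 c s y) := by
    rw [K1]
    simp only [smul_apply, smul_eq_mul, ip_apply]
    ring
  rw [h1]
  rfl

include hc hs hB hf hM in
/-- the derivatives are bounded -/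
theorem bdd_fderiv_U : ∃ C, 0 ≤ C ∧ (∀ x v, ‖fderiv ℝ (U c s μ f) x v‖ ≤ C * ‖v‖) ∧
    ∀ x v w, ‖fderiv ℝ (fun x => fderiv ℝ (U c s μ f) x v) x w‖ ≤ C * ‖v‖ * ‖w‖ := by
  obtain ⟨C1, h01, h1⟩ := bdd_U1 (f := f) hc hs hB hM
  obtain ⟨C2, h02, h2⟩ := bdd_U2 (f := f) hc hs hB hM
  refine ⟨max C1 C2, h01.trans (le_max_left _ _), ?_, ?_⟩
  · intro x v
    rw [(hasFDerivAt_U hc hs hB hf hM x).fderiv]
    refine ((U1 c s μ f x).le_opNorm v).trans ?_
    gcongr
    exact (h1 x).trans (le_max_left _ _)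
  · intro x v w
    have e1 : (fun x => fderiv ℝ (U c s μ f) x v) = fun x => U1 c s μ f x v :=
      funext fun x => by rw [(hasFDerivAt_U hc hs hB hf hM x).fderiv]
    have e2 : HasFDerivAt (fun x => U1 c s μ f x v) ((U2 c s μ f x).flip v) x :=
      (hasFDerivAt_U1 hc hs hB hf hM x).clm_apply (hasFDerivAt_const v x) |>.congr_fderiv (by
        ext w
        simp)
    rw [e1, e2.fderiv, ContinuousLinearMap.flip_apply]
    refine ((U2 c s μ f x).le_opNorm₂ w v).trans ?_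
    rw [mul_right_comm]
    gcongr
    exact (h2 x).trans (le_max_right _ _)

end smooth

end Gs

open Pool.Agent.TO Pool.Agent.TB Pool.Agent.TC Pool.Agent.TP

section heat

variable {s : ℝ} {F : Type*} [NormedAddCommGroup F] [NormedSpace ℝ F] {f : E3 → F} {M : ℝ}

theorem sb_heat_eq (f : E3 → F) :
    heat s f = Gs.U ((4 * π * s) ^ (-(3 / 2) : ℝ)) s (volume : Measure E3) f := rfl

theorem sb_c_nonneg (hs : 0 < s) : 0 ≤ (4 * π * s) ^ (-(3 / 2) : ℝ) := by
  have := Real.pi_pos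
  positivity

theorem sb_integrable_BB (hs : 0 < s) :
    Integrable (Gs.BB ((4 * π * s) ^ (-(3 / 2) : ℝ)) s : E3 → ℝ) (volume : Measure E3) := by
  have hp := Real.pi_pos
  have h1 := (integrable_hk (σ := 4 * s) (by positivity)).const_mul
    ((4 * π * s) ^ (-(3 / 2) : ℝ) * (Real.exp (1 / (4 * s)) * (8 + 32 * s)) *
      ((4 * π * (4 * s)) ^ (-(3 / 2) : ℝ))⁻¹)
  refine h1.congr (Eventually.of_forall fun y => ?_)
  have h2 : (4 * π * (4 * s)) ^ (-(3 / 2) : ℝ) ≠ 0 := by positivity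
  simp only [Gs.BB, hk]
  field_simp

/-- (H2) the heat flow of a bounded function is `C²` -/
theorem sb_contDiff_heat (hs : 0 < s) (hf : AEStronglyMeasurable f (volume : Measure E3))
    (hM : ∀ x, ‖f x‖ ≤ M) : ContDiff ℝ 2 (heat s f) :=
  Gs.contDiff_U (sb_c_nonneg hs) hs (sb_integrable_BB hs) hf hM

/-- (H2) bounds of the derivatives -/
theorem sb_bdd_heat (hs : 0 < s) (hf : AEStronglyMeasurable f (volume : Measure E3))
    (hM : ∀ x, ‖f x‖ ≤ M) : ∃ C, 0 ≤ C ∧ (∀ i x, ‖pd i (heat s f) x‖ ≤ C) ∧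
      ∀ i j x, ‖pd i (pd j (heat s f)) x‖ ≤ C := by
  obtain ⟨C, h0, h1, h2⟩ := Gs.bdd_fderiv_U (sb_c_nonneg hs) hs (sb_integrable_BB hs) hf hM
  have he : ∀ k : Fin 3, ‖(ee k : E3)‖ = 1 := fun k => by simp [ee]
  refine ⟨C, h0, ?_, ?_⟩
  · intro i x
    have := h1 x (ee i)
    rw [he, mul_one] at this
    exact this
  · intro i j x
    have := h2 x (ee j) (ee i)
    rw [he, he, mul_one, mul_one] at this
    exact this

theorem sb_norm_heat_le (hs : 0 < s) (hM : ∀ x, ‖f x‖ ≤ M) (x : E3) : ‖heat s f x‖ ≤ M := by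
  unfold heat
  refine (norm_integral_le_of_norm_le ((integrable_hk hs).mul_const M)
    (Eventually.of_forall fun y => ?_)).trans (le_of_eq ?_)
  · rw [norm_smul, Real.norm_of_nonneg (hk_pos hs y).le]
    exact mul_le_mul_of_nonneg_left (hM _) (hk_pos hs y).le
  · rw [integral_mul_const, integral_hk hs, one_mul]

/-- the partial derivative as a convolution -/
theorem sb_pd_heat (hs : 0 < s) (hf : AEStronglyMeasurable f (volume : Measure E3))
    (hM : ∀ x, ‖f x‖ ≤ M) (i : Fin 3) (x : E3) :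
    pd i (heat s f) x = ∫ y, (-(2 * s)⁻¹ * (y i * hk s y)) • f (x - y) := by
  have h := Gs.fderiv_U (sb_c_nonneg hs) hs (sb_integrable_BB hs) hf hM x (ee i)
  simp only [inner_ee] at h
  exact h

/-- the derivative of the Gaussian -/
theorem sb_hasFDerivAt_hk (hs : 0 < s) (y : E3) :
    HasFDerivAt (hk s) (Gs.K1 ((4 * π * s) ^ (-(3 / 2) : ℝ)) s y) y := Gs.hasFDerivAt_K0 hs y

theorem sb_fderiv_hk (hs : 0 < s) (y : E3) (i : Fin 3) :
    fderiv ℝ (hk s) y (ee i) = -(2 * s)⁻¹ * hk s y * y i := by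
  rw [(sb_hasFDerivAt_hk hs y).fderiv, Gs.K1]
  simp only [smul_apply, smul_eq_mul, Gs.ip_apply]
  rw [inner_ee]
  rfl

/-- functions of at most quadratic growth are integrable against the Gaussian -/
theorem sb_int_poly (hs : 0 < s)
    {q : E3 → F} (hq : AEStronglyMeasurable q (volume : Measure E3)) {C : ℝ}
    (hC : ∀ y, ‖q y‖ ≤ C * (1 + ‖y‖) ^ 2) :
    Integrable (fun y => hk s y • q y) (volume : Measure E3) := by
  refine Integrable.mono' ((sb_integrable_BB hs).const_mul C)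
    ((continuous_hk s).aestronglyMeasurable.smul hq) (Eventually.of_forall fun y => ?_)
  have h1 := Gs.dom (sb_c_nonneg hs) hs y 0 (by simp)
  rw [add_zero] at h1
  have h2 := hk_pos hs y
  have hC0 : 0 ≤ C := by
    have := (norm_nonneg _).trans (hC 0)
    simpa using this
  rw [norm_smul, Real.norm_of_nonneg h2.le]
  calc hk s y * ‖q y‖ ≤ hk s y * (C * (1 + ‖y‖) ^ 2) := mul_le_mul_of_nonneg_left (hC y) h2.le
    _ = C * (hk s y * (1 + ‖y‖) ^ 2) := by ring
    _ ≤ _ := mul_le_mul_of_nonneg_left h1 hC0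

end heat

end Pool.Agent.TF
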