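import Pool.Agent.TF.S.Heat
import Pool.Agent.TF.BernB

/-!
# Block S: Bernstein's method for the heat flow
-/

set_option autoImplicit false

namespace Pool.Agent.TF

open MeasureTheory Set Filter Topology Pool.Agent.TO Pool.Agent.TB Pool.Agent.TC Pool.Agent.TP
open scoped ENNReal NNReal Real InnerProductSpace SchwartzMap LineDeriv

variable {s : ℝ}

private theorem sb_int' (hs : 0 < s) {u : E3 → ℝ} (hu : Continuous u) {C : ℝ}
    (hb : ∀ x, ‖u x‖ ≤ C) (x : E3) :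
    Integrable (fun y => hk s y * u (x - y)) (volume : Measure E3) :=
  sv_int (integrable_hk hs) hu hb x

/-- monotonicity -/
theorem sb_heat_mono (hs : 0 < s) {u v : E3 → ℝ} (hu : Continuous u) (hv : Continuous v)
    {C C' : ℝ} (hub : ∀ x, ‖u x‖ ≤ C) (hvb : ∀ x, ‖v x‖ ≤ C') (h : ∀ x, u x ≤ v x) (x : E3) :
    heat s u x ≤ heat s v x :=
  integral_mono (sb_int' hs hu hub x) (sb_int' hs hv hvb x) fun y =>
    mul_le_mul_of_nonneg_left (h _) (hk_pos hs y).le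

private theorem sb_lin1 (hs : 0 < s) {u0 : E3 → ℝ} {u1 : Fin 3 → E3 → ℝ} (h0 : Continuous u0)
    (h1 : ∀ i, Continuous (u1 i)) {C : ℝ} (b0 : ∀ x, ‖u0 x‖ ≤ C) (b1 : ∀ i x, ‖u1 i x‖ ≤ C)
    (a : ℝ) (x : E3) : heat s (fun x => u0 x + a * ∑ i, u1 i x) x =
      heat s u0 x + a * ∑ i, heat s (u1 i) x := by
  have e : ∀ y, hk s y • (u0 (x - y) + a * ∑ i, u1 i (x - y)) =
      hk s y * u0 (x - y) + a * ∑ i, hk s y * u1 i (x - y) := by
    intro y
    rw [smul_eq_mul]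
    simp only [Fin.sum_univ_three]
    ring
  unfold heat
  simp only [e, smul_eq_mul]
  rw [integral_add (sb_int' hs h0 b0 x)
    ((integrable_finsetSum _ fun i _ => sb_int' hs (h1 i) (b1 i) x).const_mul a),
    integral_const_mul, integral_finsetSum _ fun i _ => sb_int' hs (h1 i) (b1 i) x]

private theorem sb_lin2 (hs : 0 < s) {u0 : E3 → ℝ} {u1 : Fin 3 → E3 → ℝ}
    {u2 : Fin 3 → Fin 3 → E3 → ℝ} (h0 : Continuous u0)
    (h1 : ∀ i, Continuous (u1 i)) (h2 : ∀ i j, Continuous (u2 i j)) {C : ℝ}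
    (b0 : ∀ x, ‖u0 x‖ ≤ C) (b1 : ∀ i x, ‖u1 i x‖ ≤ C) (b2 : ∀ i j x, ‖u2 i j x‖ ≤ C)
    (a b : ℝ) (x : E3) :
    heat s (fun x => u0 x + a * ∑ i, u1 i x + b * ∑ i, ∑ j, u2 i j x) x =
      heat s u0 x + a * ∑ i, heat s (u1 i) x + b * ∑ i, ∑ j, heat s (u2 i j) x := by
  have e : ∀ y, hk s y • (u0 (x - y) + a * ∑ i, u1 i (x - y) + b * ∑ i, ∑ j, u2 i j (x - y)) =
      hk s y * u0 (x - y) + a * (∑ i, hk s y * u1 i (x - y)) +
        b * ∑ i, ∑ j, hk s y * u2 i j (x - y) := by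
    intro y
    rw [smul_eq_mul]
    simp only [Fin.sum_univ_three]
    ring
  have i0 := sb_int' hs h0 b0 x
  have i1 : ∀ i, Integrable (fun y => hk s y * u1 i (x - y)) (volume : Measure E3) := fun i =>
    sb_int' hs (h1 i) (b1 i) x
  have i2 : ∀ i j, Integrable (fun y => hk s y * u2 i j (x - y)) (volume : Measure E3) :=
    fun i j => sb_int' hs (h2 i j) (b2 i j) x
  have j1 : Integrable (fun y => a * ∑ i, hk s y * u1 i (x - y)) (volume : Measure E3) :=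
    (integrable_finsetSum _ fun i _ => i1 i).const_mul a
  have j2 : Integrable (fun y => b * ∑ i, ∑ j, hk s y * u2 i j (x - y)) (volume : Measure E3) :=
    (integrable_finsetSum _ fun i _ => integrable_finsetSum _ fun j _ => i2 i j).const_mul b
  have e1 : ∫ y, (hk s y * u0 (x - y) + a * (∑ i, hk s y * u1 i (x - y)) +
      b * ∑ i, ∑ j, hk s y * u2 i j (x - y)) =
      (∫ y, (hk s y * u0 (x - y) + a * (∑ i, hk s y * u1 i (x - y)))) +
        ∫ y, b * ∑ i, ∑ j, hk s y * u2 i j (x - y) := integral_add (i0.add j1) j2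
  unfold heat
  simp only [e, smul_eq_mul]
  rw [e1, integral_add i0 j1, integral_const_mul, integral_const_mul,
    integral_finsetSum _ fun i _ => i1 i,
    integral_finsetSum _ fun i _ => integrable_finsetSum _ fun j _ => i2 i j]
  congr 2
  refine Finset.sum_congr rfl fun i _ => ?_
  rw [integral_finsetSum _ fun j _ => i2 i j]

section

variable {F : Type*} [NormedAddCommGroup F] [InnerProductSpace ℝ F] [CompleteSpace F] {f : E3 → F}
  {M : ℝ}

omit [InnerProductSpace ℝ F] [CompleteSpace F] in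
private theorem sb_sq_bd {u : E3 → F} {C : ℝ} (h : ∀ x, ‖u x‖ ≤ C) (x : E3) :
    ‖‖u x‖ ^ 2‖ ≤ C ^ 2 := by
  rw [norm_pow, norm_norm]
  exact pow_le_pow_left₀ (norm_nonneg _) (h x) 2

/-- Jensen's inequality -/
theorem sb_jensen (hs : 0 < s) (hf : StronglyMeasurable f) (hM : ∀ x, ‖f x‖ ≤ M) (x : E3) :
    ‖heat s f x‖ ^ 2 ≤ heat s (fun y => ‖f y‖ ^ 2) x := by
  refine le_trans ?_ (sb_bessel hs hf hM x)
  have : 0 ≤ 2 * s * ∑ i, ‖pd i (heat s f) x‖ ^ 2 := by positivity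
  linarith

/-- (H5) START -/
theorem sb_start (hs : 0 < s) (hf : StronglyMeasurable f) (hM : ∀ x, ‖f x‖ ≤ M) (x : E3) :
    Bs s (heat s f) x ≤ M ^ 2 := by
  have ht : 0 < s / 2 := by positivity
  obtain ⟨g, hg⟩ : ∃ g : E3 → F, g = heat (s / 2) f := ⟨_, rfl⟩
  have hgs : heat s f = heat (s / 2) g := by
    ext1 y
    rw [hg, sb_heat_heat ht ht hf hM, add_halves]
  have hg2 : ContDiff ℝ 2 g := by
    rw [hg]
    exact sb_contDiff_heat ht hf.aestronglyMeasurable hM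
  have hgM : ∀ x, ‖g x‖ ≤ M := by
    rw [hg]
    exact sb_norm_heat_le ht hM
  obtain ⟨C, hC0, hC1, hC2⟩ := sb_bdd_heat ht hf.aestronglyMeasurable hM
  rw [← hg] at hC1 hC2
  have hpg : ∀ j, Continuous (pd j g) := fun j => (cd_pd hg2 j).continuous
  have hcomm : ∀ j, pd j (heat s f) = heat (s / 2) (pd j g) := by
    intro j
    ext1 y
    rw [hgs]
    exact sb_pd_heat_comm ht (hg2.of_le one_le_two) hgM hC1 j y
  -- first half step, at every point
  have hA : ∀ y, ‖g y‖ ^ 2 + s * ∑ i, ‖pd i g y‖ ^ 2 ≤ M ^ 2 := by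
    intro y
    have h1 := sb_bessel ht hf hM y
    rw [← hg] at h1
    have h2 : heat (s / 2) (fun y => ‖f y‖ ^ 2) y ≤ M ^ 2 :=
      (le_abs_self _).trans (sb_norm_heat_le ht (sb_sq_bd hM) y)
    have e : 2 * (s / 2) = s := by ring
    rw [e] at h1
    exact h1.trans h2
  -- second half step
  have hB := sb_bessel ht hg2.continuous.stronglyMeasurable hgM x
  have hD : ∀ j, ‖pd j (heat s f) x‖ ^ 2 + s * ∑ i, ‖pd i (pd j (heat s f)) x‖ ^ 2 ≤
      heat (s / 2) (fun y => ‖pd j g y‖ ^ 2) x := by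
    intro j
    have h1 := sb_bessel ht (hpg j).stronglyMeasurable (hC1 j) x
    rw [← hcomm j] at h1
    have e : 2 * (s / 2) = s := by ring
    rw [e] at h1
    exact h1
  have e2 : 2 * (s / 2) = s := by ring
  rw [e2, ← hgs] at hB
  have hl := sb_lin1 ht (u0 := fun y => ‖g y‖ ^ 2) (u1 := fun j y => ‖pd j g y‖ ^ 2)
    (by have := hg2.continuous; fun_prop) (fun j => by have := hpg j; fun_prop)
    (C := max (M ^ 2) (C ^ 2)) (fun y => (sb_sq_bd hgM y).trans (le_max_left _ _))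
    (fun j y => (sb_sq_bd (hC1 j) y).trans (le_max_right _ _)) s x
  have hfin : heat (s / 2) (fun y => ‖g y‖ ^ 2 + s * ∑ i, ‖pd i g y‖ ^ 2) x ≤ M ^ 2 := by
    have h9 := sb_norm_heat_le ht (f := fun y => ‖g y‖ ^ 2 + s * ∑ i, ‖pd i g y‖ ^ 2)
      (M := M ^ 2) (fun y => by
        rw [Real.norm_of_nonneg (by positivity)]
        exact hA y) x
    exact (le_abs_self _).trans h9
  rw [hl] at hfin
  have hsum : ∑ j, (‖pd j (heat s f) x‖ ^ 2 + s * ∑ i, ‖pd i (pd j (heat s f)) x‖ ^ 2) ≤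
      ∑ j, heat (s / 2) (fun y => ‖pd j g y‖ ^ 2) x := Finset.sum_le_sum fun j _ => hD j
  rw [Finset.sum_add_distrib, ← Finset.mul_sum, Finset.sum_comm] at hsum
  have hP : 0 ≤ ∑ i, ‖pd i (heat s f) x‖ ^ 2 := by positivity
  unfold Bs
  have h3 := mul_le_mul_of_nonneg_left hsum hs.le
  nlinarith [mul_nonneg hs.le hP]

/-- (H6) STEP -/
theorem sb_step (hs : 0 < s) (hf : C2b f) {κ τ : ℝ} (hκ0 : 0 ≤ κ) (hκ : κ ≤ 1 / 2)
    (hτ : s ≤ 2 * τ) (x : E3) : Bs (κ * (τ + s)) (heat s f) x ≤ heat s (Bs (κ * τ) f) x := by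
  obtain ⟨M0, hM0⟩ := hf.b0
  obtain ⟨M1, hM1⟩ := hf.b1
  obtain ⟨M2, hM2⟩ := hf.b2
  have h1 : ContDiff ℝ 1 f := hf.cd.of_le one_le_two
  have hp1 : ∀ j, ContDiff ℝ 1 (pd j f) := fun j => cd_pd hf.cd j
  have hp2 : ∀ i j, Continuous (pd i (pd j f)) := fun i j =>
    (contDiff_pd (m := 0) (hp1 j) (by norm_num) i).continuous
  have hcomm : ∀ j, pd j (heat s f) = heat s (pd j f) := fun j =>
    funext fun y => sb_pd_heat_comm hs h1 hM0 hM1 j y
  have hcomm2 : ∀ i j, pd i (pd j (heat s f)) = heat s (pd i (pd j f)) := by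
    intro i j
    rw [hcomm j]
    exact funext fun y => sb_pd_heat_comm hs (hp1 j) (hM1 j) (fun i => hM2 i j) i y
  have hA := sb_bessel hs hf.cd.continuous.stronglyMeasurable hM0 x
  have hB : ∀ j, ‖pd j (heat s f) x‖ ^ 2 + 2 * s * ∑ i, ‖pd i (pd j (heat s f)) x‖ ^ 2 ≤
      heat s (fun y => ‖pd j f y‖ ^ 2) x := by
    intro j
    have := sb_bessel hs (hp1 j).continuous.stronglyMeasurable (hM1 j) x
    rwa [← hcomm j] at this
  have hD : ∀ i j, ‖pd i (pd j (heat s f)) x‖ ^ 2 ≤ heat s (fun y => ‖pd i (pd j f) y‖ ^ 2) x := by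
    intro i j
    rw [hcomm2 i j]
    exact sb_jensen hs (hp2 i j).stronglyMeasurable (hM2 i j) x
  have hl := sb_lin2 hs (u0 := fun y => ‖f y‖ ^ 2) (u1 := fun j y => ‖pd j f y‖ ^ 2)
    (u2 := fun i j y => ‖pd i (pd j f) y‖ ^ 2)
    (by have := hf.cd.continuous; fun_prop) (fun j => by have := (hp1 j).continuous; fun_prop)
    (fun i j => by have := hp2 i j; fun_prop)
    (C := max (M0 ^ 2) (max (M1 ^ 2) (M2 ^ 2)))
    (fun y => (sb_sq_bd hM0 y).trans (le_max_left _ _))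
    (fun j y => (sb_sq_bd (hM1 j) y).trans ((le_max_left _ _).trans (le_max_right _ _)))
    (fun i j y => (sb_sq_bd (hM2 i j) y).trans ((le_max_right _ _).trans (le_max_right _ _)))
    (κ * τ) ((κ * τ) ^ 2) x
  have hBs : heat s (Bs (κ * τ) f) x = heat s (fun y => ‖f y‖ ^ 2) x +
      κ * τ * ∑ i, heat s (fun y => ‖pd i f y‖ ^ 2) x +
      (κ * τ) ^ 2 * ∑ i, ∑ j, heat s (fun y => ‖pd i (pd j f) y‖ ^ 2) x := hl
  have hsB : ∑ j, (‖pd j (heat s f) x‖ ^ 2 + 2 * s * ∑ i, ‖pd i (pd j (heat s f)) x‖ ^ 2) ≤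
      ∑ j, heat s (fun y => ‖pd j f y‖ ^ 2) x := Finset.sum_le_sum fun j _ => hB j
  rw [Finset.sum_add_distrib, ← Finset.mul_sum, Finset.sum_comm] at hsB
  have hsD : ∑ i, ∑ j, ‖pd i (pd j (heat s f)) x‖ ^ 2 ≤
      ∑ i, ∑ j, heat s (fun y => ‖pd i (pd j f) y‖ ^ 2) x :=
    Finset.sum_le_sum fun i _ => Finset.sum_le_sum fun j _ => hD i j
  rw [hBs]
  unfold Bs
  obtain ⟨P, hP⟩ : ∃ P : ℝ, P = ∑ i, ‖pd i (heat s f) x‖ ^ 2 := ⟨_, rfl⟩
  obtain ⟨Q, hQ⟩ : ∃ Q : ℝ, Q = ∑ i, ∑ j, ‖pd i (pd j (heat s f)) x‖ ^ 2 := ⟨_, rfl⟩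
  have hP0 : 0 ≤ P := by rw [hP]; positivity
  have hQ0 : 0 ≤ Q := by rw [hQ]; positivity
  rw [← hP] at hA hsB ⊢
  rw [← hQ] at hsB hsD ⊢
  have hτ0 : 0 < τ := by linarith
  have k1 := mul_le_mul_of_nonneg_left hsB (mul_nonneg hκ0 hτ0.le)
  have k2 := mul_le_mul_of_nonneg_left hsD (sq_nonneg (κ * τ))
  have k3 : 0 ≤ (2 - κ) * s * P := by
    apply mul_nonneg (mul_nonneg (by linarith) hs.le) hP0
  have k4 : 0 ≤ κ * s * (2 * τ * (1 - κ) - κ * s) * Q := by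
    apply mul_nonneg (mul_nonneg (mul_nonneg hκ0 hs.le) ?_) hQ0
    nlinarith
  nlinarith

end

end Pool.Agent.TF
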