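import Pool.Agent.TF.S.Close1
import Pool.Agent.TF.E.NcC

/-!
# Project TF, block S: the nice functions are closed under the heat flow (helper91)
-/

set_option autoImplicit false

namespace Pool.Agent.TF.Cl

open MeasureTheory Set Filter Topology Pool.Agent.TO Pool.Agent.TB Pool.Agent.TC Pool.Agent.TP
open scoped ENNReal NNReal Real InnerProductSpace SchwartzMap LineDeriv

/-- the heat flow of a square integrable function is nice -/
theorem nc_heat_l2 {f : E3 → E3} {d : ℝ} (hd : 0 < d) (h : MemLp f 2 (volume : Measure E3)) :
    Nc (heat d f) := by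
  have e : heat d f = cvf (hk d) (vL f : V3) := by
    funext x
    rw [heat_eq_cvf]
    exact cvf_congr (coe_vL h).symm x
  rw [e]
  exact nc_cvf_V3 (smN_hk hd) _

theorem nc_ok : StNc := fun _ _ hd _ _ h => nc_heat_l2 hd h

end Pool.Agent.TF.Cl
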