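import Pool.Agent.TF.S.Close1
import Pool.Agent.TF.E.NcC

/-!
# Block S: the heat flow maps bounded square integrable functions to nice functions
-/

set_option autoImplicit false

namespace Pool.Agent.TF

open MeasureTheory Set Filter Topology Pool.Agent.TO Pool.Agent.TB Pool.Agent.TC Pool.Agent.TP
open scoped ENNReal NNReal Real InnerProductSpace SchwartzMap LineDeriv

theorem stNc : Cl.StNc := by
  intro f d hd _ _ hm
  have h1 : Nc (cvf (hk d) (hm.toLp : V3)) := nc_cvf_V3 (smN_hk hd) hm.toLp
  have h2 : cvf (hk d) (hm.toLp : V3) = heat d f := by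
    ext1 x
    exact cvf_congr hm.coeFn_toLp x
  rwa [h2] at h1

end Pool.Agent.TF
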